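import Mathlib

/-!
# A blowing-up lemma for the Hamming distance
-/

set_option autoImplicit false

namespace Pool.Agent.K9h63.DV

open Finset

theorem hammingDist_cons {t B : ℕ} (u v : Fin B) (f g : Fin t → Fin B) :
    hammingDist (Fin.cons u f : Fin (t + 1) → Fin B) (Fin.cons v g) =
      (if u ≠ v then 1 else 0) + hammingDist f g := by
  unfold hammingDist
  rw [card_filter, Fin.sum_univ_succ, card_filter]
  simp

theorem sum_cons {t B : ℕ} {M : Type} [AddCommMonoid M] (F : (Fin (t + 1) → Fin B) → M) :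
    ∑ g, F g = ∑ u : Fin B, ∑ g : Fin t → Fin B, F (Fin.cons u g) := by
  rw [← (Fin.consEquiv fun _ => Fin B).sum_comp, Fintype.sum_prod_type]
  rfl

theorem blow_ineq1 (P p L Q S : ℝ) (hp : 0 < p) (hpP : p ≤ P) (hL : 1 ≤ L) (hQ : 0 ≤ Q)
    (h : P ≤ L * p) (hS : p * S ≤ Q) : P ^ 2 * S ≤ Q * (P * (1 + L) - L * p) := by
  have h1 : P ^ 2 ≤ p * (P * (1 + L) - L * p) := by nlinarith
  have h2 : 0 ≤ P * (1 + L) - L * p := by nlinarith
  by_cases hS0 : 0 ≤ S
  · calc P ^ 2 * S ≤ p * (P * (1 + L) - L * p) * S := mul_le_mul_of_nonneg_right h1 hS0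
      _ = (p * S) * (P * (1 + L) - L * p) := by ring
      _ ≤ _ := mul_le_mul_of_nonneg_right hS h2
  · push Not at hS0
    have : P ^ 2 * S ≤ 0 := mul_nonpos_of_nonneg_of_nonpos (sq_nonneg _) hS0.le
    exact this.trans (mul_nonneg hQ h2)

theorem blow_ineq2 (P p L Q S S' : ℝ) (hP : 0 < P) (hL : 1 ≤ L) (hQ : 0 ≤ Q)
    (h : L * p ≤ P) (hS' : P * S' ≤ Q) (hS : S ≤ L * S') :
    P ^ 2 * S ≤ Q * (P * (1 + L) - L * p) := by
  calc P ^ 2 * S ≤ P ^ 2 * (L * S') := mul_le_mul_of_nonneg_left hS (sq_nonneg _)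
    _ = L * P * (P * S') := by ring
    _ ≤ L * P * Q := mul_le_mul_of_nonneg_left hS' (by positivity)
    _ ≤ _ := by nlinarith

/-- the blowing-up lemma -/
theorem blow (B : ℕ) (L : ℝ) (hL : 1 ≤ L) : ∀ (t : ℕ) (F : Finset (Fin t → Fin B)), F.Nonempty →
    ∃ D : (Fin t → Fin B) → ℕ, (∀ g, ∃ f ∈ F, hammingDist g f ≤ D g) ∧
      (F.card : ℝ) * ∑ g, L ^ D g ≤ ((B : ℝ) ^ 2 * ((1 + L) ^ 2 / (4 * L))) ^ t := by
  classical
  intro t
  induction t with
  | zero =>
    intro F hF
    obtain ⟨f, hf⟩ := hF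
    refine ⟨fun _ => 0, fun g => ⟨f, hf, ?_⟩, ?_⟩
    · rw [Subsingleton.elim g f]
      simp
    · have h1 : F.card ≤ 1 := by
        rw [card_le_one]
        intro a _ b _
        exact Subsingleton.elim a b
      have h2 : (F.card : ℝ) ≤ 1 := by exact_mod_cast h1
      simpa using h2
  | succ t ih =>
    intro F hF
    set Q : ℝ := ((B : ℝ) ^ 2 * ((1 + L) ^ 2 / (4 * L))) ^ t with hQ
    have hL0 : 0 < L := by linarith
    have hQ0 : 0 ≤ Q := by positivity
    set Fs : Fin B → Finset (Fin t → Fin B) := fun u => univ.filter fun f => Fin.cons u f ∈ F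
      with hFs
    set G : Finset (Fin t → Fin B) := univ.filter fun f => ∃ u, Fin.cons u f ∈ F with hG
    have hGne : G.Nonempty := by
      obtain ⟨f, hf⟩ := hF
      refine ⟨Fin.tail f, ?_⟩
      rw [hG, mem_filter]
      exact ⟨mem_univ _, f 0, by rw [Fin.cons_self_tail]; exact hf⟩
    obtain ⟨DG, hDG1, hDG2⟩ := ih G hGne
    have hchoice : ∀ u, (Fs u).Nonempty → ∃ D : (Fin t → Fin B) → ℕ,
      (∀ g, ∃ f ∈ Fs u, hammingDist g f ≤ D g) ∧ ((Fs u).card : ℝ) * ∑ g, L ^ D g ≤ Q :=
      fun u hu => ih (Fs u) hu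
    have hP : 0 < (G.card : ℝ) := by exact_mod_cast card_pos.2 hGne
    have hFsG : ∀ u, ((Fs u).card : ℝ) ≤ G.card := by
      intro u
      have : (Fs u).card ≤ G.card := by
        apply card_le_card
        intro f hf
        simp only [hFs, hG, mem_filter, mem_univ, true_and] at hf ⊢
        exact ⟨u, hf⟩
      exact_mod_cast this
    have hstep : ∀ u : Fin B, ∃ D : (Fin t → Fin B) → ℕ,
        (∀ g, ∃ f ∈ F, hammingDist (Fin.cons u g : Fin (t + 1) → Fin B) f ≤ D g) ∧
        (G.card : ℝ) ^ 2 * ∑ g, L ^ D g ≤ Q * (G.card * (1 + L) - L * (Fs u).card) := by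
      intro u
      by_cases hc : (G.card : ℝ) ≤ L * (Fs u).card
      · have hpos : 0 < ((Fs u).card : ℝ) := by
          by_contra hne
          have : ((Fs u).card : ℝ) = 0 := le_antisymm (not_lt.1 hne) (by positivity)
          rw [this, mul_zero] at hc
          linarith
        have hne : (Fs u).Nonempty := card_pos.1 (by exact_mod_cast hpos)
        obtain ⟨D, h1, h2⟩ := hchoice u hne
        refine ⟨D, fun g => ?_, blow_ineq1 _ _ _ _ _ hpos (hFsG u) hL hQ0 hc h2⟩
        obtain ⟨f, hf, hd⟩ := h1 g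
        simp only [hFs, mem_filter, mem_univ, true_and] at hf
        refine ⟨_, hf, ?_⟩
        rw [hammingDist_cons]
        simpa using hd
      · refine ⟨fun g => 1 + DG g, fun g => ?_, ?_⟩
        · obtain ⟨f, hf, hd⟩ := hDG1 g
          simp only [hG, mem_filter, mem_univ, true_and] at hf
          obtain ⟨v, hv⟩ := hf
          refine ⟨_, hv, ?_⟩
          rw [hammingDist_cons]
          dsimp only
          split_ifs <;> omega
        · refine blow_ineq2 _ _ _ _ _ (∑ g, L ^ DG g) hP hL hQ0 (not_le.1 hc).le hDG2 ?_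
          rw [mul_sum]
          apply le_of_eq
          exact sum_congr rfl fun g _ => by rw [pow_add, pow_one]
    choose D hD1 hD2 using hstep
    refine ⟨fun g => D (g 0) (Fin.tail g), fun g => ?_, ?_⟩
    · obtain ⟨f, hf, hd⟩ := hD1 (g 0) (Fin.tail g)
      rw [Fin.cons_self_tail] at hd
      exact ⟨f, hf, hd⟩
    · rw [sum_cons]
      simp only [Fin.cons_zero, Fin.tail_cons]
      have hcard : (F.card : ℝ) = ∑ u, ((Fs u).card : ℝ) := by
        have h1 : F.card = ∑ g : Fin (t + 1) → Fin B, if g ∈ F then 1 else 0 := by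
          rw [← card_filter]
          simp
        have h2 : F.card = ∑ u, (Fs u).card := by
          rw [h1, sum_cons]
          refine sum_congr rfl fun u _ => ?_
          rw [hFs, card_filter]
        rw [h2]
        push_cast
        rfl
      set P : ℝ := (G.card : ℝ) with hPdef
      set S : ℝ := ∑ u, ∑ g, L ^ D u g with hS
      have h1 : P ^ 2 * S ≤ Q * (B * (P * (1 + L)) - L * F.card) := by
        rw [hS, mul_sum]
        refine (sum_le_sum fun u _ => hD2 u).trans (le_of_eq ?_)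
        rw [← mul_sum, sum_sub_distrib, sum_const, card_univ, Fintype.card_fin, nsmul_eq_mul,
          ← mul_sum, hcard]
      have h2 : (F.card : ℝ) * (B * (P * (1 + L)) - L * F.card) ≤
          P ^ 2 * ((B : ℝ) ^ 2 * ((1 + L) ^ 2 / (4 * L))) := by
        rw [← sub_nonneg]
        have h3 : P ^ 2 * ((B : ℝ) ^ 2 * ((1 + L) ^ 2 / (4 * L))) -
            (F.card : ℝ) * (B * (P * (1 + L)) - L * F.card) =
            (2 * L * F.card - B * (P * (1 + L))) ^ 2 / (4 * L) := by
          field_simp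
          ring
        rw [h3]
        positivity
      have h4 : P ^ 2 * (F.card * S) ≤
          P ^ 2 * ((B : ℝ) ^ 2 * ((1 + L) ^ 2 / (4 * L))) ^ (t + 1) := by
        calc P ^ 2 * (F.card * S) = F.card * (P ^ 2 * S) := by ring
          _ ≤ F.card * (Q * (B * (P * (1 + L)) - L * F.card)) :=
              mul_le_mul_of_nonneg_left h1 (by positivity)
          _ = Q * (F.card * (B * (P * (1 + L)) - L * F.card)) := by ring
          _ ≤ Q * (P ^ 2 * ((B : ℝ) ^ 2 * ((1 + L) ^ 2 / (4 * L)))) :=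
              mul_le_mul_of_nonneg_left h2 hQ0
          _ = _ := by
              rw [hQ]
              ring
      exact le_of_mul_le_mul_left h4 (by positivity)

end Pool.Agent.K9h63.DV
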