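import Pool.Agent.K9h63.DV.Stm

/-!
# Leaf CNT: a rectangle contains `star T` for few sets `T`
-/

set_option autoImplicit false

namespace Pool.Agent.K9h63.DV

open Finset

theorem cnt_choose_step (N t n : ℕ) (hn : N + 1 ≤ n) :
    (N.choose t : ℝ) ≤ Real.exp (-((t : ℝ) / n)) * ((N + 1).choose t : ℝ) := by
  by_cases ht : t ≤ N + 1
  · have h1 : (N.choose t : ℝ) * (N + 1) = ((N + 1).choose t : ℝ) * (N + 1 - t) := by
      have := Nat.choose_mul_succ_eq N t
      have h2 : ((N + 1 - t : ℕ) : ℝ) = (N : ℝ) + 1 - t := by
        rw [Nat.cast_sub ht]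
        push_cast
        ring
      rw [← h2]
      exact_mod_cast this
    have hN : (0 : ℝ) < N + 1 := by positivity
    have h3 : (N.choose t : ℝ) = ((N + 1).choose t : ℝ) * (1 - t / (N + 1)) := by
      field_simp
      linarith
    rw [h3, mul_comm]
    apply mul_le_mul_of_nonneg_right _ (by positivity)
    have h4 : (t : ℝ) / n ≤ t / (N + 1) := by
      apply div_le_div_of_nonneg_left (by positivity) hN
      exact_mod_cast hn
    have h5 := Real.add_one_le_exp (-((t : ℝ) / n))
    linarith
  · rw [Nat.choose_eq_zero_of_lt (by omega)]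
    simp only [Nat.cast_zero]
    positivity

theorem cnt_choose (t n : ℕ) : ∀ m : ℕ, m ≤ n →
    ((n - m).choose t : ℝ) ≤ Real.exp (-((t : ℝ) / n * m)) * (n.choose t : ℝ) := by
  intro m
  induction m with
  | zero =>
    intro _
    simp
  | succ m ih =>
    intro hm
    have h1 := ih (by omega)
    have h2 := cnt_choose_step (n - (m + 1)) t n (by omega)
    rw [show n - (m + 1) + 1 = n - m by omega] at h2
    refine h2.trans ?_
    calc Real.exp (-((t : ℝ) / n)) * ((n - m).choose t : ℝ)
        ≤ Real.exp (-((t : ℝ) / n)) * (Real.exp (-((t : ℝ) / n * m)) * (n.choose t : ℝ)) := by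
          apply mul_le_mul_of_nonneg_left h1 (by positivity)
      _ = Real.exp (-((t : ℝ) / n * (m + 1 : ℕ))) * (n.choose t : ℝ) := by
          rw [← mul_assoc, ← Real.exp_add]
          congr 2
          push_cast
          ring

/-- ordered pairs of the slots in `W` -/
def cntPairs {n : ℕ} (W : Finset (Slot n)) : Finset (Fin n × Fin n) :=
  W.image (fun e => (e.1.1, e.1.2)) ∪ W.image fun e => (e.1.2, e.1.1)

theorem card_cntPairs {n : ℕ} (W : Finset (Slot n)) : (cntPairs W).card = 2 * W.card := by
  unfold cntPairs
  rw [card_union_of_disjoint, card_image_of_injective, card_image_of_injective, two_mul]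
  · intro e f h
    simp only [Prod.mk.injEq] at h
    exact Subtype.ext (Prod.ext h.2 h.1)
  · intro e f h
    simp only [Prod.mk.injEq] at h
    exact Subtype.ext (Prod.ext h.1 h.2)
  · rw [disjoint_left]
    intro p h1 h2
    rw [mem_image] at h1 h2
    obtain ⟨e, _, rfl⟩ := h1
    obtain ⟨f, _, h3⟩ := h2
    simp only [Prod.mk.injEq] at h3
    have he := e.2
    have hf := f.2
    rw [← h3.1, ← h3.2] at he
    exact absurd he (not_lt.2 hf.le)

/-- the slots in `J` -/
def cntSlots {n : ℕ} (J : Finset (Fin n)) : Finset (Slot n) :=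
  univ.filter fun e => e.1.1 ∈ J ∧ e.1.2 ∈ J

theorem card_cntSlots {n : ℕ} (J : Finset (Fin n)) :
    2 * (cntSlots J).card + J.card = J.card * J.card := by
  rw [← card_cntPairs]
  have h1 : cntPairs (cntSlots J) = J.offDiag := by
    ext ⟨v, w⟩
    simp only [cntPairs, cntSlots, mem_union, mem_image, mem_filter, mem_univ, true_and,
      Prod.mk.injEq, mem_offDiag]
    constructor
    · rintro (⟨e, ⟨h1, h2⟩, rfl, rfl⟩ | ⟨e, ⟨h1, h2⟩, rfl, rfl⟩)
      · exact ⟨h1, h2, e.2.ne⟩
      · exact ⟨h2, h1, e.2.ne'⟩
    · rintro ⟨h1, h2, h3⟩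
      rcases lt_or_gt_of_ne h3 with h | h
      · exact Or.inl ⟨⟨(v, w), h⟩, ⟨h1, h2⟩, rfl, rfl⟩
      · exact Or.inr ⟨⟨(w, v), h⟩, ⟨h2, h1⟩, rfl, rfl⟩
  rw [h1, offDiag_card]
  have : J.card ≤ J.card * J.card := Nat.le_mul_self _
  omega

variable {n K : ℕ}

/-- the slots of `j` in `J` -/
def cntE (part : Slot n → Option (Fin K)) (J : Finset (Fin n)) (j : Fin K) : Finset (Slot n) :=
  (cntSlots J).filter fun e => part e = some j

/-- the vertices of `J` at these slots -/
def cntA (part : Slot n → Option (Fin K)) (J : Finset (Fin n)) (j : Fin K) : Finset (Fin n) :=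
  (cntE part J j).image (fun e => e.1.1) ∪ (cntE part J j).image fun e => e.1.2

theorem card_cntE_le (b : ℕ) (part : Slot n → Option (Fin K)) (J : Finset (Fin n)) (j : Fin K)
    (hb : (univ.filter fun e => part e = some j).card ≤ 2 * b) :
    ((cntE part J j).card : ℝ) ≤ Real.sqrt b * (cntA part J j).card := by
  have h1 : (cntE part J j).card ≤ 2 * b := by
    refine (card_le_card ?_).trans hb
    intro e he
    simp only [cntE, mem_filter] at he
    simp [he.2]
  have h2 : 2 * (cntE part J j).card ≤ (cntA part J j).card * (cntA part J j).card := by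
    rw [← card_cntPairs, ← card_product]
    apply card_le_card
    intro p hp
    simp only [cntPairs, mem_union, mem_image] at hp
    rcases hp with ⟨e, he, rfl⟩ | ⟨e, he, rfl⟩
    · rw [mem_product]
      exact ⟨mem_union_left _ (mem_image_of_mem _ he), mem_union_right _ (mem_image_of_mem _ he)⟩
    · rw [mem_product]
      exact ⟨mem_union_right _ (mem_image_of_mem _ he), mem_union_left _ (mem_image_of_mem _ he)⟩
  have h3 : (cntE part J j).card * (cntE part J j).card ≤
      b * ((cntA part J j).card * (cntA part J j).card) := by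
    nlinarith
  have h4 : ((cntE part J j).card : ℝ) ^ 2 ≤ (Real.sqrt b * (cntA part J j).card) ^ 2 := by
    rw [mul_pow, Real.sq_sqrt (by positivity), sq, sq]
    exact_mod_cast h3
  exact le_of_sq_le_sq h4 (by positivity)

theorem sum_card_cntA (a b : ℕ) (hb0 : 1 ≤ b) (part : Slot n → Option (Fin K)) (J : Finset (Fin n))
    (hJ : J.card = a) (hfree : ∀ e ∈ cntSlots J, part e ≠ none)
    (hb : ∀ j, (univ.filter fun e => part e = some j).card ≤ 2 * b) :
    (a : ℝ) * (a - 1) / (2 * Real.sqrt b) ≤ ∑ j, ((cntA part J j).card : ℝ) := by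
  have hs : 0 < Real.sqrt b := Real.sqrt_pos.2 (by exact_mod_cast hb0)
  have h1 : (cntSlots J).card ≤ ∑ j, (cntE part J j).card := by
    refine (card_le_card ?_).trans card_biUnion_le
    intro e he
    obtain ⟨j, hj⟩ := Option.ne_none_iff_exists'.1 (hfree e he)
    rw [mem_biUnion]
    exact ⟨j, mem_univ _, by simp [cntE, he, hj]⟩
  have h2 : ((cntSlots J).card : ℝ) ≤ ∑ j, ((cntE part J j).card : ℝ) := by exact_mod_cast h1
  have h3 : (a : ℝ) * (a - 1) = 2 * ((cntSlots J).card : ℝ) := by
    have := card_cntSlots J
    rw [hJ] at this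
    have h4 : (2 * ((cntSlots J).card : ℝ) + a) = a * a := by exact_mod_cast this
    linarith
  have h5 : ∑ j, ((cntE part J j).card : ℝ) ≤ Real.sqrt b * ∑ j, ((cntA part J j).card : ℝ) := by
    rw [mul_sum]
    exact sum_le_sum fun j _ => card_cntE_le b part J j (hb j)
  rw [div_le_iff₀ (by positivity), h3]
  nlinarith

theorem card_disjoint_powerset (t : ℕ) (A : Finset (Fin n)) :
    ((univ : Finset (Finset (Fin n))).filter fun T => T.card = t ∧ Disjoint T A).card =
      (n - A.card).choose t := by
  have h1 : ((univ : Finset (Finset (Fin n))).filter fun T => T.card = t ∧ Disjoint T A) =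
      powersetCard t Aᶜ := by
    ext T
    simp only [mem_filter, mem_univ, true_and, mem_powersetCard]
    rw [subset_compl_iff_disjoint_right, and_comm]
  rw [h1, card_powersetCard, card_compl, Fintype.card_fin]

/-- CNT -/
theorem cnt : S_CNT := by
  classical
  intro n t a b K ha hb ht R part hR hcard hind
  set F : Finset (Finset (Fin n)) := univ.filter fun T => T.card = t ∧ R (star T) with hF
  have hncard : {T : Finset (Fin n) | T.card = t ∧ R (star T)}.ncard = F.card := by
    rw [← Set.ncard_coe_finset]
    congr 1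
    ext T
    simp [hF]
  rw [hncard]
  have hcov : Fintype.piFinset (fun _ : Fin K => F) ⊆
      ((univ : Finset (Finset (Fin n))).filter fun J => J.card = a ∧
        ∀ e ∈ cntSlots J, part e ≠ none).biUnion fun J => Fintype.piFinset fun j : Fin K =>
          (univ : Finset (Finset (Fin n))).filter fun T => T.card = t ∧
            Disjoint T (cntA part J j) := by
    intro T hT
    rw [Fintype.mem_piFinset] at hT
    have h1 := hR (fun j => star (T j)) (fun _ => true) fun j => (mem_filter.1 (hT j)).2.2
    obtain ⟨J, hJ, hJ2⟩ := hind _ h1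
    rw [mem_biUnion]
    refine ⟨J, ?_, ?_⟩
    · rw [mem_filter]
      refine ⟨mem_univ _, hJ, fun e he hne => ?_⟩
      simp only [cntSlots, mem_filter, mem_univ, true_and] at he
      have := hJ2 e he.1 he.2
      rw [hne] at this
      simp at this
    · rw [Fintype.mem_piFinset]
      intro j
      rw [mem_filter]
      refine ⟨mem_univ _, (mem_filter.1 (hT j)).2.1, ?_⟩
      rw [disjoint_left]
      intro v hv hvA
      have hx : ∀ e ∈ cntE part J j, e.1.1 ∉ T j ∧ e.1.2 ∉ T j := by
        intro e he
        simp only [cntE, cntSlots, mem_filter, mem_univ, true_and] at he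
        have := hJ2 e he.1.1 he.1.2
        rw [he.2] at this
        simp only [Option.elim, star, decide_eq_false_iff_not, not_or] at this
        exact this
      simp only [cntA, mem_union, mem_image] at hvA
      rcases hvA with ⟨e, he, rfl⟩ | ⟨e, he, rfl⟩
      · exact (hx e he).1 hv
      · exact (hx e he).2 hv
  have h1 : F.card ^ K ≤ ∑ J ∈ (univ : Finset (Finset (Fin n))).filter fun J => J.card = a ∧
        ∀ e ∈ cntSlots J, part e ≠ none, ∏ j : Fin K, (n - (cntA part J j).card).choose t := by
    have h2 := (card_le_card hcov).trans card_biUnion_le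
    rw [Fintype.card_piFinset, prod_const, card_univ, Fintype.card_fin] at h2
    refine h2.trans (le_of_eq ?_)
    refine sum_congr rfl fun J _ => ?_
    rw [Fintype.card_piFinset]
    exact prod_congr rfl fun j _ => card_disjoint_powerset t _
  have h2 : (F.card : ℝ) ^ K ≤ ∑ J ∈ (univ : Finset (Finset (Fin n))).filter fun J => J.card = a ∧
        ∀ e ∈ cntSlots J, part e ≠ none,
          ∏ j : Fin K, ((n - (cntA part J j).card).choose t : ℝ) := by
    exact_mod_cast h1
  refine h2.trans ?_
  have h3 : ∀ J ∈ (univ : Finset (Finset (Fin n))).filter fun J => J.card = a ∧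
        ∀ e ∈ cntSlots J, part e ≠ none,
          ∏ j : Fin K, ((n - (cntA part J j).card).choose t : ℝ) ≤
          Real.exp (-((t : ℝ) / n * (a * (a - 1) / (2 * Real.sqrt b)))) * (n.choose t : ℝ) ^ K := by
    intro J hJ
    obtain ⟨_, hJ1, hJ2⟩ := mem_filter.1 hJ
    calc ∏ j : Fin K, ((n - (cntA part J j).card).choose t : ℝ)
        ≤ ∏ j : Fin K, (Real.exp (-((t : ℝ) / n * (cntA part J j).card)) * (n.choose t : ℝ)) := by
          apply prod_le_prod
          · intro j _
            positivity
          · intro j _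
            apply cnt_choose
            exact (card_le_univ _).trans (by simp)
      _ = Real.exp (-((t : ℝ) / n * ∑ j, ((cntA part J j).card : ℝ))) * (n.choose t : ℝ) ^ K := by
          rw [prod_mul_distrib, prod_const, card_univ, Fintype.card_fin, ← Real.exp_sum]
          congr 2
          rw [sum_neg_distrib, mul_sum]
      _ ≤ _ := by
          apply mul_le_mul_of_nonneg_right _ (by positivity)
          apply Real.exp_le_exp.2
          apply neg_le_neg
          apply mul_le_mul_of_nonneg_left _ (by positivity)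
          exact sum_card_cntA a b hb part J hJ1 hJ2 hcard
  refine (sum_le_sum h3).trans ?_
  rw [sum_const, nsmul_eq_mul, ← mul_assoc]
  apply mul_le_mul_of_nonneg_right _ (by positivity)
  apply mul_le_mul_of_nonneg_right _ (by positivity)
  have h4 : ((univ : Finset (Finset (Fin n))).filter fun J => J.card = a ∧
        ∀ e ∈ cntSlots J, part e ≠ none).card ≤ 2 ^ n := by
    refine (card_filter_le _ _).trans ?_
    simp
  exact_mod_cast h4

end Pool.Agent.K9h63.DV
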