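import Pool.Agent.K9h63.DV.Main
import Pool.Agent.K9h63.DV.Blow

/-!
# Families of rectangles which accept the graphs without small vertex covers
-/

set_option autoImplicit false

namespace Pool.Agent.K9h63.DV

open Finset

variable {n t B k : ℕ}

/-- vertex number `b` of block `i` -/
def vtx (h : t * B ≤ n) (i : Fin t) (b : Fin B) : Fin n := Fin.castLE h (finProdFinEquiv (i, b))

theorem vtx_inj (h : t * B ≤ n) {i i' : Fin t} {b b' : Fin B} (he : vtx h i b = vtx h i' b') :
    i = i' ∧ b = b' := by
  have h1 := finProdFinEquiv.injective (Fin.castLE_injective h he)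
  simpa using h1

/-- one vertex in each block -/
def TS (h : t * B ≤ n) (f : Fin t → Fin B) : Finset (Fin n) := univ.image fun i => vtx h i (f i)

/-- the mixed graph -/
def yF (h : t * B ≤ n) (part : Slot n → Fin k) (F : Fin k → Fin t → Fin B) : Gr n :=
  fun e => star (TS h (F (part e))) e

/-- repeated vertices -/
def bad (F : Fin k → Fin t → Fin B) : Finset (Fin t × Fin k) :=
  univ.filter fun p => ∃ j' < p.2, F j' p.1 = F p.2 p.1

theorem card_union_add (h : t * B ≤ n) (F : Fin k → Fin t → Fin B) :
    k * t ≤ (univ.biUnion fun j => TS h (F j)).card + (bad F).card := by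
  classical
  have h1 : ((univ : Finset (Fin t × Fin k)).filter fun p => ¬ ∃ j' < p.2,
      F j' p.1 = F p.2 p.1).card ≤ (univ.biUnion fun j => TS h (F j)).card := by
    refine card_le_card_of_injOn (fun p => vtx h p.1 (F p.2 p.1)) ?_ ?_
    · intro p _
      simp only [coe_biUnion, TS, Set.mem_iUnion, mem_coe, mem_univ, Set.iUnion_true]
      exact ⟨p.2, mem_image_of_mem _ (mem_univ _)⟩
    · intro p hp q hq hpq
      rw [mem_coe, mem_filter] at hp hq
      obtain ⟨h2, h3⟩ := vtx_inj h hpq
      refine Prod.ext h2 ?_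
      rcases lt_trichotomy p.2 q.2 with h4 | h4 | h4
      · exact absurd ⟨p.2, h4, by rw [← h2] at h3 ⊢; exact h3⟩ hq.2
      · exact h4
      · exact absurd ⟨q.2, h4, by rw [h2] at h3 ⊢; exact h3.symm⟩ hp.2
  have h2 := card_filter_add_card_filter_not (s := (univ : Finset (Fin t × Fin k)))
    (fun p => ∃ j' < p.2, F j' p.1 = F p.2 p.1)
  rw [card_univ, Fintype.card_prod, Fintype.card_fin, Fintype.card_fin] at h2
  unfold bad
  rw [mul_comm k t]
  omega

theorem card_coll (i : Fin t) (j j' : Fin k) (hj : j' ≠ j) :
    B * (univ.filter fun F : Fin k → Fin t → Fin B => F j' i = F j i).card ≤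
      Fintype.card (Fin k → Fin t → Fin B) := by
  classical
  have h1 : ((univ : Finset (Fin B)) ×ˢ
      (univ.filter fun F : Fin k → Fin t → Fin B => F j' i = F j i)).card ≤
      (univ : Finset (Fin k → Fin t → Fin B)).card := by
    refine card_le_card_of_injOn (fun q => Function.update q.2 j (Function.update (q.2 j) i q.1))
      (fun _ _ => by simp) ?_
    intro q hq q' hq' he
    simp only [coe_product, coe_filter, mem_univ, true_and, Set.mem_prod] at hq hq'
    have hF : q.2 j' i = q.2 j i := hq.2
    have hF' : q'.2 j' i = q'.2 j i := hq'.2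
    dsimp only at he
    have e1 : q.1 = q'.1 := by
      have := congrFun (congrFun he j) i
      simpa using this
    have e2 : q.2 j' i = q'.2 j' i := by
      have := congrFun (congrFun he j') i
      simpa [Function.update_of_ne hj] using this
    refine Prod.ext e1 ?_
    funext a b
    by_cases ha : a = j
    · subst ha
      by_cases hb : b = i
      · subst hb
        rw [← hF, ← hF', e2]
      · have := congrFun (congrFun he a) b
        simpa [Function.update_of_ne hb] using this
    · have := congrFun (congrFun he a) b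
      simpa [Function.update_of_ne ha] using this
  rwa [card_product, card_univ, Fintype.card_fin, card_univ] at h1

theorem sum_bad : B * ∑ F : Fin k → Fin t → Fin B, (bad F).card ≤
    t * (k * k) * Fintype.card (Fin k → Fin t → Fin B) := by
  classical
  have h1 : ∀ F : Fin k → Fin t → Fin B, (bad F).card ≤
      ∑ q : Fin t × Fin k × Fin k, if q.2.2 ≠ q.2.1 ∧ F q.2.2 q.1 = F q.2.1 q.1 then 1 else 0 := by
    intro F
    rw [← card_filter]
    refine (card_le_card ?_).trans (card_image_le (f := fun q : Fin t × Fin k × Fin k =>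
      (q.1, q.2.1)))
    intro p hp
    simp only [bad, mem_filter, mem_univ, true_and] at hp
    obtain ⟨j', h2, h3⟩ := hp
    rw [mem_image]
    exact ⟨(p.1, p.2, j'), by simp [h2.ne, h3], rfl⟩
  calc B * ∑ F : Fin k → Fin t → Fin B, (bad F).card
      ≤ B * ∑ F : Fin k → Fin t → Fin B, ∑ q : Fin t × Fin k × Fin k,
        (if q.2.2 ≠ q.2.1 ∧ F q.2.2 q.1 = F q.2.1 q.1 then 1 else 0) :=
        Nat.mul_le_mul_left _ (sum_le_sum fun F _ => h1 F)
    _ = ∑ q : Fin t × Fin k × Fin k, B * (univ.filter fun F : Fin k → Fin t → Fin B =>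
        q.2.2 ≠ q.2.1 ∧ F q.2.2 q.1 = F q.2.1 q.1).card := by
        rw [sum_comm, mul_sum]
        refine sum_congr rfl fun q _ => ?_
        rw [card_filter]
    _ ≤ ∑ q : Fin t × Fin k × Fin k, Fintype.card (Fin k → Fin t → Fin B) := by
        refine sum_le_sum fun q _ => ?_
        by_cases hq : q.2.2 ≠ q.2.1
        · refine le_trans (Nat.mul_le_mul_left _ (card_le_card ?_)) (card_coll q.1 q.2.1 q.2.2 hq)
          intro F hF
          simp only [mem_filter, mem_univ, true_and] at hF ⊢
          exact hF.2
        · rw [filter_false_of_mem (fun F _ h => hq h.1)]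
          simp
    _ = _ := by
        rw [sum_const, card_univ, Fintype.card_prod, Fintype.card_prod, Fintype.card_fin,
          Fintype.card_fin, smul_eq_mul]

/-- half of the tuples are good -/
theorem card_good (m : ℕ) (hB : 1 ≤ B) (hm : 1 ≤ m) (hmB : 2 * (t * (k * k)) ≤ m * B) :
    Fintype.card (Fin k → Fin t → Fin B) ≤
      2 * (univ.filter fun F : Fin k → Fin t → Fin B => (bad F).card < m).card := by
  classical
  set N := Fintype.card (Fin k → Fin t → Fin B) with hN
  set b := (univ.filter fun F : Fin k → Fin t → Fin B => ¬ (bad F).card < m).card with hb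
  have h1 : b * m ≤ ∑ F : Fin k → Fin t → Fin B, (bad F).card := by
    calc b * m = ∑ F ∈ univ.filter fun F : Fin k → Fin t → Fin B => ¬ (bad F).card < m, m := by
          rw [sum_const, smul_eq_mul]
      _ ≤ ∑ F ∈ univ.filter fun F : Fin k → Fin t → Fin B => ¬ (bad F).card < m,
            (bad F).card := by
          refine sum_le_sum fun F hF => ?_
          rw [mem_filter] at hF
          exact not_lt.1 hF.2
      _ ≤ _ := sum_le_sum_of_subset (filter_subset _ _)
  have h2 := sum_bad (t := t) (B := B) (k := k)
  have h3 : (m * B) * (2 * b) ≤ (m * B) * N := by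
    calc (m * B) * (2 * b) = 2 * (B * (b * m)) := by ring
      _ ≤ 2 * (B * ∑ F : Fin k → Fin t → Fin B, (bad F).card) :=
          Nat.mul_le_mul_left _ (Nat.mul_le_mul_left _ h1)
      _ ≤ 2 * (t * (k * k) * N) := Nat.mul_le_mul_left _ h2
      _ = 2 * (t * (k * k)) * N := by ring
      _ ≤ _ := Nat.mul_le_mul_right _ hmB
  have h4 : 2 * b ≤ N := Nat.le_of_mul_le_mul_left h3 (Nat.mul_pos (by omega) (by omega))
  have h5 := card_filter_add_card_filter_not (s := (univ : Finset (Fin k → Fin t → Fin B)))
    (fun F => (bad F).card < m)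
  rw [card_univ, ← hN, ← hb] at h5
  omega

theorem card_proj (P : Finset (Fin k → Fin t → Fin B)) (j : Fin k) :
    P.card * Fintype.card (Fin t → Fin B) ≤
      (P.image fun F => F j).card * Fintype.card (Fin k → Fin t → Fin B) := by
  classical
  have h1 : (P ×ˢ (univ : Finset (Fin t → Fin B))).card ≤
      ((P.image fun F => F j) ×ˢ (univ : Finset (Fin k → Fin t → Fin B))).card := by
    refine card_le_card_of_injOn (fun q => (q.1 j, Function.update q.1 j q.2)) ?_ ?_
    · intro q hq
      simp only [coe_product, Set.mem_prod, mem_coe] at hq ⊢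
      exact ⟨mem_image_of_mem _ hq.1, mem_univ _⟩
    · intro q _ q' _ he
      simp only [Prod.mk.injEq] at he
      refine Prod.ext ?_ ?_
      · funext a
        by_cases ha : a = j
        · rw [ha]
          exact he.1
        · have := congrFun he.2 a
          simpa [Function.update_of_ne ha] using this
      · have := congrFun he.2 j
        simpa using this
  rwa [card_product, card_product, card_univ, card_univ] at h1

/-- the main inequality -/
theorem co_main (h : t * B ≤ n) (hB : 1 ≤ B) (hk : 1 ≤ k) (part : Slot n → Fin k) (m r : ℕ)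
    (hm : 1 ≤ m) (hmB : 2 * (t * (k * k)) ≤ m * B) {ι : Type} [Fintype ι] (R : ι → Gr n → Prop)
    (hR : ∀ i, Rectangle part (R i))
    (hcov : ∀ F : Fin k → Fin t → Fin B, (bad F).card < m → ∃ i, R i (yF h part F))
    (hrej : ∀ i x, R i x → ¬ HasCover x (t + k * r)) (L : ℝ) (hL : 1 < L) :
    L ^ (r + 1) ≤ 2 * (Fintype.card ι : ℝ) * k * ((1 + L) ^ 2 / (4 * L)) ^ t := by
  classical
  by_contra hlt
  push Not at hlt
  set N := Fintype.card (Fin k → Fin t → Fin B) with hN
  haveI : NeZero B := ⟨by omega⟩
  have hNpos : 0 < N := Fintype.card_pos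
  set P : ι → Finset (Fin k → Fin t → Fin B) := fun i => univ.filter fun F => R i (yF h part F)
    with hP
  have h1 : N ≤ 2 * ∑ i, (P i).card := by
    refine (card_good m hB hm hmB).trans (Nat.mul_le_mul_left _ ?_)
    refine (card_le_card ?_).trans card_biUnion_le
    intro F hF
    rw [mem_filter] at hF
    obtain ⟨i, hi⟩ := hcov F hF.2
    rw [mem_biUnion]
    exact ⟨i, mem_univ _, by simp [hP, hi]⟩
  have hne : (univ : Finset ι).Nonempty := by
    rw [nonempty_iff_ne_empty]
    intro he
    rw [he, sum_empty] at h1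
    omega
  obtain ⟨i, _, hi⟩ := exists_max_image univ (fun i => (P i).card) hne
  have h2 : N ≤ 2 * (Fintype.card ι * (P i).card) := by
    refine h1.trans (Nat.mul_le_mul_left _ ?_)
    refine (sum_le_card_nsmul univ _ _ fun j _ => hi j (mem_univ _)).trans ?_
    rw [smul_eq_mul, card_univ]
  set G : Fin k → Finset (Fin t → Fin B) := fun j => (P i).image fun F => F j with hG
  have hPpos : 0 < (P i).card := by
    by_contra h0
    have : (P i).card = 0 := by omega
    rw [this] at h2
    simp at h2
    omega
  have hGne : ∀ j, (G j).Nonempty := fun j => (card_pos.1 hPpos).image _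
  set b := Fintype.card (Fin t → Fin B) with hb
  have hbB : (b : ℝ) = (B : ℝ) ^ t := by
    rw [hb]
    simp
  have hbpos : 0 < b := Fintype.card_pos
  have h3 : ∀ j, b ≤ 2 * Fintype.card ι * (G j).card := by
    intro j
    have h4 := card_proj (P i) j
    have h5 : N * b ≤ N * (2 * Fintype.card ι * (G j).card) := by
      calc N * b ≤ 2 * (Fintype.card ι * (P i).card) * b := Nat.mul_le_mul_right _ h2
        _ = 2 * Fintype.card ι * ((P i).card * b) := by ring
        _ ≤ 2 * Fintype.card ι * ((G j).card * N) := Nat.mul_le_mul_left _ h4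
        _ = _ := by ring
    exact Nat.le_of_mul_le_mul_left h5 hNpos
  choose D hD1 hD2 using fun j => blow B L hL.le t (G j) (hGne j)
  set ψ : ℝ := (1 + L) ^ 2 / (4 * L) with hψ
  have hψ0 : 0 < ψ := by
    rw [hψ]
    positivity
  have hbR : (0 : ℝ) < b := by exact_mod_cast hbpos
  have h4 : ∀ j, ∑ g, L ^ D j g ≤ 2 * Fintype.card ι * b * ψ ^ t := by
    intro j
    have h5 : (b : ℝ) ≤ 2 * Fintype.card ι * (G j).card := by exact_mod_cast h3 j
    have h6 : (b : ℝ) * ∑ g, L ^ D j g ≤ b * (2 * Fintype.card ι * b * ψ ^ t) := by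
      calc (b : ℝ) * ∑ g, L ^ D j g ≤ 2 * Fintype.card ι * (G j).card * ∑ g, L ^ D j g :=
            mul_le_mul_of_nonneg_right h5 (sum_nonneg fun g _ => by positivity)
        _ = 2 * Fintype.card ι * ((G j).card * ∑ g, L ^ D j g) := by ring
        _ ≤ 2 * Fintype.card ι * ((B : ℝ) ^ 2 * ψ) ^ t :=
            mul_le_mul_of_nonneg_left (hD2 j) (by positivity)
        _ = _ := by
            rw [hbB, mul_pow, ← pow_mul, mul_comm 2 t, pow_mul]
            ring
    exact le_of_mul_le_mul_left h6 hbR
  have h5 : ∑ g : Fin t → Fin B, ∑ j, L ^ D j g ≤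
      ∑ _g : Fin t → Fin B, 2 * (Fintype.card ι : ℝ) * k * ψ ^ t := by
    rw [sum_comm]
    refine (sum_le_sum fun j _ => h4 j).trans (le_of_eq ?_)
    rw [sum_const, sum_const, card_univ, card_univ, Fintype.card_fin, nsmul_eq_mul, nsmul_eq_mul,
      ← hb]
    ring
  obtain ⟨g, _, hg⟩ := exists_le_of_sum_le (univ_nonempty) h5
  have h6 : ∀ j, D j g ≤ r := by
    intro j
    have h7 : L ^ D j g ≤ ∑ j, L ^ D j g :=
      single_le_sum (f := fun j => L ^ D j g) (fun j _ => by positivity) (mem_univ j)
    have h8 : L ^ D j g < L ^ (r + 1) := lt_of_le_of_lt (h7.trans hg) hlt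
    have := (pow_lt_pow_iff_right₀ hL).1 h8
    omega
  choose f hf hfd using fun j => hD1 j g
  have h7 : ∀ j, ∃ F ∈ P i, F j = f j := fun j => mem_image.1 (hf j)
  choose F hF hFf using h7
  have h8 := hR i (fun j => yF h part (F j)) fun j => (mem_filter.1 (hF j)).2
  have h9 : (fun e => yF h part (F (part e)) e) = yF h part f := by
    funext e
    simp only [yF]
    rw [hFf]
  rw [h9] at h8
  refine hrej i _ h8 ⟨TS h g ∪ univ.biUnion fun j =>
    (univ.filter fun i => g i ≠ f j i).image fun i => vtx h i (f j i), ?_, ?_⟩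
  · intro e he
    simp only [yF, star, decide_eq_true_eq] at he
    have key : ∀ v ∈ TS h (f (part e)), v ∈ TS h g ∪ univ.biUnion fun j =>
        (univ.filter fun i => g i ≠ f j i).image fun i => vtx h i (f j i) := by
      intro v hv
      rw [TS, mem_image] at hv
      obtain ⟨a, _, rfl⟩ := hv
      rw [mem_union]
      by_cases ha : g a = f (part e) a
      · left
        rw [← ha]
        exact mem_image_of_mem _ (mem_univ _)
      · right
        rw [mem_biUnion]
        exact ⟨part e, mem_univ _, mem_image_of_mem _ (by simp [ha])⟩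
    exact he.imp (key _) (key _)
  · have h10 : (TS h g ∪ univ.biUnion fun j =>
        (univ.filter fun i => g i ≠ f j i).image fun i => vtx h i (f j i)).card ≤ t + k * r := by
      refine (card_union_le _ _).trans (Nat.add_le_add ?_ ?_)
      · refine card_image_le.trans ?_
        simp
      · refine card_biUnion_le.trans ?_
        calc ∑ j, ((univ.filter fun i => g i ≠ f j i).image fun i => vtx h i (f j i)).card
            ≤ ∑ _j : Fin k, r := sum_le_sum fun j _ =>
              card_image_le.trans ((hfd j).trans (h6 j))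
          _ = k * r := by simp
    exact_mod_cast h10

end Pool.Agent.K9h63.DV
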