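import Pool.Agent.K9h63.DV.Co

/-!
# Families of rectangles which accept the graphs without small vertex covers: asymptotics
-/

set_option autoImplicit false

namespace Pool.Agent.K9h63.DV

open Finset

theorem psi_le (z : ℝ) : (1 + Real.exp (2 * z)) ^ 2 / (4 * Real.exp (2 * z)) ≤ Real.exp (z ^ 2) := by
  have h1 := Real.cosh_le_exp_half_sq z
  have h2 : (1 + Real.exp (2 * z)) ^ 2 / (4 * Real.exp (2 * z)) = Real.cosh z ^ 2 := by
    rw [Real.cosh_eq, show (2 : ℝ) * z = z + z by ring, Real.exp_add, Real.exp_neg]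
    have := Real.exp_pos z
    field_simp
    ring
  rw [h2]
  calc Real.cosh z ^ 2 ≤ Real.exp (z ^ 2 / 2) ^ 2 :=
        pow_le_pow_left₀ (Real.cosh_pos z).le h1 2
    _ = Real.exp (z ^ 2) := by
        rw [← Real.exp_nat_mul]
        congr 1
        push_cast
        ring

/-- `k` parties: ratio less than `k`, complements -/
theorem parties_co (k : ℕ) (hk : 2 ≤ k) (c η : ℝ) (hc : 1 ≤ c) (hck : c < k) (hη : 0 < η) :
    ∃ δ₀ : ℝ, 0 < δ₀ ∧ ∀ δ : ℝ, 0 < δ → δ ≤ δ₀ → ∃ κ : ℝ, 0 < κ ∧ ∃ n₀ : ℕ, ∀ n : ℕ, n₀ ≤ n →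
      ∀ part : Slot n → Fin k, (∀ v j, η * n ≤ deg part j v) →
      ∀ (ι : Type) [Fintype ι] (R : ι → Gr n → Prop), (∀ i, Rectangle part (R i)) →
        Tells (fun x => ¬ ∃ i, R i x) (δ * n) (c * (δ * n)) →
        Real.exp (κ * n) ≤ Fintype.card ι := by
  have hkR : (2 : ℝ) ≤ k := by exact_mod_cast hk
  have hk0 : (0 : ℝ) < k := by linarith
  set γ : ℝ := k - c with hγ
  have hγ0 : 0 < γ := by rw [hγ]; linarith
  have hγk : γ ≤ k := by rw [hγ]; linarith
  set z : ℝ := γ / (4 * k ^ 2) with hz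
  have hz0 : 0 < z := by positivity
  have hkz : k * z = γ / (4 * k) := by
    rw [hz]
    field_simp
  have hkz1 : k * z ≤ 1 / 4 := by
    rw [hkz, div_le_div_iff₀ (by positivity) (by norm_num)]
    linarith
  set B : ℕ := ⌈8 * (k : ℝ) ^ 2 / γ⌉₊ with hB
  have hB1 : 8 * (k : ℝ) ^ 2 / γ ≤ B := Nat.le_ceil _
  have hBγ : 8 * (k : ℝ) ^ 2 ≤ B * γ := by rwa [div_le_iff₀ hγ0] at hB1
  have hBpos : 1 ≤ B := by
    rw [hB, Nat.one_le_ceil_iff]
    positivity
  have hB0 : (0 : ℝ) < B := by exact_mod_cast hBpos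
  refine ⟨min (1 / B) (η / (2 * k)), lt_min (by positivity) (by positivity), ?_⟩
  intro δ hδ hδ1
  have hδB : δ * B ≤ 1 := by
    have h1 : δ ≤ 1 / B := hδ1.trans (min_le_left _ _)
    rwa [le_div_iff₀ hB0] at h1
  have hδη : δ * (2 * k) ≤ η := by
    have h1 : δ ≤ η / (2 * k) := hδ1.trans (min_le_right _ _)
    rwa [le_div_iff₀ (by linarith)] at h1
  refine ⟨z ^ 2 * δ / 4, by positivity, ⌈4 / δ⌉₊ + ⌈2 * k / (γ * δ)⌉₊ + ⌈2 * k / η⌉₊ +
    ⌈8 * k / (z ^ 2 * δ)⌉₊ + 1, ?_⟩
  intro n hn part hdeg ι _ R hR hT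
  have hn1 : 1 ≤ n := by omega
  have hnR : (1 : ℝ) ≤ n := by exact_mod_cast hn1
  have hgt : ∀ x : ℝ, ⌈x⌉₊ < n → x < n := fun x hx =>
    lt_of_le_of_lt (Nat.le_ceil x) (by exact_mod_cast hx)
  have e1 : 4 / δ < n := hgt _ (by omega)
  have e2 : 2 * k / (γ * δ) < n := hgt _ (by omega)
  have e3 : 2 * k / η < n := hgt _ (by omega)
  have e4 : 8 * k / (z ^ 2 * δ) < n := hgt _ (by omega)
  rw [div_lt_iff₀ hδ] at e1
  rw [div_lt_iff₀ (by positivity)] at e2
  rw [div_lt_iff₀ hη] at e3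
  rw [div_lt_iff₀ (by positivity)] at e4
  set t := ⌊δ * n / (1 + k * z)⌋₊ with ht
  set r := ⌊z * t⌋₊ with hr
  set m := ⌊γ * t / 4⌋₊ + 1 with hm
  have h1kz : 0 < 1 + k * z := by positivity
  have ht1 : (t : ℝ) * (1 + k * z) ≤ δ * n := by
    have : (t : ℝ) ≤ δ * n / (1 + k * z) := Nat.floor_le (by positivity)
    rwa [le_div_iff₀ h1kz] at this
  have ht2 : δ * n < (t + 1) * (1 + k * z) := by
    have := Nat.lt_floor_add_one (δ * n / (1 + k * z))
    rw [← ht, div_lt_iff₀ h1kz] at this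
    exact this
  have ht3 : δ * n / 2 ≤ t := by nlinarith
  have htδ : (t : ℝ) ≤ δ * n := by
    have : 0 ≤ (t : ℝ) * (k * z) := by positivity
    linarith
  have htB : t * B ≤ n := by
    have : (t : ℝ) * B ≤ n := by
      calc (t : ℝ) * B ≤ δ * n * B := mul_le_mul_of_nonneg_right htδ hB0.le
        _ = δ * B * n := by ring
        _ ≤ 1 * n := mul_le_mul_of_nonneg_right hδB (by positivity)
        _ = n := one_mul _
    exact_mod_cast this
  have hr1 : (r : ℝ) ≤ z * t := Nat.floor_le (by positivity)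
  have hr2 : z * t < r + 1 := Nat.lt_floor_add_one _
  have hm1 : ((m : ℝ) - 1) ≤ γ * t / 4 := by
    have := Nat.floor_le (show 0 ≤ γ * t / 4 by positivity)
    rw [hm]
    push_cast
    linarith
  have hm2 : γ * t / 4 ≤ m := by
    have := Nat.lt_floor_add_one (γ * t / 4)
    rw [hm]
    push_cast
    linarith
  have hmB : 2 * (t * (k * k)) ≤ m * B := by
    have : 2 * ((t : ℝ) * (k * k)) ≤ m * B := by
      calc 2 * ((t : ℝ) * (k * k)) = 8 * (k : ℝ) ^ 2 * (t / 4) := by ring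
        _ ≤ B * γ * (t / 4) := mul_le_mul_of_nonneg_right hBγ (by positivity)
        _ = γ * t / 4 * B := by ring
        _ ≤ _ := mul_le_mul_of_nonneg_right hm2 hB0.le
    exact_mod_cast this
  set L : ℝ := Real.exp (2 * z) with hL
  have hL1 : 1 < L := by
    rw [hL]
    exact Real.one_lt_exp_iff.2 (by positivity)
  have hmain := co_main htB hBpos (by omega) part m r (by omega) hmB R hR ?_ ?_ L hL1
  · -- conclusion
    set N : ℝ := (Fintype.card ι : ℝ) with hN
    have h1 : Real.exp (2 * z ^ 2 * t) ≤ 2 * N * k * Real.exp (z ^ 2 * t) := by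
      calc Real.exp (2 * z ^ 2 * t) ≤ L ^ (r + 1) := by
            rw [hL, ← Real.exp_nat_mul]
            apply Real.exp_le_exp.2
            push_cast
            nlinarith
        _ ≤ 2 * N * k * ((1 + L) ^ 2 / (4 * L)) ^ t := hmain
        _ ≤ 2 * N * k * Real.exp (z ^ 2) ^ t := by
            apply mul_le_mul_of_nonneg_left _ (by positivity)
            exact pow_le_pow_left₀ (by positivity) (psi_le z) t
        _ = _ := by
            rw [← Real.exp_nat_mul]
            congr 2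
            ring
    have h2 : Real.exp (z ^ 2 * t) ≤ 2 * N * k := by
      have h3 : Real.exp (z ^ 2 * t) * Real.exp (z ^ 2 * t) ≤ 2 * N * k * Real.exp (z ^ 2 * t) := by
        rw [← Real.exp_add]
        calc Real.exp (z ^ 2 * t + z ^ 2 * t) = Real.exp (2 * z ^ 2 * t) := by ring_nf
          _ ≤ _ := h1
      exact le_of_mul_le_mul_right h3 (Real.exp_pos _)
    have h3 : 2 * (k : ℝ) ≤ Real.exp (z ^ 2 * δ / 4 * n) := by
      have h4 := Real.add_one_le_exp (z ^ 2 * δ / 4 * n)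
      nlinarith
    have h4 : Real.exp (z ^ 2 * δ / 4 * n) * Real.exp (z ^ 2 * δ / 4 * n) ≤
        N * Real.exp (z ^ 2 * δ / 4 * n) := by
      calc Real.exp (z ^ 2 * δ / 4 * n) * Real.exp (z ^ 2 * δ / 4 * n)
          = Real.exp (z ^ 2 * (δ * n / 2)) := by
            rw [← Real.exp_add]
            congr 1
            ring
        _ ≤ Real.exp (z ^ 2 * t) := by
            apply Real.exp_le_exp.2
            exact mul_le_mul_of_nonneg_left ht3 (by positivity)
        _ ≤ 2 * N * k := h2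
        _ = N * (2 * k) := by ring
        _ ≤ _ := mul_le_mul_of_nonneg_left h3 (by positivity)
    exact le_of_mul_le_mul_right h4 (Real.exp_pos _)
  · intro F hF
    by_contra hne
    obtain ⟨C, hC1, hC2⟩ := hT.2 _ hne
    have h1 : C.card ≤ k * ⌈δ * n⌉₊ := by
      have h2 : (C.card : ℝ) ≤ k * ⌈δ * n⌉₊ := by
        refine hC2.trans ?_
        exact mul_le_mul hck.le (Nat.le_ceil _) (by positivity) hk0.le
      exact_mod_cast h2
    have h2 := thr_cover (fun v j => by
      have h3 := hdeg v j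
      have h4 : (⌈δ * n⌉₊ : ℝ) < δ * n + 1 := Nat.ceil_lt_add_one (by positivity)
      have h5 : ((k * ⌈δ * n⌉₊ : ℕ) : ℝ) < deg part j v := by
        push_cast
        refine lt_of_lt_of_le ?_ h3
        have h6 : (k : ℝ) * ⌈δ * n⌉₊ < k * (δ * n + 1) := mul_lt_mul_of_pos_left h4 hk0
        have h7 : δ * (2 * k) * n ≤ η * n := mul_le_mul_of_nonneg_right hδη (by positivity)
        nlinarith
      exact_mod_cast h5) (fun j => TS htB (F j)) C h1 hC1
    have h3 := card_le_card h2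
    have h4 := card_union_add htB F
    have h5 : k * t + 1 ≤ C.card + m := by omega
    have h6 : (k : ℝ) * t + 1 ≤ C.card + m := by exact_mod_cast h5
    have h7 : (k - γ / 4) * t ≤ c * (δ * n) := by linarith
    have h8 : (c + γ / 2) * (δ * n) < (c + γ / 2) * ((t + 1) * (1 + k * z)) :=
      mul_lt_mul_of_pos_left ht2 (by positivity)
    have h9 : (c + γ / 2) * (1 + k * z) ≤ k - γ / 4 := by
      have h10 : (c + γ / 2) * (k * z) ≤ γ / 4 := by
        rw [hkz]
        have h11 : c + γ / 2 ≤ k := by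
          rw [hγ]
          linarith
        calc (c + γ / 2) * (γ / (4 * k)) ≤ k * (γ / (4 * k)) :=
              mul_le_mul_of_nonneg_right h11 (by positivity)
          _ = γ / 4 := by
              field_simp
      have h12 : c + γ / 2 + γ / 4 = k - γ / 4 := by
        rw [hγ]
        ring
      linarith
    have h10 : (c + γ / 2) * ((t + 1) * (1 + k * z)) ≤ (k - γ / 4) * (t + 1) := by
      calc (c + γ / 2) * ((t + 1) * (1 + k * z)) = (c + γ / 2) * (1 + k * z) * (t + 1) := by ring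
        _ ≤ _ := mul_le_mul_of_nonneg_right h9 (by positivity)
    nlinarith
  · intro i x hx hcov
    refine (hT.1 x ?_) ⟨i, hx⟩
    obtain ⟨C, hC1, hC2⟩ := hcov
    refine ⟨C, hC1, hC2.trans ?_⟩
    have : (k : ℝ) * r ≤ k * (z * t) := mul_le_mul_of_nonneg_left hr1 hk0.le
    nlinarith

/-- `k` parties, both kinds of nondeterminism -/
theorem parties_both (k : ℕ) (hk : 2 ≤ k) (c η : ℝ) (hc : 1 ≤ c) (hck : c < k) (hη : 0 < η) :
    ∃ δ₀ : ℝ, 0 < δ₀ ∧ ∀ δ : ℝ, 0 < δ → δ ≤ δ₀ → ∃ κ : ℝ, 0 < κ ∧ ∃ n₀ : ℕ, ∀ n : ℕ, n₀ ≤ n →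
      ∀ part : Slot n → Fin k, (∀ v j, η * n ≤ deg part j v) →
      ∀ (ι : Type) [Fintype ι] (R : ι → Gr n → Prop), (∀ i, Rectangle part (R i)) →
        (Tells (fun x => ∃ i, R i x) (δ * n) (c * (δ * n)) ∨
          Tells (fun x => ¬ ∃ i, R i x) (δ * n) (c * (δ * n))) →
        Real.exp (κ * n) ≤ Fintype.card ι := by
  obtain ⟨δ₁, h1, H1⟩ := parties_lower k hk c η hc hck hη
  obtain ⟨δ₂, h2, H2⟩ := parties_co k hk c η hc hck hη
  refine ⟨min δ₁ δ₂, lt_min h1 h2, fun δ hδ hδ' => ?_⟩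
  obtain ⟨n₁, K1⟩ := H1 δ hδ (hδ'.trans (min_le_left _ _))
  obtain ⟨κ, hκ, n₂, K2⟩ := H2 δ hδ (hδ'.trans (min_le_right _ _))
  refine ⟨min κ (δ / 4), lt_min hκ (by positivity), max n₁ n₂, ?_⟩
  intro n hn part hdeg ι _ R hR hT
  rcases hT with hT | hT
  · refine le_trans ?_ (K1 n (le_of_max_le_left hn) part hdeg ι R hR hT)
    rw [Real.rpow_def_of_pos (by norm_num)]
    apply Real.exp_le_exp.2
    have h3 := Real.log_two_gt_d9
    have h4 : min κ (δ / 4) ≤ δ / 4 := min_le_right _ _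
    calc min κ (δ / 4) * n ≤ δ / 4 * n := mul_le_mul_of_nonneg_right h4 (by positivity)
      _ = 1 / 2 * (δ / 2 * n) := by ring
      _ ≤ Real.log 2 * (δ / 2 * n) := mul_le_mul_of_nonneg_right (by linarith) (by positivity)
  · refine le_trans ?_ (K2 n (le_of_max_le_right hn) part hdeg ι R hR hT)
    apply Real.exp_le_exp.2
    exact mul_le_mul_of_nonneg_right (min_le_left _ _) (by positivity)

/-- `k` parties: ratio `k`, both kinds -/
theorem parties_upper2 (n k : ℕ) (part : Slot n → Fin k) (s : ℝ) :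
    ∃ R : Fin k → Gr n → Prop, (∀ j, Rectangle part (R j)) ∧ (∀ j, Rectangle part fun x => ¬ R j x) ∧
      (Rectangle part fun x => ∀ j, R j x) ∧ Tells (fun x => ∀ j, R j x) s (k * s) := by
  have hloc : ∀ (X : Fin k → Gr n) (j : Fin k),
      (fun e => X (part e) e && decide (part e = j)) = fun e => X j e && decide (part e = j) := by
    intro X j
    funext e
    by_cases h : part e = j
    · rw [h]
    · simp [h]
  refine ⟨fun j x => HasCover (fun e => x e && decide (part e = j)) s, ?_, ?_, ?_, ?_, ?_⟩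
  · intro j X hX
    rw [hloc]
    exact hX j
  · intro j X hX
    simp only
    rw [hloc]
    exact hX j
  · intro X hX j
    rw [hloc]
    exact hX j j
  · rintro x ⟨C, h1, h2⟩ j
    refine ⟨C, fun e he => h1 e ?_, h2⟩
    simp only [Bool.and_eq_true] at he
    exact he.1
  · intro x hx
    choose C h1 h2 using hx
    refine ⟨univ.biUnion C, fun e he => ?_, ?_⟩
    · have := h1 (part e) e (by simp [he])
      rcases this with h | h
      · exact Or.inl (mem_biUnion.2 ⟨_, mem_univ _, h⟩)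
      · exact Or.inr (mem_biUnion.2 ⟨_, mem_univ _, h⟩)
    · have h3 : ((univ.biUnion C).card : ℝ) ≤ ∑ j, ((C j).card : ℝ) := by
        exact_mod_cast card_biUnion_le
      refine h3.trans ((sum_le_sum fun j _ => h2 j).trans ?_)
      simp

end Pool.Agent.K9h63.DV
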