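import Pool.Agent.K9h63.DV.Stm2
import Pool.Agent.K9h63.DV.CoFin

/-!
# Decomposable circuits which accept the graphs without small vertex covers
-/

set_option autoImplicit false

namespace Pool.Agent.K9h63.DV

open Finset

section push

variable {P A X : Type} [Fintype P] [Fintype A] [Fintype X] [DecidableEq P] [DecidableEq A]

theorem push_le (s : P → A) (hs : Function.Injective s) (Q : (P → X) → Prop) [DecidablePred Q] :
    (univ.filter fun θ : A → X => Q (θ ∘ s)).card * Fintype.card (P → X) ≤
      (univ.filter Q).card * Fintype.card (A → X) := by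
  classical
  rw [← card_univ (α := P → X), ← card_univ (α := A → X), ← card_product, ← card_product]
  refine card_le_card_of_injOn (fun p => (p.1 ∘ s, Function.extend s p.2 p.1)) ?_ ?_
  · intro p hp
    simp only [coe_product, coe_filter, mem_univ, true_and, Set.mem_prod, mem_coe,
      Set.mem_setOf_eq] at hp ⊢
    exact ⟨hp.1, trivial⟩
  · intro p _ p' _ h
    simp only [Prod.mk.injEq] at h
    have h1 : p.2 = p'.2 := by
      funext x
      have := congrFun h.2 (s x)
      rwa [hs.extend_apply, hs.extend_apply] at this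
    refine Prod.ext ?_ h1
    funext x
    by_cases hx : ∃ y, s y = x
    · obtain ⟨y, rfl⟩ := hx
      exact congrFun h.1 y
    · have := congrFun h.2 x
      rwa [Function.extend_apply' _ _ _ hx, Function.extend_apply' _ _ _ hx] at this

theorem push_ge (s : P → A) (hs : Function.Injective s) (Q : (P → X) → Prop) [DecidablePred Q] :
    (univ.filter Q).card * Fintype.card (A → X) ≤
      (univ.filter fun θ : A → X => Q (θ ∘ s)).card * Fintype.card (P → X) := by
  classical
  rw [← card_univ (α := P → X), ← card_univ (α := A → X), ← card_product, ← card_product]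
  refine card_le_card_of_injOn (fun p => (Function.extend s p.1 p.2, p.2 ∘ s)) ?_ ?_
  · intro p hp
    simp only [coe_product, coe_filter, mem_univ, true_and, Set.mem_prod, mem_coe,
      Set.mem_setOf_eq] at hp ⊢
    refine ⟨?_, trivial⟩
    have : Function.extend s p.1 p.2 ∘ s = p.1 := by
      funext x
      exact hs.extend_apply _ _ _
    rw [this]
    exact hp.1
  · intro p _ p' _ h
    simp only [Prod.mk.injEq] at h
    have h1 : p.1 = p'.1 := by
      funext x
      have := congrFun h.1 (s x)
      rwa [hs.extend_apply, hs.extend_apply] at this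
    refine Prod.ext h1 ?_
    funext x
    by_cases hx : ∃ y, s y = x
    · obtain ⟨y, rfl⟩ := hx
      exact congrFun h.2 y
    · have := congrFun h.1 x
      rwa [Function.extend_apply' _ _ _ hx, Function.extend_apply' _ _ _ hx] at this

end push

/-- few labelings have the label zero at a place -/
theorem card_zero {A : Type} [Fintype A] [DecidableEq A] (q : ℕ) (p : A) :
    q * (univ.filter fun θ : A → Fin q => (θ p).1 = 0).card ≤ Fintype.card (A → Fin q) := by
  classical
  have h1 : ((univ : Finset (Fin q)) ×ˢ (univ.filter fun θ : A → Fin q => (θ p).1 = 0)).card ≤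
      (univ : Finset (A → Fin q)).card := by
    refine card_le_card_of_injOn (fun c => Function.update c.2 p c.1) (fun _ _ => by simp) ?_
    intro c hc c' hc' h
    simp only [coe_product, coe_filter, mem_univ, true_and, Set.mem_prod, mem_coe,
      Set.mem_setOf_eq] at hc hc'
    have hc2 : (c.2 p).1 = 0 := hc
    have hc2' : (c'.2 p).1 = 0 := hc'
    dsimp only at h
    refine Prod.ext ?_ ?_
    · have := congrFun h p
      simpa using this
    · funext a
      by_cases ha : a = p
      · rw [ha]
        apply Fin.ext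
        rw [hc2, hc2']
      · have := congrFun h a
        simpa [Function.update_of_ne ha] using this
  rwa [card_product, card_univ, Fintype.card_fin, card_univ] at h1

/-- an injection which respects the orientation -/
theorem exists_emb {n D : ℕ} (hD : 1 ≤ D) (P : Finset (Slot n)) (o : Slot n → Fin n)
    (ho : ∀ u, (P.filter fun e => o e = u).card ≤ D) :
    ∃ s : {e // e ∈ P} → Fin n × Fin D, Function.Injective s ∧ ∀ e, (s e).1 = o e.1 := by
  classical
  have h1 : ∀ u : Fin n, ∃ f : Slot n → Fin D, ∀ e ∈ P, ∀ e' ∈ P, o e = u → o e' = u →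
      f e = f e' → e = e' := by
    intro u
    have h2 : Nonempty ({e // e ∈ P.filter fun e => o e = u} ↪ Fin D) := by
      apply Function.Embedding.nonempty_of_card_le
      rw [Fintype.card_coe, Fintype.card_fin]
      exact ho u
    obtain ⟨φ⟩ := h2
    refine ⟨fun e => if h : e ∈ P.filter fun e => o e = u then φ ⟨e, h⟩ else ⟨0, by omega⟩, ?_⟩
    intro e he e' he' h3 h4 h5
    have h6 : e ∈ P.filter fun e => o e = u := mem_filter.2 ⟨he, h3⟩
    have h7 : e' ∈ P.filter fun e => o e = u := mem_filter.2 ⟨he', h4⟩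
    dsimp only at h5
    rw [dif_pos h6, dif_pos h7] at h5
    simpa using φ.injective h5
  choose f hf using h1
  refine ⟨fun e => (o e.1, f (o e.1) e.1), ?_, fun e => rfl⟩
  intro e e' h
  simp only [Prod.mk.injEq] at h
  apply Subtype.ext
  refine hf (o e.1) e.1 e.2 e'.1 e'.2 rfl h.1.symm ?_
  rw [h.2, h.1]

/-- the graph of a labeling -/
def grOf {n q : ℕ} (w : Slot n → Fin q) : Gr n := fun e => decide ((w e).1 = 0)

/-- the main inequality for one decomposition into rectangles -/
theorem cocirc_rect (hori : S_ORI) {n K b D q r : ℕ} (hn : 1 ≤ n) (hK : 1 ≤ K) (hq : 1 ≤ q)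
    (hD : 4 * b ≤ D * D) (hD1 : 1 ≤ D) {ι : Type} [Fintype ι]
    (R : ι → Gr n → Prop) (part : ι → Slot n → Option (Fin K)) (hR : ∀ i, Rect (part i) (R i))
    (hcard : ∀ i j, (univ.filter fun e => part i e = some j).card ≤ 2 * b)
    (hcov : Fintype.card (Slot n → Fin q) ≤
      2 * {w : Slot n → Fin q | ∃ i, R i (grOf w)}.ncard)
    (hrej : ∀ i x, R i x → ∀ U : Finset (Fin n), q * U.card ≤ 2 * (n * D) + q * (K * r) →
      ¬ IsCover x U) (L : ℝ) (hL : 1 < L) :
    L ^ (r + 1) ≤ 4 * (Fintype.card ι : ℝ) * K * ((1 + L) ^ 2 / (4 * L)) ^ n := by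
  classical
  by_contra hlt
  push Not at hlt
  haveI : NeZero q := ⟨by omega⟩
  set N := Fintype.card (Slot n → Fin q) with hN
  have hNpos : 0 < N := Fintype.card_pos
  set W : ι → Finset (Slot n → Fin q) := fun i => univ.filter fun w => R i (grOf w) with hW
  have h1 : N ≤ 2 * ∑ i, (W i).card := by
    refine hcov.trans (Nat.mul_le_mul_left _ ?_)
    have h2 : {w : Slot n → Fin q | ∃ i, R i (grOf w)} = ↑(univ.biUnion W) := by
      ext w
      simp [hW]
    rw [h2, Set.ncard_coe_finset]
    exact card_biUnion_le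
  have hne : (univ : Finset ι).Nonempty := by
    rw [nonempty_iff_ne_empty]
    intro he
    rw [he, sum_empty] at h1
    omega
  obtain ⟨i, _, hi⟩ := exists_max_image univ (fun i => (W i).card) hne
  have h2 : N ≤ 2 * (Fintype.card ι * (W i).card) := by
    refine h1.trans (Nat.mul_le_mul_left _ ?_)
    refine (sum_le_card_nsmul univ _ _ fun j _ => hi j (mem_univ _)).trans ?_
    rw [smul_eq_mul, card_univ]
  have hWpos : 0 < (W i).card := by
    by_contra h0
    have : (W i).card = 0 := by omega
    rw [this] at h2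
    simp at h2
    omega
  -- orientations and embeddings
  set Pj : Fin K → Finset (Slot n) := fun j => univ.filter fun e => part i e = some j with hPj
  have hor : ∀ j, ∃ o : Slot n → Fin n, (∀ e, o e = e.1.1 ∨ o e = e.1.2) ∧
      ∀ u, ((Pj j).filter fun e => o e = u).card ≤ D := by
    intro j
    apply hori
    have := hcard i j
    simp only [hPj]
    omega
  choose o ho1 ho2 using hor
  choose s hs1 hs2 using fun j => exists_emb hD1 (Pj j) (o j) (ho2 j)
  -- the predicate on part `j`
  set Q : ∀ j, ({e // e ∈ Pj j} → Fin q) → Prop := fun j w =>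
    ∃ w' : Slot n → Fin q, R i (grOf w') ∧ (fun e : {e // e ∈ Pj j} => w' e.1) = w with hQ
  set T := Fintype.card (Fin n × Fin D → Fin q) with hT
  have hTpos : 0 < T := Fintype.card_pos
  set G : Fin K → Finset (Fin n × Fin D → Fin q) := fun j => univ.filter fun θ => Q j (θ ∘ s j)
    with hG
  have h3 : ∀ j, T ≤ 2 * Fintype.card ι * (G j).card := by
    intro j
    have k1 : (W i).card ≤ (univ.filter fun w : Slot n → Fin q => Q j (w ∘ Subtype.val)).card := by
      apply card_le_card
      intro w hw
      simp only [hW, mem_filter, mem_univ, true_and] at hw ⊢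
      exact ⟨w, hw, rfl⟩
    have k2 := push_le (X := Fin q) (Subtype.val : {e // e ∈ Pj j} → Slot n)
      Subtype.val_injective (Q j)
    have k3 := push_ge (X := Fin q) (s j) (hs1 j) (Q j)
    set c := Fintype.card ({e // e ∈ Pj j} → Fin q) with hc
    have hcpos : 0 < c := Fintype.card_pos
    have k4 : (N * c) * T ≤ (N * c) * (2 * Fintype.card ι * (G j).card) := by
      calc (N * c) * T ≤ (2 * (Fintype.card ι * (W i).card) * c) * T :=
            Nat.mul_le_mul_right _ (Nat.mul_le_mul_right _ h2)
        _ = 2 * Fintype.card ι * ((W i).card * c) * T := by ring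
        _ ≤ 2 * Fintype.card ι * ((univ.filter (Q j)).card * N) * T := by
            apply Nat.mul_le_mul_right
            apply Nat.mul_le_mul_left
            exact (Nat.mul_le_mul_right _ k1).trans k2
        _ = 2 * Fintype.card ι * N * ((univ.filter (Q j)).card * T) := by ring
        _ ≤ 2 * Fintype.card ι * N * ((G j).card * c) := Nat.mul_le_mul_left _ k3
        _ = _ := by ring
    exact Nat.le_of_mul_le_mul_left k4 (Nat.mul_pos hNpos hcpos)
  have hGne : ∀ j, (G j).Nonempty := by
    intro j
    rw [← card_pos]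
    by_contra h0
    have h4 : (G j).card = 0 := by omega
    have := h3 j
    rw [h4] at this
    simp at this
    omega
  -- one letter for each vertex
  set B := Fintype.card (Fin D → Fin q) with hB
  let ε : (Fin D → Fin q) ≃ Fin B := Fintype.equivFin _
  let E : (Fin n → Fin B) ≃ (Fin n × Fin D → Fin q) :=
    (Equiv.piCongrRight fun _ => ε.symm).trans (Equiv.curry (Fin n) (Fin D) (Fin q)).symm
  have hE : ∀ (g : Fin n → Fin B) (u : Fin n) (d : Fin D), E g (u, d) = ε.symm (g u) d :=
    fun g u d => rfl
  have hTB : (T : ℝ) = (B : ℝ) ^ n := by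
    have h4 : T = Fintype.card (Fin n → Fin B) := (Fintype.card_congr E).symm
    rw [h4]
    simp
  set F : Fin K → Finset (Fin n → Fin B) := fun j => univ.filter fun g => E g ∈ G j with hF
  have hFG : ∀ j, (G j).card ≤ (F j).card := by
    intro j
    refine card_le_card_of_injOn E.symm ?_ E.symm.injective.injOn
    intro θ hθ
    simp only [hF, coe_filter, mem_univ, true_and, Set.mem_setOf_eq, Equiv.apply_symm_apply]
    exact hθ
  have hFne : ∀ j, (F j).Nonempty := fun j =>
    card_pos.1 (lt_of_lt_of_le (card_pos.2 (hGne j)) (hFG j))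
  choose Df hD3 hD4 using fun j => blow B L hL.le n (F j) (hFne j)
  set ψ : ℝ := (1 + L) ^ 2 / (4 * L) with hψ
  have hψ0 : 0 < ψ := by
    rw [hψ]
    positivity
  have hTR : (0 : ℝ) < T := by exact_mod_cast hTpos
  have h4 : ∀ j, ∑ g, L ^ Df j g ≤ 2 * Fintype.card ι * T * ψ ^ n := by
    intro j
    have h5 : (T : ℝ) ≤ 2 * Fintype.card ι * (F j).card := by
      exact_mod_cast (h3 j).trans (Nat.mul_le_mul_left _ (hFG j))
    have h6 : (T : ℝ) * ∑ g, L ^ Df j g ≤ T * (2 * Fintype.card ι * T * ψ ^ n) := by
      calc (T : ℝ) * ∑ g, L ^ Df j g ≤ 2 * Fintype.card ι * (F j).card * ∑ g, L ^ Df j g :=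
            mul_le_mul_of_nonneg_right h5 (sum_nonneg fun g _ => by positivity)
        _ = 2 * Fintype.card ι * ((F j).card * ∑ g, L ^ Df j g) := by ring
        _ ≤ 2 * Fintype.card ι * ((B : ℝ) ^ 2 * ψ) ^ n :=
            mul_le_mul_of_nonneg_left (hD4 j) (by positivity)
        _ = _ := by
            rw [hTB, mul_pow, ← pow_mul, mul_comm 2 n, pow_mul]
            ring
    exact le_of_mul_le_mul_left h6 hTR
  -- the set of the vertices with a label zero
  set S : (Fin n → Fin B) → Finset (Fin n) := fun g =>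
    univ.filter fun u => ∃ d : Fin D, (E g (u, d)).1 = 0 with hS
  have h5 : q * ∑ g, (S g).card ≤ n * D * T := by
    have k1 : ∀ g, (S g).card ≤ ∑ p : Fin n × Fin D, if (E g p).1 = 0 then 1 else 0 := by
      intro g
      rw [← card_filter]
      refine (card_le_card ?_).trans (card_image_le (f := fun p : Fin n × Fin D => p.1))
      intro u hu
      simp only [hS, mem_filter, mem_univ, true_and] at hu
      obtain ⟨d, hd⟩ := hu
      rw [mem_image]
      exact ⟨(u, d), mem_filter.2 ⟨mem_univ _, hd⟩, rfl⟩
    calc q * ∑ g, (S g).card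
        ≤ q * ∑ g, ∑ p : Fin n × Fin D, (if (E g p).1 = 0 then 1 else 0) :=
          Nat.mul_le_mul_left _ (sum_le_sum fun g _ => k1 g)
      _ = q * ∑ θ : Fin n × Fin D → Fin q, ∑ p : Fin n × Fin D, (if (θ p).1 = 0 then 1 else 0) := by
          congr 1
          exact E.sum_comp fun θ => ∑ p : Fin n × Fin D, (if (θ p).1 = 0 then 1 else 0)
      _ = ∑ p : Fin n × Fin D, q * (univ.filter fun θ : Fin n × Fin D → Fin q =>
            (θ p).1 = 0).card := by
          rw [sum_comm, mul_sum]
          exact sum_congr rfl fun p _ => by rw [card_filter]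
      _ ≤ ∑ _p : Fin n × Fin D, T := sum_le_sum fun p _ => card_zero q p
      _ = n * D * T := by
          rw [sum_const, card_univ, Fintype.card_prod, Fintype.card_fin, Fintype.card_fin,
            smul_eq_mul]
  set Λ : ℝ := 2 * (Fintype.card ι : ℝ) * K * ψ ^ n with hΛ
  have hιpos : 0 < Fintype.card ι := Fintype.card_pos_iff.2 ⟨i⟩
  have hιR : (0 : ℝ) < Fintype.card ι := by exact_mod_cast hιpos
  have hKR : (0 : ℝ) < K := by exact_mod_cast hK
  have hΛ0 : 0 < Λ := by positivity
  have hnD : (0 : ℝ) < (n : ℝ) * D := by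
    have h6 : (1 : ℝ) ≤ n := by exact_mod_cast hn
    have h7 : (1 : ℝ) ≤ D := by exact_mod_cast hD1
    positivity
  have h6 : ∑ g : Fin n → Fin B, ((n : ℝ) * D * ∑ j, L ^ Df j g + q * Λ * (S g).card) ≤
      ∑ _g : Fin n → Fin B, 2 * ((n : ℝ) * D * Λ) := by
    rw [sum_add_distrib, ← mul_sum, ← mul_sum, sum_comm, sum_const, card_univ, nsmul_eq_mul]
    have k1 : ∑ j, ∑ g, L ^ Df j g ≤ T * Λ := by
      refine (sum_le_sum fun j _ => h4 j).trans (le_of_eq ?_)
      rw [sum_const, card_univ, Fintype.card_fin, nsmul_eq_mul, hΛ]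
      ring
    have k2 : (q : ℝ) * ∑ g, ((S g).card : ℝ) ≤ n * D * T := by exact_mod_cast h5
    have k3 : ((Fintype.card (Fin n → Fin B) : ℕ) : ℝ) = T := by
      rw [hT, ← Fintype.card_congr E]
    rw [k3]
    calc (n : ℝ) * D * ∑ j, ∑ g, L ^ Df j g + q * Λ * ∑ g, ((S g).card : ℝ)
        = n * D * ∑ j, ∑ g, L ^ Df j g + Λ * (q * ∑ g, ((S g).card : ℝ)) := by ring
      _ ≤ n * D * (T * Λ) + Λ * (n * D * T) :=
          add_le_add (mul_le_mul_of_nonneg_left k1 hnD.le) (mul_le_mul_of_nonneg_left k2 hΛ0.le)
      _ = _ := by ring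
  have hBpos : 0 < B := Fintype.card_pos
  haveI : NeZero B := ⟨by omega⟩
  obtain ⟨g, _, hg⟩ := exists_le_of_sum_le (univ_nonempty) h6
  have hsum0 : 0 ≤ ∑ j, L ^ Df j g := sum_nonneg fun j _ => by positivity
  have hq0 : (0 : ℝ) < q := by exact_mod_cast hq
  have h7 : ∑ j, L ^ Df j g ≤ 2 * Λ := by
    have k1 : 0 ≤ (q : ℝ) * Λ * (S g).card := by positivity
    have k2 : (n : ℝ) * D * ∑ j, L ^ Df j g ≤ n * D * (2 * Λ) := by linarith
    exact le_of_mul_le_mul_left k2 hnD
  have h8 : q * (S g).card ≤ 2 * (n * D) := by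
    have k1 : 0 ≤ (n : ℝ) * D * ∑ j, L ^ Df j g := by positivity
    have k2 : Λ * ((q : ℝ) * (S g).card) ≤ Λ * (2 * (n * D)) := by linarith
    have k3 := le_of_mul_le_mul_left k2 hΛ0
    exact_mod_cast k3
  have h9 : ∀ j, Df j g ≤ r := by
    intro j
    have k1 : L ^ Df j g ≤ ∑ j, L ^ Df j g :=
      single_le_sum (f := fun j => L ^ Df j g) (fun j _ => by positivity) (mem_univ j)
    have k2 : 2 * Λ = 4 * (Fintype.card ι : ℝ) * K * ψ ^ n := by
      rw [hΛ]
      ring
    have k3 : L ^ Df j g < L ^ (r + 1) := lt_of_le_of_lt (k1.trans (h7.trans k2.le)) hlt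
    have := (pow_lt_pow_iff_right₀ hL).1 k3
    omega
  choose f hf hfd using fun j => hD3 j g
  have h10 : ∀ j, ∃ w' : Slot n → Fin q, R i (grOf w') ∧
      (fun e : {e // e ∈ Pj j} => w' e.1) = E (f j) ∘ s j := by
    intro j
    have k1 := hf j
    simp only [hF, hG, mem_filter, mem_univ, true_and] at k1
    exact k1
  choose w' hw1 hw2 using h10
  have h11 := hR i (fun j => grOf (w' j)) (fun _ => false) hw1
  refine hrej i _ h11 (S g ∪ univ.biUnion fun j => univ.filter fun u => g u ≠ f j u) ?_ ?_
  · have k1 : (S g ∪ univ.biUnion fun j => univ.filter fun u => g u ≠ f j u).card ≤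
        (S g).card + K * r := by
      refine (card_union_le _ _).trans (Nat.add_le_add_left ?_ _)
      refine card_biUnion_le.trans ?_
      calc ∑ j, (univ.filter fun u => g u ≠ f j u).card ≤ ∑ _j : Fin K, r :=
            sum_le_sum fun j _ => (hfd j).trans (h9 j)
        _ = K * r := by simp
    calc q * (S g ∪ univ.biUnion fun j => univ.filter fun u => g u ≠ f j u).card
        ≤ q * ((S g).card + K * r) := Nat.mul_le_mul_left _ k1
      _ = q * (S g).card + q * (K * r) := by ring
      _ ≤ _ := Nat.add_le_add_right h8 _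
  · intro e he
    dsimp only at he
    have key : ∃ j, e ∈ Pj j ∧ (w' j e).1 = 0 := by
      rcases hpe : part i e with _ | j
      · rw [hpe] at he
        simp at he
      · rw [hpe] at he
        simp only [Option.elim, grOf, decide_eq_true_eq] at he
        exact ⟨j, by simp [hPj, hpe], he⟩
    obtain ⟨j, he1, he2⟩ := key
    have k1 : w' j e = E (f j) (s j ⟨e, he1⟩) := congrFun (hw2 j) ⟨e, he1⟩
    have k2 : (s j ⟨e, he1⟩).1 = o j e := hs2 j ⟨e, he1⟩
    have k3 : o j e ∈ S g ∪ univ.biUnion fun j => univ.filter fun u => g u ≠ f j u := by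
      rw [mem_union]
      by_cases hgu : g (o j e) = f j (o j e)
      · left
        simp only [hS, mem_filter, mem_univ, true_and]
        refine ⟨(s j ⟨e, he1⟩).2, ?_⟩
        rw [hE, hgu, ← hE, ← k2]
        rw [k1] at he2
        exact he2
      · right
        rw [mem_biUnion]
        exact ⟨j, mem_univ _, by simp [hgu]⟩
    rcases ho1 j e with h | h
    · left
      rw [← h]
      exact k3
    · right
      rw [← h]
      exact k3

end Pool.Agent.K9h63.DV
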