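import Pool.Agent.K9h63.DV.CoCirc

/-!
# Decomposable circuits which accept the graphs without small vertex covers: asymptotics
-/

set_option autoImplicit false

namespace Pool.Agent.K9h63.DV

open Finset

theorem cocirc_bound (hori : S_ORI) (hind : S_IND) (n K b D q a r : ℕ) (hn : 1 ≤ n) (hK : 1 ≤ K)
    (hb : 1 ≤ b) (hKb : Fintype.card (Slot n) ≤ K * b) (hD : 4 * b ≤ D * D) (hD1 : 1 ≤ D)
    (hq : 1 ≤ q) (hqa : 2 * (n + 1) * q ≤ a * (a - 1)) (l : List (Gate (Slot n))) (hl : Circ b l)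
    (g : Gate (Slot n)) (hg : g ∈ l)
    (h1 : ∀ x : Gr n, (∀ J : Finset (Fin n), J.card = a →
      ∃ e : Slot n, e.1.1 ∈ J ∧ e.1.2 ∈ J ∧ x e = true) → g.2 x)
    (h2 : ∀ x, g.2 x → ∀ U : Finset (Fin n), q * U.card ≤ 2 * (n * D) + q * (K * r) →
      ¬ IsCover x U) (L : ℝ) (hL : 1 < L) :
    L ^ (r + 1) ≤ 4 * (4 ^ K * l.length : ℝ) ^ (2 * K) * K * ((1 + L) ^ 2 / (4 * L)) ^ n := by
  classical
  obtain ⟨ι, fι, R, part, q1, q2, q3, q4, q5⟩ := dec (Slot n) b l hb hl g hg K hK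
    ((card_le_univ _).trans hKb)
  have hcov : Fintype.card (Slot n → Fin q) ≤
      2 * {w : Slot n → Fin q | ∃ i, R i (grOf w)}.ncard := by
    have k1 := hind n q a hq hqa
    set A : Set (Slot n → Fin q) := {w | ∃ J : Finset (Fin n), J.card = a ∧
      ∀ e : Slot n, e.1.1 ∈ J → e.1.2 ∈ J → (w e).1 ≠ 0} with hA
    have k2 := Set.ncard_add_ncard_compl A
    have k3 : Aᶜ.ncard ≤ {w : Slot n → Fin q | ∃ i, R i (grOf w)}.ncard := by
      apply Set.ncard_le_ncard _ (Set.toFinite _)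
      intro w hw
      simp only [hA, Set.mem_compl_iff, Set.mem_setOf_eq, not_exists, not_and, not_forall] at hw
      refine q5 _ (h1 _ fun J hJ => ?_)
      obtain ⟨e, he1, he2, he3⟩ := hw J hJ
      refine ⟨e, he1, he2, ?_⟩
      simp only [grOf, decide_eq_true_eq]
      exact not_not.1 he3
    have k4 : Nat.card (Slot n → Fin q) = Fintype.card (Slot n → Fin q) :=
      Nat.card_eq_fintype_card
    have k5 : Fintype.card (Slot n → Fin q) = q ^ Fintype.card (Slot n) := by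
      rw [Fintype.card_fun, Fintype.card_fin]
    rw [k4] at k2
    rw [← k5] at k1
    omega
  have hmain := cocirc_rect hori hn hK hq hD hD1 R part q2 q3 hcov (r := r)
    (fun i x hx => h2 x (q4 i x hx)) L hL
  refine hmain.trans ?_
  have hψ : 0 ≤ ((1 + L) ^ 2 / (4 * L)) ^ n := by positivity
  apply mul_le_mul_of_nonneg_right _ hψ
  apply mul_le_mul_of_nonneg_right _ (by positivity)
  apply mul_le_mul_of_nonneg_left _ (by positivity)
  exact_mod_cast q1

/-- no constant ratio for the complements -/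
theorem cocirc_const (hori : S_ORI) (hind : S_IND) (δ ε : ℝ) (hδ : 0 < δ) (hδ1 : δ ≤ 1)
    (hε : 0 < ε) (hε1 : ε ≤ 1) :
    ∃ β : ℝ, 0 < β ∧ ∃ κ : ℝ, 0 < κ ∧ ∃ n₀ : ℕ, ∀ n : ℕ, n₀ ≤ n →
      ∀ l : List (Gate (Slot n)), Circ ⌊β * (n : ℝ) ^ 2⌋₊ l → ∀ g ∈ l,
        Tells (fun x => ¬ g.2 x) (δ * n) ((1 - ε) * n) → Real.exp (κ * n) ≤ l.length := by
  set τ : ℝ := δ * ε ^ 2 / 512 with hτ
  have hτ0 : 0 < τ := by positivity
  set β : ℝ := τ ^ 2 with hβ
  have hβ0 : 0 < β := by positivity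
  set K : ℕ := ⌈1 / β⌉₊ with hK
  have hK1 : 1 / β ≤ K := Nat.le_ceil _
  have hKpos : 1 ≤ K := by
    rw [hK, Nat.one_le_ceil_iff]
    positivity
  have hK0 : (0 : ℝ) < K := by exact_mod_cast hKpos
  have hK1R : (1 : ℝ) ≤ K := by exact_mod_cast hKpos
  rw [div_le_iff₀ hβ0] at hK1
  set z : ℝ := δ / (2 * K) with hz
  have hz0 : 0 < z := by positivity
  have hzK : K * z = δ / 2 := by
    rw [hz]
    field_simp
  refine ⟨β, hβ0, z ^ 2 / (8 * K), by positivity,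
    ⌈2 / ε⌉₊ + ⌈1 / β⌉₊ + ⌈1 / τ⌉₊ + ⌈8 / ε ^ 2⌉₊ + ⌈16 * K ^ 2 / z ^ 2⌉₊ + ⌈8 * K / z ^ 2⌉₊ + 1, ?_⟩
  intro n hn l hl g hg hT
  have hn1 : 1 ≤ n := by omega
  have hnR : (1 : ℝ) ≤ n := by exact_mod_cast hn1
  have hn0 : (0 : ℝ) < n := by linarith
  have hge : ∀ x : ℝ, ⌈x⌉₊ ≤ n → x ≤ n := fun x hx =>
    (Nat.le_ceil x).trans (by exact_mod_cast hx)
  have e1 : 2 / ε ≤ n := hge _ (by omega)
  have e2 : 1 / β ≤ n := hge _ (by omega)
  have e3 : 1 / τ ≤ n := hge _ (by omega)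
  have e4 : 8 / ε ^ 2 ≤ n := hge _ (by omega)
  have e5 : 16 * (K : ℝ) ^ 2 / z ^ 2 ≤ n := hge _ (by omega)
  have e6 : 8 * (K : ℝ) / z ^ 2 ≤ n := hge _ (by omega)
  rw [div_le_iff₀ hε] at e1
  rw [div_le_iff₀ hβ0] at e2
  rw [div_le_iff₀ hτ0] at e3
  rw [div_le_iff₀ (by positivity)] at e4 e5 e6
  -- `b`
  have hbR : 1 ≤ β * (n : ℝ) ^ 2 := by nlinarith
  set b := ⌊β * (n : ℝ) ^ 2⌋₊ with hb
  have hb1 : 1 ≤ b := by
    rw [hb, Nat.one_le_floor_iff]
    exact hbR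
  have hb2 : (b : ℝ) ≤ β * (n : ℝ) ^ 2 := Nat.floor_le (by positivity)
  have hb3 : β * (n : ℝ) ^ 2 / 2 ≤ (b : ℝ) := by
    have h1 := Nat.lt_floor_add_one (β * (n : ℝ) ^ 2)
    have h2 : (1 : ℝ) ≤ (b : ℝ) := by exact_mod_cast hb1
    rw [← hb] at h1
    linarith
  have hKb : Fintype.card (Slot n) ≤ K * b := by
    have h1 := two_mul_card_slot n
    have h3 : (n : ℝ) * n ≤ 2 * (K * b) := by
      have h4 : (n : ℝ) ^ 2 ≤ K * β * n ^ 2 := by
        nlinarith [sq_nonneg (n : ℝ)]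
      nlinarith
    have h4 : n * n ≤ 2 * (K * b) := by exact_mod_cast h3
    omega
  -- `D`
  have hsb : Real.sqrt b ≤ τ * n := by
    rw [show τ * (n : ℝ) = Real.sqrt ((τ * n) ^ 2) from (Real.sqrt_sq (by positivity)).symm]
    apply Real.sqrt_le_sqrt
    rw [mul_pow]
    exact hb2
  have hsb0 : 0 < Real.sqrt b := Real.sqrt_pos.2 (by exact_mod_cast hb1)
  set D := ⌈2 * Real.sqrt b⌉₊ with hD
  have hD1 : 1 ≤ D := by
    rw [hD, Nat.one_le_ceil_iff]
    positivity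
  have hD2 : 2 * Real.sqrt b ≤ D := Nat.le_ceil _
  have hD3 : (D : ℝ) ≤ 3 * τ * n := by
    have h1 : (D : ℝ) < 2 * Real.sqrt b + 1 := Nat.ceil_lt_add_one (by positivity)
    linarith
  have hD4 : 4 * b ≤ D * D := by
    have h1 : (4 : ℝ) * b ≤ D * D := by
      have h2 : Real.sqrt b * Real.sqrt b = b := Real.mul_self_sqrt (by positivity)
      nlinarith
    exact_mod_cast h1
  -- `q` and `a`
  set q := ⌊ε ^ 2 * n / 8⌋₊ with hq
  have hq1 : (q : ℝ) ≤ ε ^ 2 * n / 8 := Nat.floor_le (by positivity)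
  have hq2 : 1 ≤ q := by
    rw [hq, Nat.one_le_floor_iff]
    linarith
  have hq3 : ε ^ 2 * n / 16 ≤ q := by
    have h1 := Nat.lt_floor_add_one (ε ^ 2 * n / 8)
    have h2 : (1 : ℝ) ≤ (q : ℝ) := by exact_mod_cast hq2
    rw [← hq] at h1
    linarith
  have hq0 : (0 : ℝ) < q := by exact_mod_cast hq2
  set a := ⌈ε * n⌉₊ with ha
  have ha1 : ε * n ≤ a := Nat.le_ceil _
  have ha2 : 1 ≤ a := by
    have : (1 : ℝ) ≤ a := by linarith
    exact_mod_cast this
  have hqa : 2 * (n + 1) * q ≤ a * (a - 1) := by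
    have h1 : 2 * ((n : ℝ) + 1) * q ≤ a * ((a - 1 : ℕ) : ℝ) := by
      rw [Nat.cast_sub ha2, Nat.cast_one]
      have h2 : ε ^ 2 * n ^ 2 / 2 ≤ (a : ℝ) * (a - 1) := by nlinarith
      have h3 : 2 * ((n : ℝ) + 1) * q ≤ 4 * n * (ε ^ 2 * n / 8) := by nlinarith
      nlinarith
    exact_mod_cast h1
  set r := ⌊z * n⌋₊ with hr
  have hr1 : (r : ℝ) ≤ z * n := Nat.floor_le (by positivity)
  have hr2 : z * n < r + 1 := Nat.lt_floor_add_one _
  set L : ℝ := Real.exp (2 * z) with hL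
  have hL1 : 1 < L := by
    rw [hL]
    exact Real.one_lt_exp_iff.2 (by positivity)
  have hmain := cocirc_bound hori hind n K b D q a r hn1 hKpos hb1 hKb hD4 hD1 hq2 hqa l hl g hg
    ?_ ?_ L hL1
  · set s : ℝ := (l.length : ℝ) with hs
    have h1 : Real.exp (2 * z ^ 2 * n) ≤ 4 * (4 ^ K * s) ^ (2 * K) * K * Real.exp (z ^ 2 * n) := by
      calc Real.exp (2 * z ^ 2 * n) ≤ L ^ (r + 1) := by
            rw [hL, ← Real.exp_nat_mul]
            apply Real.exp_le_exp.2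
            push_cast
            nlinarith
        _ ≤ 4 * (4 ^ K * s) ^ (2 * K) * K * ((1 + L) ^ 2 / (4 * L)) ^ n := hmain
        _ ≤ 4 * (4 ^ K * s) ^ (2 * K) * K * Real.exp (z ^ 2) ^ n := by
            apply mul_le_mul_of_nonneg_left _ (by positivity)
            exact pow_le_pow_left₀ (by positivity) (psi_le z) n
        _ = _ := by
            rw [← Real.exp_nat_mul]
            congr 2
            ring
    have h2 : Real.exp (z ^ 2 * n) ≤ 4 * (4 ^ K * s) ^ (2 * K) * K := by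
      have h3 : Real.exp (z ^ 2 * n) * Real.exp (z ^ 2 * n) ≤
          4 * (4 ^ K * s) ^ (2 * K) * K * Real.exp (z ^ 2 * n) := by
        rw [← Real.exp_add]
        calc Real.exp (z ^ 2 * n + z ^ 2 * n) = Real.exp (2 * z ^ 2 * n) := by ring_nf
          _ ≤ _ := h1
      exact le_of_mul_le_mul_right h3 (Real.exp_pos _)
    have h3 : 4 * (K : ℝ) ≤ Real.exp (z ^ 2 * n / 2) := by
      have h4 := Real.add_one_le_exp (z ^ 2 * n / 2)
      linarith
    have h4 : Real.exp (z ^ 2 * n / 2) ≤ (4 ^ K * s) ^ (2 * K) := by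
      have h5 : Real.exp (z ^ 2 * n / 2) * (4 * K) ≤ (4 ^ K * s) ^ (2 * K) * (4 * K) := by
        calc Real.exp (z ^ 2 * n / 2) * (4 * K)
            ≤ Real.exp (z ^ 2 * n / 2) * Real.exp (z ^ 2 * n / 2) :=
              mul_le_mul_of_nonneg_left h3 (Real.exp_pos _).le
          _ = Real.exp (z ^ 2 * n) := by
              rw [← Real.exp_add]
              ring_nf
          _ ≤ 4 * (4 ^ K * s) ^ (2 * K) * K := h2
          _ = _ := by ring
      exact le_of_mul_le_mul_right h5 (by positivity)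
    have h5 : Real.exp (z ^ 2 * n / (4 * K)) ≤ 4 ^ K * s := by
      have h6 : Real.exp (z ^ 2 * n / (4 * K)) ^ (2 * K) = Real.exp (z ^ 2 * n / 2) := by
        rw [← Real.exp_nat_mul]
        congr 1
        push_cast
        field_simp
        ring
      rw [← h6] at h4
      exact le_of_pow_le_pow_left₀ (by omega) (by positivity) h4
    have h7 : (4 : ℝ) ^ K ≤ Real.exp (2 * K) := by
      have h8 : (4 : ℝ) ≤ Real.exp 2 := by
        have h9 := Real.add_one_le_exp (1 : ℝ)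
        have h10 : Real.exp 2 = Real.exp 1 * Real.exp 1 := by
          rw [← Real.exp_add]
          norm_num
        rw [h10]
        nlinarith
      calc (4 : ℝ) ^ K ≤ Real.exp 2 ^ K := pow_le_pow_left₀ (by norm_num) h8 K
        _ = Real.exp (2 * K) := by
            rw [← Real.exp_nat_mul]
            congr 1
            ring
    have h8 : 2 * (K : ℝ) ≤ z ^ 2 * n / (8 * K) := by
      rw [le_div_iff₀ (by positivity)]
      nlinarith
    have h9 : Real.exp (z ^ 2 / (8 * K) * n) * Real.exp (2 * K) ≤ s * Real.exp (2 * K) := by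
      rw [← Real.exp_add]
      calc Real.exp (z ^ 2 / (8 * K) * n + 2 * K) ≤ Real.exp (z ^ 2 * n / (4 * K)) := by
            apply Real.exp_le_exp.2
            have h10 : z ^ 2 * n / (4 * K) = z ^ 2 * n / (8 * K) + z ^ 2 * n / (8 * K) := by
              field_simp
              ring
            have h11 : z ^ 2 / (8 * K) * n = z ^ 2 * n / (8 * K) := by ring
            rw [h10, h11]
            linarith
        _ ≤ 4 ^ K * s := h5
        _ ≤ Real.exp (2 * K) * s := mul_le_mul_of_nonneg_right h7 (by positivity)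
        _ = _ := mul_comm _ _
    exact le_of_mul_le_mul_right h9 (Real.exp_pos _)
  · intro x hx
    by_contra hne
    obtain ⟨C, hC1, hC2⟩ := hT.2 x hne
    have h1 : a ≤ Cᶜ.card := by
      rw [ha, Nat.ceil_le, card_compl, Fintype.card_fin, Nat.cast_sub]
      · linarith
      · exact (card_le_univ C).trans (by simp)
    obtain ⟨J, hJ1, hJ2⟩ := exists_subset_card_eq h1
    obtain ⟨e, he1, he2, he3⟩ := hx J hJ2
    rcases hC1 e he3 with h5 | h5
    · exact (mem_compl.1 (hJ1 he1)) h5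
    · exact (mem_compl.1 (hJ1 he2)) h5
  · intro x hx U hU hcov
    refine (hT.1 x ⟨U, hcov, ?_⟩) hx
    have h1 : (q : ℝ) * U.card ≤ 2 * (n * D) + q * (K * r) := by exact_mod_cast hU
    have h2 : (K : ℝ) * r ≤ δ / 2 * n := by
      calc (K : ℝ) * r ≤ K * (z * n) := mul_le_mul_of_nonneg_left hr1 hK0.le
        _ = K * z * n := by ring
        _ = _ := by rw [hzK]
    have h3 : 2 * ((n : ℝ) * D) ≤ q * (δ / 2 * n) := by
      calc 2 * ((n : ℝ) * D) ≤ 2 * (n * (3 * τ * n)) := by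
            apply mul_le_mul_of_nonneg_left _ (by norm_num)
            exact mul_le_mul_of_nonneg_left hD3 hn0.le
        _ ≤ ε ^ 2 * n / 16 * (δ / 2 * n) := by
            rw [hτ]
            have h4 : 0 < δ * ε ^ 2 * (n : ℝ) ^ 2 := by positivity
            nlinarith
        _ ≤ _ := mul_le_mul_of_nonneg_right hq3 (by positivity)
    have h4 : (q : ℝ) * U.card ≤ q * (δ * n) := by
      calc (q : ℝ) * U.card ≤ 2 * (n * D) + q * (K * r) := h1
        _ ≤ q * (δ / 2 * n) + q * (δ / 2 * n) :=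
            add_le_add h3 (mul_le_mul_of_nonneg_left h2 hq0.le)
        _ = _ := by ring
    exact le_of_mul_le_mul_left h4 hq0

/-- no constant ratio, for the circuits and for their complements -/
theorem circ_both (hori : S_ORI) (hind : S_IND) (δ ε : ℝ) (hδ : 0 < δ) (hδ1 : δ ≤ 1)
    (hε : 0 < ε) (hε1 : ε ≤ 1) :
    ∃ β : ℝ, 0 < β ∧ ∃ κ : ℝ, 0 < κ ∧ ∃ n₀ : ℕ, ∀ n : ℕ, n₀ ≤ n →
      ∀ l : List (Gate (Slot n)), Circ ⌊β * (n : ℝ) ^ 2⌋₊ l → ∀ g ∈ l,
        (Tells g.2 (δ * n) ((1 - ε) * n) ∨ Tells (fun x => ¬ g.2 x) (δ * n) ((1 - ε) * n)) →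
          Real.exp (κ * n) ≤ l.length := by
  obtain ⟨β₁, hβ₁, κ₁, hκ₁, n₁, H1⟩ := circ_const δ ε hδ hδ1 hε hε1
  obtain ⟨β₂, hβ₂, κ₂, hκ₂, n₂, H2⟩ := cocirc_const hori hind δ ε hδ hδ1 hε hε1
  refine ⟨min β₁ β₂, lt_min hβ₁ hβ₂, min κ₁ κ₂, lt_min hκ₁ hκ₂, max n₁ n₂, ?_⟩
  intro n hn l hl g hg hT
  have hmono : ∀ β, min β₁ β₂ ≤ β → ⌊min β₁ β₂ * (n : ℝ) ^ 2⌋₊ ≤ ⌊β * (n : ℝ) ^ 2⌋₊ :=
    fun β hβ => Nat.floor_le_floor (mul_le_mul_of_nonneg_right hβ (by positivity))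
  rcases hT with hT | hT
  · refine le_trans (Real.exp_le_exp.2 ?_) (H1 n (le_of_max_le_left hn) l
      (circ_mono (hmono _ (min_le_left _ _)) hl) g hg hT)
    exact mul_le_mul_of_nonneg_right (min_le_left _ _) (by positivity)
  · refine le_trans (Real.exp_le_exp.2 ?_) (H2 n (le_of_max_le_right hn) l
      (circ_mono (hmono _ (min_le_right _ _)) hl) g hg hT)
    exact mul_le_mul_of_nonneg_right (min_le_right _ _) (by positivity)

end Pool.Agent.K9h63.DV
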