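import Pool.Agent.K9h63.DV.Stm

/-!
# Leaf DEC: decomposition of decomposable circuits into rectangles
-/

set_option autoImplicit false

namespace Pool.Agent.K9h63.DV

open Finset

variable {E : Type} [DecidableEq E]

/-- circuits with numbered gates; the newest gate has the number `0` -/
inductive Ckt (E : Type) : ℕ → Type
  | nil : Ckt E 0
  | leaf {s : ℕ} (C : Ckt E s) (D : Finset E) (f : (E → Bool) → Prop) : Ckt E (s + 1)
  | and {s : ℕ} (C : Ckt E s) (i j : Fin s) : Ckt E (s + 1)
  | or {s : ℕ} (C : Ckt E s) (i j : Fin s) : Ckt E (s + 1)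

namespace Ckt

/-- the gates -/
def gate : {s : ℕ} → Ckt E s → Fin s → Gate E
  | _, .nil => fun i => i.elim0
  | _, .leaf C D f => Fin.cons (D, f) C.gate
  | _, .and C i j => Fin.cons ((C.gate i).1 ∪ (C.gate j).1,
      fun x => (C.gate i).2 x ∧ (C.gate j).2 x) C.gate
  | _, .or C i j => Fin.cons ((C.gate i).1 ∪ (C.gate j).1,
      fun x => (C.gate i).2 x ∨ (C.gate j).2 x) C.gate

/-- decomposable, small leaves -/
def Ok (b : ℕ) : {s : ℕ} → Ckt E s → Prop
  | _, .nil => True
  | _, .leaf C D f => C.Ok b ∧ D.card ≤ b ∧ DependsOn f D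
  | _, .and C i j => C.Ok b ∧ Disjoint (C.gate i).1 (C.gate j).1
  | _, .or C _ _ => C.Ok b

/-- `der C u o`: acceptance of gate `o` through gate `u` -/
def der : {s : ℕ} → Ckt E s → Fin s → Fin s → Gate E
  | _, .nil => fun i => i.elim0
  | _, .leaf C _ _ => Fin.cons (Fin.cons (∅, fun _ => True) fun _ => (∅, fun _ => False))
      fun u => Fin.cons (∅, fun _ => False) (C.der u)
  | _, .and C i j => Fin.cons (Fin.cons (∅, fun _ => True) fun _ => (∅, fun _ => False))
      fun u => Fin.cons (if (C.gate u).1 ⊆ (C.gate i).1 then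
          ((C.der u i).1 ∪ (C.gate j).1, fun x => (C.der u i).2 x ∧ (C.gate j).2 x)
        else if (C.gate u).1 ⊆ (C.gate j).1 then
          ((C.gate i).1 ∪ (C.der u j).1, fun x => (C.gate i).2 x ∧ (C.der u j).2 x)
        else (∅, fun _ => False)) (C.der u)
  | _, .or C i j => Fin.cons (Fin.cons (∅, fun _ => True) fun _ => (∅, fun _ => False))
      fun u => Fin.cons ((C.der u i).1 ∪ (C.der u j).1, fun x => (C.der u i).2 x ∨ (C.der u j).2 x)
        (C.der u)

theorem dependsOn_gate {b : ℕ} : ∀ {s : ℕ} (C : Ckt E s), C.Ok b → ∀ i,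
    DependsOn (C.gate i).2 (C.gate i).1
  | _, .nil, _, i => i.elim0
  | _, .leaf C D f, h, i => by
      refine Fin.cases ?_ (fun i => ?_) i
      · simpa [gate] using h.2.2
      · simpa [gate] using dependsOn_gate C h.1 i
  | _, .and C i j, h, k => by
      refine Fin.cases ?_ (fun k => ?_) k
      · intro x y hxy
        have h1 := dependsOn_gate C h.1 i x y fun e he => hxy e (by simp [gate, he])
        have h2 := dependsOn_gate C h.1 j x y fun e he => hxy e (by simp [gate, he])
        simp [gate, h1, h2]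
      · simpa [gate] using dependsOn_gate C h.1 k
  | _, .or C i j, h, k => by
      refine Fin.cases ?_ (fun k => ?_) k
      · intro x y hxy
        have h1 := dependsOn_gate C h i x y fun e he => hxy e (by simp [gate, he])
        have h2 := dependsOn_gate C h j x y fun e he => hxy e (by simp [gate, he])
        simp [gate, h1, h2]
      · simpa [gate] using dependsOn_gate C h k

theorem der_vars {b : ℕ} : ∀ {s : ℕ} (C : Ckt E s), C.Ok b → ∀ u o,
    (C.der u o).1 ⊆ (C.gate o).1 ∧ Disjoint (C.der u o).1 (C.gate u).1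
  | _, .nil, _, i, _ => i.elim0
  | _, .leaf C D f, h, u, o => by
      refine Fin.cases ?_ (fun u => ?_) u
      · refine Fin.cases ?_ (fun o => ?_) o <;> simp [der]
      · refine Fin.cases ?_ (fun o => ?_) o
        · simp [der]
        · simpa [der, gate] using der_vars C h.1 u o
  | _, .and C i j, h, u, o => by
      refine Fin.cases ?_ (fun u => ?_) u
      · refine Fin.cases ?_ (fun o => ?_) o <;> simp [der]
      · refine Fin.cases ?_ (fun o => ?_) o
        · simp only [der, gate, Fin.cons_succ, Fin.cons_zero]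
          have hi := der_vars C h.1 u i
          have hj := der_vars C h.1 u j
          split_ifs with h1 h2
          · refine ⟨union_subset_union hi.1 subset_rfl, ?_⟩
            rw [disjoint_union_left]
            exact ⟨hi.2, (h.2.mono_left h1).symm⟩
          · refine ⟨union_subset_union subset_rfl hj.1, ?_⟩
            rw [disjoint_union_left]
            exact ⟨h.2.mono_right h2, hj.2⟩
          · simp
        · simpa [der, gate] using der_vars C h.1 u o
  | _, .or C i j, h, u, o => by
      refine Fin.cases ?_ (fun u => ?_) u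
      · refine Fin.cases ?_ (fun o => ?_) o <;> simp [der]
      · refine Fin.cases ?_ (fun o => ?_) o
        · simp only [der, gate, Fin.cons_succ, Fin.cons_zero]
          have hi := der_vars C h u i
          have hj := der_vars C h u j
          refine ⟨union_subset_union hi.1 hj.1, ?_⟩
          rw [disjoint_union_left]
          exact ⟨hi.2, hj.2⟩
        · simpa [der, gate] using der_vars C h u o

theorem der_sound : ∀ {s : ℕ} (C : Ckt E s) (u o : Fin s) (x : E → Bool),
    (C.der u o).2 x → (C.gate u).2 x → (C.gate o).2 x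
  | _, .nil, i, _, _ => i.elim0
  | _, .leaf C D f, u, o, x => by
      refine Fin.cases ?_ (fun u => ?_) u
      · refine Fin.cases ?_ (fun o => ?_) o <;> simp [der, gate]
      · refine Fin.cases ?_ (fun o => ?_) o
        · simp [der, gate]
        · simpa [der, gate] using der_sound C u o x
  | _, .and C i j, u, o, x => by
      refine Fin.cases ?_ (fun u => ?_) u
      · refine Fin.cases ?_ (fun o => ?_) o <;> simp [der, gate]
      · refine Fin.cases ?_ (fun o => ?_) o
        · simp only [der, gate, Fin.cons_succ, Fin.cons_zero]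
          have hi := der_sound C u i x
          have hj := der_sound C u j x
          split_ifs with h1 h2
          · exact fun h3 h4 => ⟨hi h3.1 h4, h3.2⟩
          · exact fun h3 h4 => ⟨h3.1, hj h3.2 h4⟩
          · exact fun h3 => h3.elim
        · simpa [der, gate] using der_sound C u o x
  | _, .or C i j, u, o, x => by
      refine Fin.cases ?_ (fun u => ?_) u
      · refine Fin.cases ?_ (fun o => ?_) o <;> simp [der, gate]
      · refine Fin.cases ?_ (fun o => ?_) o
        · simp only [der, gate, Fin.cons_succ, Fin.cons_zero]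
          exact fun h3 h4 => h3.imp (fun h => der_sound C u i x h h4) fun h => der_sound C u j x h h4
        · simpa [der, gate] using der_sound C u o x

/-- the gates as a list -/
theorem circ_gates {b : ℕ} : ∀ {s : ℕ} (C : Ckt E s), C.Ok b →
    ∃ l : List (Gate E), Circ b l ∧ l.length = s ∧ ∀ o, C.gate o ∈ l
  | _, .nil, _ => ⟨[], .nil, rfl, fun i => i.elim0⟩
  | _, .leaf C D f, h => by
      obtain ⟨l, h1, h2, h3⟩ := circ_gates C h.1
      refine ⟨_, .leaf l D f h1 h.2.1 h.2.2, by simp [h2], fun o => ?_⟩
      refine Fin.cases ?_ (fun o => ?_) o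
      · simp [gate]
      · simp [gate, h3]
  | _, .and C i j, h => by
      obtain ⟨l, h1, h2, h3⟩ := circ_gates C h.1
      refine ⟨_, .and l _ _ h1 (h3 i) (h3 j) h.2, by simp [h2], fun o => ?_⟩
      refine Fin.cases ?_ (fun o => ?_) o
      · simp [gate]
      · simp [gate, h3]
  | _, .or C i j, h => by
      obtain ⟨l, h1, h2, h3⟩ := circ_gates C h
      refine ⟨_, .or l _ _ h1 (h3 i) (h3 j), by simp [h2], fun o => ?_⟩
      refine Fin.cases ?_ (fun o => ?_) o
      · simp [gate]
      · simp [gate, h3]

theorem dependsOn_const (p : Prop) : DependsOn (fun _ : E → Bool => p) ∅ := fun _ _ _ => Iff.rfl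

/-- base case of the derivative circuits -/
theorem circ_der_zero {b s : ℕ} (C : Ckt E (s + 1)) (hC : C.Ok b)
    (h0 : C.der 0 = Fin.cons (∅, fun _ => True) fun _ => (∅, fun _ => False)) :
    ∃ l : List (Gate E), Circ b l ∧ l.length ≤ 2 * (s + 1) + 2 ∧ (∀ o, C.gate o ∈ l) ∧
      (∀ o, C.der 0 o ∈ l) ∧ ((∅ : Finset E), fun _ : E → Bool => False) ∈ l := by
  obtain ⟨l, h1, h2, h3⟩ := circ_gates C hC
  refine ⟨(∅, fun _ => True) :: (∅, fun _ => False) :: l,
    .leaf _ _ _ (.leaf _ _ _ h1 (by simp) (dependsOn_const _)) (by simp) (dependsOn_const _), ?_,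
    ?_, ?_, ?_⟩
  · simp only [List.length_cons]
    omega
  · intro o
    simp [h3]
  · intro o
    rw [h0]
    refine Fin.cases ?_ (fun o => ?_) o <;> simp
  · simp

/-- the derivative circuits -/
theorem circ_der {b : ℕ} : ∀ {s : ℕ} (C : Ckt E s), C.Ok b → ∀ u,
    ∃ l : List (Gate E), Circ b l ∧ l.length ≤ 2 * s + 2 ∧ (∀ o, C.gate o ∈ l) ∧
      (∀ o, C.der u o ∈ l) ∧ ((∅ : Finset E), fun _ : E → Bool => False) ∈ l
  | _, .nil, _, u => u.elim0
  | _, .leaf C D f, h, u => by
      refine Fin.cases ?_ (fun u => ?_) u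
      · exact circ_der_zero _ h rfl
      · obtain ⟨l, h1, h2, h3, h4, h5⟩ := circ_der C h.1 u
        refine ⟨_, .leaf l D f h1 h.2.1 h.2.2, ?_, ?_, ?_, by simp [h5]⟩
        · simp only [List.length_cons]
          omega
        · refine Fin.cases ?_ fun o => ?_
          · simp [gate]
          · simp [gate, h3]
        · refine Fin.cases ?_ fun o => ?_
          · simp [der, h5]
          · simp [der, h4]
  | _, .and C i j, h, u => by
      refine Fin.cases ?_ (fun u => ?_) u
      · exact circ_der_zero _ h rfl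
      · obtain ⟨l, h1, h2, h3, h4, h5⟩ := circ_der C h.1 u
        have hi := der_vars C h.1 u i
        have hj := der_vars C h.1 u j
        by_cases c1 : (C.gate u).1 ⊆ (C.gate i).1
        · have h6 := Circ.and (b := b) l _ _ h1 (h3 i) (h3 j) h.2
          refine ⟨_, .and _ (C.der u i) (C.gate j) h6 (by simp [h4]) (by simp [h3])
            (h.2.mono_left hi.1), ?_, ?_, ?_, by simp [h5]⟩
          · simp only [List.length_cons]
            omega
          · refine Fin.cases ?_ fun o => ?_
            · simp [gate]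
            · simp [gate, h3]
          · refine Fin.cases ?_ fun o => ?_
            · simp [der, c1]
            · simp [der, h4]
        · by_cases c2 : (C.gate u).1 ⊆ (C.gate j).1
          · have h6 := Circ.and (b := b) l _ _ h1 (h3 i) (h3 j) h.2
            refine ⟨_, .and _ (C.gate i) (C.der u j) h6 (by simp [h3]) (by simp [h4])
              (h.2.mono_right hj.1), ?_, ?_, ?_, by simp [h5]⟩
            · simp only [List.length_cons]
              omega
            · refine Fin.cases ?_ fun o => ?_
              · simp [gate]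
              · simp [gate, h3]
            · refine Fin.cases ?_ fun o => ?_
              · simp [der, c1, c2]
              · simp [der, h4]
          · refine ⟨_, Circ.and (b := b) l _ _ h1 (h3 i) (h3 j) h.2, ?_, ?_, ?_, by simp [h5]⟩
            · simp only [List.length_cons]
              omega
            · refine Fin.cases ?_ fun o => ?_
              · simp [gate]
              · simp [gate, h3]
            · refine Fin.cases ?_ fun o => ?_
              · simp [der, c1, c2, h5]
              · simp [der, h4]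
  | _, .or C i j, h, u => by
      refine Fin.cases ?_ (fun u => ?_) u
      · exact circ_der_zero _ h rfl
      · obtain ⟨l, h1, h2, h3, h4, h5⟩ := circ_der C h u
        have h6 := Circ.or (b := b) l _ _ h1 (h3 i) (h3 j)
        refine ⟨_, .or _ (C.der u i) (C.der u j) h6 (by simp [h4]) (by simp [h4]), ?_, ?_, ?_,
          by simp [h5]⟩
        · simp only [List.length_cons]
          omega
        · refine Fin.cases ?_ fun o => ?_
          · simp [gate]
          · simp [gate, h3]
        · refine Fin.cases ?_ fun o => ?_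
          · simp [der]
          · simp [der, h4]

/-- existence of a place to cut -/
theorem exists_cut {b : ℕ} : ∀ {s : ℕ} (C : Ckt E s), C.Ok b → ∀ (o : Fin s) (x : E → Bool),
    (C.gate o).2 x → b < (C.gate o).1.card → ∃ u w : Fin s, b < (C.gate u).1.card ∧
      (C.gate w).1.card ≤ 2 * b ∧ (C.gate w).1 ⊆ (C.gate u).1 ∧ (C.gate u).1 ⊆ (C.gate o).1 ∧
      (∀ y, (C.gate w).2 y → (C.gate u).2 y) ∧ (C.gate w).2 x ∧ (C.der u o).2 x
  | _, .nil, _, o, _ => o.elim0
  | _, .leaf C D f, h, o, x => by
      refine Fin.cases ?_ (fun o => ?_) o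
      · intro _ h2
        have := h.2.1
        simp only [gate, Fin.cons_zero] at h2
        omega
      · intro h1 h2
        obtain ⟨u, w, h3⟩ := exists_cut C h.1 o x (by simpa [gate] using h1)
          (by simpa [gate] using h2)
        exact ⟨u.succ, w.succ, by simpa [gate, der] using h3⟩
  | _, .and C i j, h, o, x => by
      refine Fin.cases ?_ (fun o => ?_) o
      · intro h1 h2
        simp only [gate, Fin.cons_zero] at h1 h2
        by_cases c1 : b < (C.gate i).1.card
        · obtain ⟨u, w, h3, h4, h5, h6, h7, h8, h9⟩ := exists_cut C h.1 i x h1.1 c1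
          refine ⟨u.succ, w.succ, ?_⟩
          simp only [gate, der, Fin.cons_succ, Fin.cons_zero, if_pos h6]
          exact ⟨h3, h4, h5, h6.trans subset_union_left, h7, h8, h9, h1.2⟩
        · by_cases c2 : b < (C.gate j).1.card
          · obtain ⟨u, w, h3, h4, h5, h6, h7, h8, h9⟩ := exists_cut C h.1 j x h1.2 c2
            have hne : ¬ (C.gate u).1 ⊆ (C.gate i).1 := by
              intro hsub
              have hd : Disjoint (C.gate u).1 (C.gate u).1 := (h.2.mono_left hsub).mono_right h6
              rw [disjoint_self_iff_empty] at hd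
              rw [hd] at h3
              simp at h3
            refine ⟨u.succ, w.succ, ?_⟩
            simp only [gate, der, Fin.cons_succ, Fin.cons_zero, if_neg hne, if_pos h6]
            exact ⟨h3, h4, h5, h6.trans subset_union_right, h7, h8, h1.1, h9⟩
          · refine ⟨0, 0, ?_⟩
            simp only [gate, der, Fin.cons_zero]
            refine ⟨h2, ?_, subset_rfl, subset_rfl, fun _ hy => hy, h1, trivial⟩
            have := card_union_le (C.gate i).1 (C.gate j).1
            omega
      · intro h1 h2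
        obtain ⟨u, w, h3⟩ := exists_cut C h.1 o x (by simpa [gate] using h1)
          (by simpa [gate] using h2)
        exact ⟨u.succ, w.succ, by simpa [gate, der] using h3⟩
  | _, .or C i j, h, o, x => by
      refine Fin.cases ?_ (fun o => ?_) o
      · intro h1 h2
        simp only [gate, Fin.cons_zero] at h1 h2
        rcases h1 with h1 | h1
        · by_cases c1 : b < (C.gate i).1.card
          · obtain ⟨u, w, h3, h4, h5, h6, h7, h8, h9⟩ := exists_cut C h i x h1 c1
            refine ⟨u.succ, w.succ, ?_⟩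
            simp only [gate, der, Fin.cons_succ, Fin.cons_zero]
            exact ⟨h3, h4, h5, h6.trans subset_union_left, h7, h8, Or.inl h9⟩
          · refine ⟨0, i.succ, ?_⟩
            simp only [gate, der, Fin.cons_succ, Fin.cons_zero]
            exact ⟨h2, by omega, subset_union_left, subset_rfl, fun _ hy => Or.inl hy, h1, trivial⟩
        · by_cases c1 : b < (C.gate j).1.card
          · obtain ⟨u, w, h3, h4, h5, h6, h7, h8, h9⟩ := exists_cut C h j x h1 c1
            refine ⟨u.succ, w.succ, ?_⟩
            simp only [gate, der, Fin.cons_succ, Fin.cons_zero]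
            exact ⟨h3, h4, h5, h6.trans subset_union_right, h7, h8, Or.inr h9⟩
          · refine ⟨0, j.succ, ?_⟩
            simp only [gate, der, Fin.cons_succ, Fin.cons_zero]
            exact ⟨h2, by omega, subset_union_right, subset_rfl, fun _ hy => Or.inr hy, h1, trivial⟩
      · intro h1 h2
        obtain ⟨u, w, h3⟩ := exists_cut C h o x (by simpa [gate] using h1)
          (by simpa [gate] using h2)
        exact ⟨u.succ, w.succ, by simpa [gate, der] using h3⟩

/-- numbering the gates -/
theorem exists_ckt {b : ℕ} {l : List (Gate E)} (hl : Circ b l) :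
    ∃ C : Ckt E l.length, C.Ok b ∧ ∀ g ∈ l, ∃ i, C.gate i = g := by
  induction hl with
  | nil => exact ⟨.nil, trivial, by simp⟩
  | leaf l D f _ hD hf ih =>
    obtain ⟨C, h1, h2⟩ := ih
    refine ⟨.leaf C D f, ⟨h1, hD, hf⟩, ?_⟩
    intro g hg
    rcases List.mem_cons.1 hg with rfl | hg
    · exact ⟨0, rfl⟩
    · obtain ⟨i, hi⟩ := h2 g hg
      exact ⟨i.succ, by simp [gate, hi]⟩
  | and l g₁ g₂ _ hg₁ hg₂ hd ih =>
    obtain ⟨C, h1, h2⟩ := ih
    obtain ⟨i, hi⟩ := h2 g₁ hg₁
    obtain ⟨j, hj⟩ := h2 g₂ hg₂
    refine ⟨.and C i j, ⟨h1, by rw [hi, hj]; exact hd⟩, ?_⟩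
    intro g hg
    rcases List.mem_cons.1 hg with rfl | hg
    · exact ⟨0, by simp [gate, hi, hj]⟩
    · obtain ⟨i, hi⟩ := h2 g hg
      exact ⟨i.succ, by simp [gate, hi]⟩
  | or l g₁ g₂ _ hg₁ hg₂ ih =>
    obtain ⟨C, h1, h2⟩ := ih
    obtain ⟨i, hi⟩ := h2 g₁ hg₁
    obtain ⟨j, hj⟩ := h2 g₂ hg₂
    refine ⟨.or C i j, h1, ?_⟩
    intro g hg
    rcases List.mem_cons.1 hg with rfl | hg
    · exact ⟨0, by simp [gate, hi, hj]⟩
    · obtain ⟨i, hi⟩ := h2 g hg
      exact ⟨i.succ, by simp [gate, hi]⟩

end Ckt

theorem dependsOn_of_mem {b : ℕ} {l : List (Gate E)} (hl : Circ b l) {o : Gate E} (ho : o ∈ l) :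
    DependsOn o.2 o.1 := by
  obtain ⟨C, h1, h2⟩ := Ckt.exists_ckt hl
  obtain ⟨i, rfl⟩ := h2 o ho
  exact Ckt.dependsOn_gate C h1 i

theorem dec_small (b : ℕ) (hb : 1 ≤ b) [Fintype E] (m : ℕ) (l : List (Gate E)) (hl : Circ b l)
    (o : Gate E) (ho : o ∈ l) (hc : o.1.card ≤ b) :
    ∃ (ι : Type) (_ : Fintype ι) (R : ι → (E → Bool) → Prop) (part : ι → E → Option (Fin (m + 1))),
    Fintype.card ι ≤ (4 ^ (m + 1) * l.length) ^ (2 * (m + 1)) ∧ (∀ i, Rect (part i) (R i)) ∧
    (∀ i j, (univ.filter fun e => part i e = some j).card ≤ 2 * b) ∧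
    (∀ i e, e ∉ o.1 → part i e = none) ∧
    (∀ i x, R i x → o.2 x) ∧ ∀ x, o.2 x → ∃ i, R i x := by
  refine ⟨Unit, inferInstance, fun _ => o.2, fun _ e => if e ∈ o.1 then some 0 else none, ?_, ?_, ?_,
    ?_, fun _ _ h => h, fun x h => ⟨(), h⟩⟩
  · rw [Fintype.card_unit]
    apply Nat.one_le_pow
    apply Nat.mul_pos (by positivity)
    exact List.length_pos_of_mem ho
  · intro _ X z hX
    refine (dependsOn_of_mem hl ho (X 0) _ fun e he => ?_).1 (hX 0)
    simp [he]
  · intro _ j
    refine (card_le_card (t := o.1) ?_).trans (hc.trans (by omega))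
    intro e he
    rw [mem_filter] at he
    by_contra hne
    simp [hne] at he
  · intro _ e he
    simp [he]

theorem dec_aux (b : ℕ) (hb : 1 ≤ b) [Fintype E] : ∀ (m : ℕ) (l : List (Gate E)), Circ b l →
    ∀ o ∈ l, o.1.card ≤ (m + 1) * b →
    ∃ (ι : Type) (_ : Fintype ι) (R : ι → (E → Bool) → Prop) (part : ι → E → Option (Fin (m + 1))),
    Fintype.card ι ≤ (4 ^ (m + 1) * l.length) ^ (2 * (m + 1)) ∧ (∀ i, Rect (part i) (R i)) ∧
    (∀ i j, (univ.filter fun e => part i e = some j).card ≤ 2 * b) ∧
    (∀ i e, e ∉ o.1 → part i e = none) ∧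
    (∀ i x, R i x → o.2 x) ∧ ∀ x, o.2 x → ∃ i, R i x := by
  intro m
  induction m with
  | zero =>
    intro l hl o ho hc
    exact dec_small b hb 0 l hl o ho (by simpa using hc)
  | succ m ih =>
    intro l hl o ho hc
    by_cases hsm : o.1.card ≤ b
    · exact dec_small b hb (m + 1) l hl o ho hsm
    push Not at hsm
    have hck : ∃ s, s = l.length ∧ ∃ C : Ckt E s, C.Ok b ∧ ∀ g ∈ l, ∃ i, C.gate i = g :=
      ⟨_, rfl, Ckt.exists_ckt hl⟩
    obtain ⟨s, hs, C, hC, hg⟩ := hck
    have hs1 : 1 ≤ s := by
      rw [hs]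
      exact List.length_pos_of_mem ho
    rw [← hs]
    obtain ⟨io, rfl⟩ := hg o ho
    clear hg ho hl hs
    let P : Fin s × Fin s → Prop := fun p => b < (C.gate p.1).1.card ∧
      (C.gate p.2).1.card ≤ 2 * b ∧ (C.gate p.2).1 ⊆ (C.gate p.1).1 ∧
      (C.gate p.1).1 ⊆ (C.gate io).1 ∧ ∀ y, (C.gate p.2).2 y → (C.gate p.1).2 y
    have key : ∀ p : {p : Fin s × Fin s // P p}, ∃ (ι : Type) (_ : Fintype ι)
        (R : ι → (E → Bool) → Prop) (part : ι → E → Option (Fin (m + 1))),
        Fintype.card ι ≤ (4 ^ (m + 2) * s) ^ (2 * (m + 1)) ∧ (∀ i, Rect (part i) (R i)) ∧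
        (∀ i j, (univ.filter fun e => part i e = some j).card ≤ 2 * b) ∧
        (∀ i e, e ∉ (C.der p.1.1 io).1 → part i e = none) ∧
        (∀ i x, R i x → (C.der p.1.1 io).2 x) ∧ ∀ x, (C.der p.1.1 io).2 x → ∃ i, R i x := by
      rintro ⟨⟨u, w⟩, h1, h2, h3, h4, h5⟩
      dsimp only at h1 h2 h3 h4 h5 ⊢
      obtain ⟨l', k1, k2, k3, k4, k5⟩ := Ckt.circ_der C hC u
      have hv := Ckt.der_vars C hC u io
      have hcard : (C.der u io).1.card ≤ (m + 1) * b := by
        have e1 : (C.der u io).1.card + (C.gate u).1.card ≤ (C.gate io).1.card := by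
          rw [← card_union_of_disjoint hv.2]
          exact card_le_card (union_subset hv.1 h4)
        have e2 : (m + 1 + 1) * b = (m + 1) * b + b := by ring
        omega
      obtain ⟨ι, fι, R, part, q1, q2, q3, q4, q5, q6⟩ := ih l' k1 _ (k4 io) hcard
      refine ⟨ι, fι, R, part, q1.trans ?_, q2, q3, q4, q5, q6⟩
      apply Nat.pow_le_pow_left
      calc 4 ^ (m + 1) * l'.length ≤ 4 ^ (m + 1) * (4 * s) := Nat.mul_le_mul_left _ (by omega)
        _ = 4 ^ (m + 2) * s := by ring
    choose ι fι R part q1 q2 q3 q4 q5 q6 using key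
    classical
    refine ⟨Σ p : {p : Fin s × Fin s // P p}, ι p, inferInstance,
      fun q x => R q.1 q.2 x ∧ (C.gate q.1.1.2).2 x,
      fun q e => if e ∈ (C.gate q.1.1.2).1 then some (Fin.last (m + 1)) else
        (part q.1 q.2 e).map Fin.castSucc, ?_, ?_, ?_, ?_, ?_, ?_⟩
    · rw [Fintype.card_sigma]
      calc ∑ p : {p : Fin s × Fin s // P p}, Fintype.card (ι p)
          ≤ ∑ p : {p : Fin s × Fin s // P p}, (4 ^ (m + 2) * s) ^ (2 * (m + 1)) :=
            sum_le_sum fun p _ => q1 p
        _ = Fintype.card {p : Fin s × Fin s // P p} * (4 ^ (m + 2) * s) ^ (2 * (m + 1)) := by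
            rw [sum_const, smul_eq_mul, card_univ]
        _ ≤ (s * s) * (4 ^ (m + 2) * s) ^ (2 * (m + 1)) := by
            apply Nat.mul_le_mul_right
            refine (Fintype.card_subtype_le _).trans ?_
            simp
        _ ≤ ((4 ^ (m + 2) * s) * (4 ^ (m + 2) * s)) * (4 ^ (m + 2) * s) ^ (2 * (m + 1)) := by
            apply Nat.mul_le_mul_right
            have : s ≤ 4 ^ (m + 2) * s := Nat.le_mul_of_pos_left s (by positivity)
            exact Nat.mul_le_mul this this
        _ = (4 ^ (m + 1 + 1) * s) ^ (2 * (m + 1 + 1)) := by ring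
    · rintro ⟨p, i⟩ X z hX
      dsimp only at hX ⊢
      constructor
      · have h6 := q2 p i (fun j => X (Fin.castSucc j)) (fun e => (if e ∈ (C.gate p.1.2).1 then
          some (Fin.last (m + 1)) else (part p i e).map Fin.castSucc).elim (z e) fun j => X j e)
          fun j => (hX _).1
        have h66 : (fun e => (if e ∈ (C.gate p.1.2).1 then
          some (Fin.last (m + 1)) else (part p i e).map Fin.castSucc).elim (z e) fun j => X j e) =
            fun e => (part p i e).elim ((if e ∈ (C.gate p.1.2).1 then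
          some (Fin.last (m + 1)) else (part p i e).map Fin.castSucc).elim (z e) fun j => X j e)
            fun j => X (Fin.castSucc j) e := by
          funext e
          rcases hpe : part p i e with _ | j
          · simp
          · have h7 : e ∈ (C.der p.1.1 io).1 := by
              by_contra hne
              have := q4 p i e hne
              rw [hpe] at this
              simp at this
            have h8 : e ∉ (C.gate p.1.2).1 := fun h9 =>
              disjoint_left.1 (Ckt.der_vars C hC p.1.1 io).2 h7 (p.2.2.2.1 h9)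
            simp [h8]
        rw [h66]
        exact h6
      · refine (Ckt.dependsOn_gate C hC p.1.2 (X (Fin.last (m + 1))) _ fun e he => ?_).1 (hX _).2
        simp [he]
    · rintro ⟨p, i⟩ j
      dsimp only
      refine Fin.lastCases ?_ (fun j => ?_) j
      · refine (card_le_card (t := (C.gate p.1.2).1) ?_).trans p.2.2.1
        intro e he
        rw [mem_filter] at he
        by_contra hne
        rw [if_neg hne] at he
        rcases hpe : part p i e with _ | j
        · simp [hpe] at he
        · simp [hpe, Fin.ext_iff] at he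
          omega
      · refine (card_le_card ?_).trans (q3 p i j)
        intro e he
        rw [mem_filter] at he ⊢
        refine ⟨mem_univ _, ?_⟩
        split_ifs at he with hne
        · simp [Fin.ext_iff] at he
          omega
        · rcases hpe : part p i e with _ | j'
          · simp [hpe] at he
          · simpa [hpe, Fin.ext_iff] using he
    · rintro ⟨p, i⟩ e he
      dsimp only
      have h1 : e ∉ (C.gate p.1.2).1 := fun h => he (p.2.2.2.2.1 (p.2.2.2.1 h))
      have h2 : e ∉ (C.der p.1.1 io).1 := fun h => he ((Ckt.der_vars C hC p.1.1 io).1 h)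
      rw [if_neg h1, q4 p i e h2]
      rfl
    · rintro ⟨p, i⟩ x ⟨h1, h2⟩
      exact Ckt.der_sound C p.1.1 io x (q5 p i x h1) (p.2.2.2.2.2 x h2)
    · intro x hx
      obtain ⟨u, w, h1, h2, h3, h4, h5, h6, h7⟩ := Ckt.exists_cut C hC io x hx hsm
      obtain ⟨i, hi⟩ := q6 ⟨(u, w), h1, h2, h3, h4, h5⟩ x h7
      exact ⟨⟨⟨(u, w), h1, h2, h3, h4, h5⟩, i⟩, hi, h6⟩

/-- DEC -/
theorem dec : S_DEC := by
  intro E _ _ b l hb hl o ho m hm hc
  obtain ⟨k, rfl⟩ : ∃ k, m = k + 1 := ⟨m - 1, by omega⟩
  obtain ⟨ι, fι, R, part, h1, h2, h3, _, h5, h6⟩ := dec_aux b hb k l hl o ho hc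
  exact ⟨ι, fι, R, part, h1, h2, h3, h5, h6⟩

end Pool.Agent.K9h63.DV
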