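import Mathlib

/-!
# Decomposable circuits and nondeterministic protocols for vertex cover: definitions
-/

set_option autoImplicit false

namespace Pool.Agent.K9h63.DV

/-- The slots of the adjacency matrix of a graph with the vertices `0, …, n - 1`: the pairs of
different vertices. -/
abbrev Slot (n : ℕ) : Type := {e : Fin n × Fin n // e.1 < e.2}

/-- A graph with the vertices `0, …, n - 1`, given by its adjacency bits. -/
abbrev Gr (n : ℕ) : Type := Slot n → Bool

/-- `C` is a vertex cover of the graph `x`. -/
def IsCover {n : ℕ} (x : Gr n) (C : Finset (Fin n)) : Prop :=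
  ∀ e : Slot n, x e = true → e.1.1 ∈ C ∨ e.1.2 ∈ C

/-- The graph `x` has a vertex cover with at most `s` vertices. -/
def HasCover {n : ℕ} (x : Gr n) (s : ℝ) : Prop :=
  ∃ C : Finset (Fin n), IsCover x C ∧ (C.card : ℝ) ≤ s

/-- `f` accepts all graphs with a vertex cover with at most `s` vertices and rejects all graphs
without a vertex cover with at most `s'` vertices. -/
def Tells {n : ℕ} (f : Gr n → Prop) (s s' : ℝ) : Prop :=
  (∀ x, HasCover x s → f x) ∧ ∀ x, f x → HasCover x s'

/-- `R` is a rectangle for the partition `part` of the slots among `k` parties: if the graphs `X j`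
are in `R`, then so is the graph of which party `j` sees the same part as of `X j`. -/
def Rectangle {n k : ℕ} (part : Slot n → Fin k) (R : Gr n → Prop) : Prop :=
  ∀ X : Fin k → Gr n, (∀ j, R (X j)) → R fun e => X (part e) e

/-- The number of the slots of party `j` at the vertex `v`. -/
def deg {n k : ℕ} (part : Slot n → Fin k) (j : Fin k) (v : Fin n) : ℕ :=
  (Finset.univ.filter fun e : Slot n => part e = j ∧ (e.1.1 = v ∨ e.1.2 = v)).card

section circuits

variable {E : Type}

/-- The function `f` depends only on the variables in `D`. -/
def DependsOn (f : (E → Bool) → Prop) (D : Finset E) : Prop :=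
  ∀ x y : E → Bool, (∀ e ∈ D, x e = y e) → (f x ↔ f y)

/-- A gate: its set of variables and its function. -/
abbrev Gate (E : Type) : Type := Finset E × ((E → Bool) → Prop)

/-- `Circ b l`: the list `l` consists of the gates of a decomposable circuit. The inputs (leaves) are
arbitrary functions of at most `b` variables; the other gates are the conjunction of two earlier
gates with disjoint sets of variables, and the disjunction of two arbitrary earlier gates. -/
inductive Circ [DecidableEq E] (b : ℕ) : List (Gate E) → Prop
  | nil : Circ b []
  | leaf (l : List (Gate E)) (D : Finset E) (f : (E → Bool) → Prop) : Circ b l → D.card ≤ b →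
      DependsOn f D → Circ b ((D, f) :: l)
  | and (l : List (Gate E)) (g h : Gate E) : Circ b l → g ∈ l → h ∈ l → Disjoint g.1 h.1 →
      Circ b ((g.1 ∪ h.1, fun x => g.2 x ∧ h.2 x) :: l)
  | or (l : List (Gate E)) (g h : Gate E) : Circ b l → g ∈ l → h ∈ l →
      Circ b ((g.1 ∪ h.1, fun x => g.2 x ∨ h.2 x) :: l)

end circuits

end Pool.Agent.K9h63.DV
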