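import Pool.Agent.K9h63.DV.CoCirc2

/-!
# Decomposable circuits: explicit dependence on the ratio
-/

set_option autoImplicit false

namespace Pool.Agent.K9h63.DV

open Finset

/-- the bound for the complements with all conditions on `n` -/
theorem cocirc_fix (hori : S_ORI) (hind : S_IND) (δ ε τ β z : ℝ) (K n : ℕ) (hδ : 0 < δ)
    (hδ1 : δ ≤ 1) (hε : 0 < ε) (hτ : τ = δ * ε ^ 2 / 512) (hβ : β = τ ^ 2) (hKpos : 1 ≤ K)
    (hK1 : 1 ≤ K * β) (hz : z = δ / (2 * K)) (hn1 : 1 ≤ n) (e1 : 2 ≤ n * ε) (e2 : 1 ≤ n * β)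
    (e3 : 1 ≤ n * τ) (e4 : 8 ≤ n * ε ^ 2) (e5 : 16 * (K : ℝ) ^ 2 ≤ n * z ^ 2)
    (e6 : 8 * (K : ℝ) ≤ n * z ^ 2) (l : List (Gate (Slot n))) (hl : Circ ⌊β * (n : ℝ) ^ 2⌋₊ l)
    (g : Gate (Slot n)) (hg : g ∈ l)
    (hT : Tells (fun x => ¬ g.2 x) (δ * n) ((1 - ε) * n)) :
    Real.exp (z ^ 2 / (8 * K) * n) ≤ l.length := by
  have hτ0 : 0 < τ := by rw [hτ]; positivity
  have hβ0 : 0 < β := by rw [hβ]; positivity
  have hK0 : (0 : ℝ) < K := by exact_mod_cast hKpos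
  have hK1R : (1 : ℝ) ≤ K := by exact_mod_cast hKpos
  have hz0 : 0 < z := by rw [hz]; positivity
  have hzK : K * z = δ / 2 := by
    rw [hz]
    field_simp
  have hnR : (1 : ℝ) ≤ n := by exact_mod_cast hn1
  have hn0 : (0 : ℝ) < n := by linarith
  -- `b`
  have hbR : 1 ≤ β * (n : ℝ) ^ 2 := by nlinarith
  set b := ⌊β * (n : ℝ) ^ 2⌋₊ with hb
  have hb1 : 1 ≤ b := by
    rw [hb, Nat.one_le_floor_iff]
    exact hbR
  have hb2 : (b : ℝ) ≤ β * (n : ℝ) ^ 2 := Nat.floor_le (by positivity)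
  have hb3 : β * (n : ℝ) ^ 2 / 2 ≤ (b : ℝ) := by
    have h1 := Nat.lt_floor_add_one (β * (n : ℝ) ^ 2)
    have h2 : (1 : ℝ) ≤ (b : ℝ) := by exact_mod_cast hb1
    rw [← hb] at h1
    linarith
  have hKb : Fintype.card (Slot n) ≤ K * b := by
    have h1 := two_mul_card_slot n
    have h3 : (n : ℝ) * n ≤ 2 * (K * b) := by
      have h4 : (n : ℝ) ^ 2 ≤ K * β * n ^ 2 := by
        nlinarith [sq_nonneg (n : ℝ)]
      nlinarith
    have h4 : n * n ≤ 2 * (K * b) := by exact_mod_cast h3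
    omega
  -- `D`
  have hsb : Real.sqrt b ≤ τ * n := by
    rw [show τ * (n : ℝ) = Real.sqrt ((τ * n) ^ 2) from (Real.sqrt_sq (by positivity)).symm]
    apply Real.sqrt_le_sqrt
    rw [mul_pow, ← hβ]
    exact hb2
  have hsb0 : 0 < Real.sqrt b := Real.sqrt_pos.2 (by exact_mod_cast hb1)
  set D := ⌈2 * Real.sqrt b⌉₊ with hD
  have hD1 : 1 ≤ D := by
    rw [hD, Nat.one_le_ceil_iff]
    positivity
  have hD2 : 2 * Real.sqrt b ≤ D := Nat.le_ceil _
  have hD3 : (D : ℝ) ≤ 3 * τ * n := by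
    have h1 : (D : ℝ) < 2 * Real.sqrt b + 1 := Nat.ceil_lt_add_one (by positivity)
    linarith
  have hD4 : 4 * b ≤ D * D := by
    have h1 : (4 : ℝ) * b ≤ D * D := by
      have h2 : Real.sqrt b * Real.sqrt b = b := Real.mul_self_sqrt (by positivity)
      nlinarith
    exact_mod_cast h1
  -- `q` and `a`
  set q := ⌊ε ^ 2 * n / 8⌋₊ with hq
  have hq1 : (q : ℝ) ≤ ε ^ 2 * n / 8 := Nat.floor_le (by positivity)
  have hq2 : 1 ≤ q := by
    rw [hq, Nat.one_le_floor_iff]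
    linarith
  have hq3 : ε ^ 2 * n / 16 ≤ q := by
    have h1 := Nat.lt_floor_add_one (ε ^ 2 * n / 8)
    have h2 : (1 : ℝ) ≤ (q : ℝ) := by exact_mod_cast hq2
    rw [← hq] at h1
    linarith
  have hq0 : (0 : ℝ) < q := by exact_mod_cast hq2
  set a := ⌈ε * n⌉₊ with ha
  have ha1 : ε * n ≤ a := Nat.le_ceil _
  have ha2 : 1 ≤ a := by
    have : (1 : ℝ) ≤ a := by linarith
    exact_mod_cast this
  have hqa : 2 * (n + 1) * q ≤ a * (a - 1) := by
    have h1 : 2 * ((n : ℝ) + 1) * q ≤ a * ((a - 1 : ℕ) : ℝ) := by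
      rw [Nat.cast_sub ha2, Nat.cast_one]
      have h2 : ε ^ 2 * n ^ 2 / 2 ≤ (a : ℝ) * (a - 1) := by nlinarith
      have h3 : 2 * ((n : ℝ) + 1) * q ≤ 4 * n * (ε ^ 2 * n / 8) := by nlinarith
      nlinarith
    exact_mod_cast h1
  set r := ⌊z * n⌋₊ with hr
  have hr1 : (r : ℝ) ≤ z * n := Nat.floor_le (by positivity)
  have hr2 : z * n < r + 1 := Nat.lt_floor_add_one _
  set L : ℝ := Real.exp (2 * z) with hL
  have hL1 : 1 < L := by
    rw [hL]
    exact Real.one_lt_exp_iff.2 (by positivity)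
  have hmain := cocirc_bound hori hind n K b D q a r hn1 hKpos hb1 hKb hD4 hD1 hq2 hqa l hl g hg
    ?_ ?_ L hL1
  · set s : ℝ := (l.length : ℝ) with hs
    have h1 : Real.exp (2 * z ^ 2 * n) ≤ 4 * (4 ^ K * s) ^ (2 * K) * K * Real.exp (z ^ 2 * n) := by
      calc Real.exp (2 * z ^ 2 * n) ≤ L ^ (r + 1) := by
            rw [hL, ← Real.exp_nat_mul]
            apply Real.exp_le_exp.2
            push_cast
            nlinarith
        _ ≤ 4 * (4 ^ K * s) ^ (2 * K) * K * ((1 + L) ^ 2 / (4 * L)) ^ n := hmain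
        _ ≤ 4 * (4 ^ K * s) ^ (2 * K) * K * Real.exp (z ^ 2) ^ n := by
            apply mul_le_mul_of_nonneg_left _ (by positivity)
            exact pow_le_pow_left₀ (by positivity) (psi_le z) n
        _ = _ := by
            rw [← Real.exp_nat_mul]
            congr 2
            ring
    have h2 : Real.exp (z ^ 2 * n) ≤ 4 * (4 ^ K * s) ^ (2 * K) * K := by
      have h3 : Real.exp (z ^ 2 * n) * Real.exp (z ^ 2 * n) ≤
          4 * (4 ^ K * s) ^ (2 * K) * K * Real.exp (z ^ 2 * n) := by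
        rw [← Real.exp_add]
        calc Real.exp (z ^ 2 * n + z ^ 2 * n) = Real.exp (2 * z ^ 2 * n) := by ring_nf
          _ ≤ _ := h1
      exact le_of_mul_le_mul_right h3 (Real.exp_pos _)
    have h3 : 4 * (K : ℝ) ≤ Real.exp (z ^ 2 * n / 2) := by
      have h4 := Real.add_one_le_exp (z ^ 2 * n / 2)
      linarith
    have h4 : Real.exp (z ^ 2 * n / 2) ≤ (4 ^ K * s) ^ (2 * K) := by
      have h5 : Real.exp (z ^ 2 * n / 2) * (4 * K) ≤ (4 ^ K * s) ^ (2 * K) * (4 * K) := by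
        calc Real.exp (z ^ 2 * n / 2) * (4 * K)
            ≤ Real.exp (z ^ 2 * n / 2) * Real.exp (z ^ 2 * n / 2) :=
              mul_le_mul_of_nonneg_left h3 (Real.exp_pos _).le
          _ = Real.exp (z ^ 2 * n) := by
              rw [← Real.exp_add]
              ring_nf
          _ ≤ 4 * (4 ^ K * s) ^ (2 * K) * K := h2
          _ = _ := by ring
      exact le_of_mul_le_mul_right h5 (by positivity)
    have h5 : Real.exp (z ^ 2 * n / (4 * K)) ≤ 4 ^ K * s := by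
      have h6 : Real.exp (z ^ 2 * n / (4 * K)) ^ (2 * K) = Real.exp (z ^ 2 * n / 2) := by
        rw [← Real.exp_nat_mul]
        congr 1
        push_cast
        field_simp
        ring
      rw [← h6] at h4
      exact le_of_pow_le_pow_left₀ (by omega) (by positivity) h4
    have h7 : (4 : ℝ) ^ K ≤ Real.exp (2 * K) := by
      have h8 : (4 : ℝ) ≤ Real.exp 2 := by
        have h9 := Real.add_one_le_exp (1 : ℝ)
        have h10 : Real.exp 2 = Real.exp 1 * Real.exp 1 := by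
          rw [← Real.exp_add]
          norm_num
        rw [h10]
        nlinarith
      calc (4 : ℝ) ^ K ≤ Real.exp 2 ^ K := pow_le_pow_left₀ (by norm_num) h8 K
        _ = Real.exp (2 * K) := by
            rw [← Real.exp_nat_mul]
            congr 1
            ring
    have h8 : 2 * (K : ℝ) ≤ z ^ 2 * n / (8 * K) := by
      rw [le_div_iff₀ (by positivity)]
      nlinarith
    have h9 : Real.exp (z ^ 2 / (8 * K) * n) * Real.exp (2 * K) ≤ s * Real.exp (2 * K) := by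
      rw [← Real.exp_add]
      calc Real.exp (z ^ 2 / (8 * K) * n + 2 * K) ≤ Real.exp (z ^ 2 * n / (4 * K)) := by
            apply Real.exp_le_exp.2
            have h10 : z ^ 2 * n / (4 * K) = z ^ 2 * n / (8 * K) + z ^ 2 * n / (8 * K) := by
              field_simp
              ring
            have h11 : z ^ 2 / (8 * K) * n = z ^ 2 * n / (8 * K) := by ring
            rw [h10, h11]
            linarith
        _ ≤ 4 ^ K * s := h5
        _ ≤ Real.exp (2 * K) * s := mul_le_mul_of_nonneg_right h7 (by positivity)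
        _ = _ := mul_comm _ _
    exact le_of_mul_le_mul_right h9 (Real.exp_pos _)
  · intro x hx
    by_contra hne
    obtain ⟨C, hC1, hC2⟩ := hT.2 x hne
    have h1 : a ≤ Cᶜ.card := by
      rw [ha, Nat.ceil_le, card_compl, Fintype.card_fin, Nat.cast_sub]
      · linarith
      · exact (card_le_univ C).trans (by simp)
    obtain ⟨J, hJ1, hJ2⟩ := exists_subset_card_eq h1
    obtain ⟨e, he1, he2, he3⟩ := hx J hJ2
    rcases hC1 e he3 with h5 | h5
    · exact (mem_compl.1 (hJ1 he1)) h5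
    · exact (mem_compl.1 (hJ1 he2)) h5
  · intro x hx U hU hcov
    refine (hT.1 x ⟨U, hcov, ?_⟩) hx
    have h1 : (q : ℝ) * U.card ≤ 2 * (n * D) + q * (K * r) := by exact_mod_cast hU
    have h2 : (K : ℝ) * r ≤ δ / 2 * n := by
      calc (K : ℝ) * r ≤ K * (z * n) := mul_le_mul_of_nonneg_left hr1 hK0.le
        _ = K * z * n := by ring
        _ = _ := by rw [hzK]
    have h3 : 2 * ((n : ℝ) * D) ≤ q * (δ / 2 * n) := by
      calc 2 * ((n : ℝ) * D) ≤ 2 * (n * (3 * τ * n)) := by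
            apply mul_le_mul_of_nonneg_left _ (by norm_num)
            exact mul_le_mul_of_nonneg_left hD3 hn0.le
        _ ≤ ε ^ 2 * n / 16 * (δ / 2 * n) := by
            rw [hτ]
            have h4 : 0 < δ * ε ^ 2 * (n : ℝ) ^ 2 := by positivity
            nlinarith
        _ ≤ _ := mul_le_mul_of_nonneg_right hq3 (by positivity)
    have h4 : (q : ℝ) * U.card ≤ q * (δ * n) := by
      calc (q : ℝ) * U.card ≤ 2 * (n * D) + q * (K * r) := h1
        _ ≤ q * (δ / 2 * n) + q * (δ / 2 * n) :=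
            add_le_add h3 (mul_le_mul_of_nonneg_left h2 hq0.le)
        _ = _ := by ring
    exact le_of_mul_le_mul_left h4 hq0

/-- the bound for the circuits with all conditions on `n` -/
theorem circ_fix (δ ε τ β : ℝ) (K n : ℕ) (hδ : 0 < δ)
    (hδ1 : δ ≤ 1) (hε : 0 < ε) (hτ : τ = δ * ε ^ 2 / 512) (hβ : β = τ ^ 2) (hKpos : 1 ≤ K)
    (hK1 : 1 ≤ K * β) (hn1 : 1 ≤ n) (e0 : 2 ≤ n * δ) (e1 : 2 ≤ n * ε) (e2 : 1 ≤ n * β)
    (e3 : 4 * (K : ℝ) ^ 3 ≤ n) (l : List (Gate (Slot n))) (hl : Circ ⌊β * (n : ℝ) ^ 2⌋₊ l)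
    (g : Gate (Slot n)) (hg : g ∈ l) (hT : Tells g.2 (δ * n) ((1 - ε) * n)) :
    Real.exp (1 / (2 * K ^ 2) * n) ≤ l.length := by
  have hτ0 : 0 < τ := by rw [hτ]; positivity
  have hβ0 : 0 < β := by rw [hβ]; positivity
  have hK0 : (0 : ℝ) < K := by exact_mod_cast hKpos
  have hnR : (1 : ℝ) ≤ n := by exact_mod_cast hn1
  have hbR : 1 ≤ β * (n : ℝ) ^ 2 := by nlinarith
  have hb1 : 1 ≤ ⌊β * (n : ℝ) ^ 2⌋₊ := by
    rw [Nat.one_le_floor_iff]
    exact hbR
  have hb2 : (⌊β * (n : ℝ) ^ 2⌋₊ : ℝ) ≤ β * (n : ℝ) ^ 2 := Nat.floor_le (by positivity)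
  have hb3 : β * (n : ℝ) ^ 2 / 2 ≤ (⌊β * (n : ℝ) ^ 2⌋₊ : ℝ) := by
    have h1 := Nat.lt_floor_add_one (β * (n : ℝ) ^ 2)
    have h2 : (1 : ℝ) ≤ (⌊β * (n : ℝ) ^ 2⌋₊ : ℝ) := by exact_mod_cast hb1
    linarith
  have hmain := circ_bound2 n ⌊β * (n : ℝ) ^ 2⌋₊ K δ ε hδ hδ1 hε hn1 (by linarith) (by linarith)
    hb1 hKpos ?_ ?_ l hl g hg hT
  · refine le_trans (Real.exp_le_exp.2 ?_) hmain
    have h1 : 2 * (K : ℝ) ≤ n / (2 * K ^ 2) := by
      rw [le_div_iff₀ (by positivity)]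
      nlinarith
    have h2 : (n : ℝ) / K ^ 2 = n / (2 * K ^ 2) + n / (2 * K ^ 2) := by
      field_simp
      ring
    rw [h2]
    have h3 : 1 / (2 * (K : ℝ) ^ 2) * n = n / (2 * K ^ 2) := by ring
    rw [h3]
    linarith
  · have h1 : Real.sqrt (⌊β * (n : ℝ) ^ 2⌋₊ : ℝ) ≤ τ * n := by
      rw [show τ * (n : ℝ) = Real.sqrt ((τ * n) ^ 2) from (Real.sqrt_sq (by positivity)).symm]
      apply Real.sqrt_le_sqrt
      rw [mul_pow, ← hβ]
      exact hb2
    have h2 : 24 * τ ≤ δ * ε ^ 2 := by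
      rw [hτ]
      have : 0 < δ * ε ^ 2 := by positivity
      linarith
    calc 24 * Real.sqrt (⌊β * (n : ℝ) ^ 2⌋₊ : ℝ) ≤ 24 * (τ * n) := by linarith
      _ = 24 * τ * n := by ring
      _ ≤ _ := mul_le_mul_of_nonneg_right h2 (by positivity)
  · have h1 : (n : ℝ) ^ 2 ≤ K * β * n ^ 2 := by
      nlinarith [sq_nonneg (n : ℝ)]
    nlinarith

/-- explicit form -/
theorem circ_expl (hori : S_ORI) (hind : S_IND) (ε : ℝ) (hε : 0 < ε) (hε1 : ε ≤ 1) :
    ∃ c : ℝ, 0 < c ∧ ∃ M : ℝ, 0 < M ∧ ∀ δ : ℝ, 0 < δ → δ ≤ 1 → ∀ n : ℕ, M ≤ δ ^ 10 * n →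
      ∀ l : List (Gate (Slot n)), Circ ⌊c * δ ^ 2 * (n : ℝ) ^ 2⌋₊ l → ∀ g ∈ l,
        (Tells g.2 (δ * n) ((1 - ε) * n) ∨ Tells (fun x => ¬ g.2 x) (δ * n) ((1 - ε) * n)) →
          Real.exp (c * δ ^ 8 * n) ≤ l.length := by
  set e : ℝ := ε ^ 2 / 512 with he
  have he0 : 0 < e := by positivity
  have he1 : e ≤ 1 := by
    rw [he]
    nlinarith
  refine ⟨e ^ 6 / 256, by positivity, 1024 / e ^ 8, by positivity, ?_⟩
  intro δ hδ hδ1 n hM l hl g hg hT
  set τ : ℝ := δ * ε ^ 2 / 512 with hτ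
  have hτe : τ = δ * e := by rw [hτ, he]; ring
  set β : ℝ := τ ^ 2 with hβ
  have hβe : β = δ ^ 2 * e ^ 2 := by rw [hβ, hτe]; ring
  have hτ0 : 0 < τ := by positivity
  have hβ0 : 0 < β := by positivity
  set K : ℕ := ⌈1 / β⌉₊ with hK
  have hK1 : 1 / β ≤ K := Nat.le_ceil _
  have hKpos : 1 ≤ K := by
    rw [hK, Nat.one_le_ceil_iff]
    positivity
  have hK0 : (0 : ℝ) < K := by exact_mod_cast hKpos
  rw [div_le_iff₀ hβ0] at hK1
  have hβ1 : β ≤ 1 := by
    rw [hβe]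
    exact mul_le_one₀ (pow_le_one₀ hδ.le hδ1) (by positivity) (pow_le_one₀ he0.le he1)
  have hK2 : (K : ℝ) * β ≤ 2 := by
    have h1 : (K : ℝ) < 1 / β + 1 := Nat.ceil_lt_add_one (by positivity)
    have h2 : (K : ℝ) * β ≤ (1 / β + 1) * β := mul_le_mul_of_nonneg_right h1.le hβ0.le
    have h3 : (1 / β + 1) * β = 1 + β := by
      field_simp
    linarith
  -- `n` is large
  have hM2 : 1024 ≤ δ ^ 10 * n * e ^ 8 := by
    rwa [div_le_iff₀ (by positivity)] at hM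
  have hn0 : (0 : ℝ) < n := by
    by_contra h
    have : (n : ℝ) = 0 := le_antisymm (not_lt.1 h) (by positivity)
    rw [this] at hM2
    norm_num at hM2
  have hn1 : 1 ≤ n := by
    have : 0 < n := by exact_mod_cast hn0
    omega
  have hpow : ∀ a b : ℕ, a ≤ 10 → b ≤ 8 → 1024 ≤ n * (δ ^ a * e ^ b) := by
    intro a b ha hb
    have h1 : δ ^ 10 ≤ δ ^ a := pow_le_pow_of_le_one hδ.le hδ1 ha
    have h2 : e ^ 8 ≤ e ^ b := pow_le_pow_of_le_one he0.le he1 hb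
    calc 1024 ≤ δ ^ 10 * n * e ^ 8 := hM2
      _ = n * (δ ^ 10 * e ^ 8) := by ring
      _ ≤ _ := by
          apply mul_le_mul_of_nonneg_left _ hn0.le
          exact mul_le_mul h1 h2 (by positivity) (by positivity)
  have hlc : Circ ⌊β * (n : ℝ) ^ 2⌋₊ l := by
    refine circ_mono (Nat.floor_le_floor ?_) hl
    apply mul_le_mul_of_nonneg_right _ (by positivity)
    rw [hβe]
    have h1 : e ^ 6 / 256 ≤ e ^ 2 := by
      have h2 : e ^ 6 ≤ e ^ 2 := pow_le_pow_of_le_one he0.le he1 (by norm_num)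
      have h3 : 0 < e ^ 6 := by positivity
      linarith
    calc e ^ 6 / 256 * δ ^ 2 ≤ e ^ 2 * δ ^ 2 := mul_le_mul_of_nonneg_right h1 (by positivity)
      _ = _ := mul_comm _ _
  have heε : e ≤ ε := by
    rw [he]
    nlinarith
  have e0 : 2 ≤ n * δ := by
    have := hpow 1 0 (by norm_num) (by norm_num)
    simp only [pow_one, pow_zero, mul_one] at this
    linarith
  have e1 : 2 ≤ n * ε := by
    have h1 := hpow 0 1 (by norm_num) (by norm_num)
    simp only [pow_one, pow_zero, one_mul] at h1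
    have h2 : (n : ℝ) * e ≤ n * ε := mul_le_mul_of_nonneg_left heε hn0.le
    linarith
  have e2 : 1 ≤ n * β := by
    have h1 := hpow 2 2 (by norm_num) (by norm_num)
    rw [← hβe] at h1
    linarith
  have hKe : (K : ℝ) * (δ ^ 2 * e ^ 2) ≤ 2 := by
    rw [← hβe]
    exact hK2
  rcases hT with hT | hT
  · -- the circuits
    have e3 : 4 * (K : ℝ) ^ 3 ≤ n := by
      have h1 := hpow 6 6 (by norm_num) (by norm_num)
      have h2 : (K : ℝ) ^ 3 * (δ ^ 6 * e ^ 6) ≤ 8 := by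
        calc (K : ℝ) ^ 3 * (δ ^ 6 * e ^ 6) = (K * (δ ^ 2 * e ^ 2)) ^ 3 := by ring
          _ ≤ 2 ^ 3 := pow_le_pow_left₀ (by positivity) hKe 3
          _ = 8 := by norm_num
      have h3 : 4 * (K : ℝ) ^ 3 * (δ ^ 6 * e ^ 6) ≤ n * (δ ^ 6 * e ^ 6) := by linarith
      exact le_of_mul_le_mul_right h3 (by positivity)
    refine le_trans (Real.exp_le_exp.2 ?_) (circ_fix δ ε τ β K n hδ hδ1 hε rfl rfl hKpos hK1 hn1
      e0 e1 e2 e3 l hlc g hg hT)
    apply mul_le_mul_of_nonneg_right _ hn0.le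
    rw [le_div_iff₀ (by positivity)]
    have h2 : (K : ℝ) ^ 2 * (δ ^ 4 * e ^ 4) ≤ 4 := by
      calc (K : ℝ) ^ 2 * (δ ^ 4 * e ^ 4) = (K * (δ ^ 2 * e ^ 2)) ^ 2 := by ring
        _ ≤ 2 ^ 2 := pow_le_pow_left₀ (by positivity) hKe 2
        _ = 4 := by norm_num
    calc e ^ 6 / 256 * δ ^ 8 * (2 * (K : ℝ) ^ 2)
        = 2 / 256 * (K ^ 2 * (δ ^ 4 * e ^ 4)) * (δ ^ 4 * e ^ 2) := by ring
      _ ≤ 2 / 256 * 4 * 1 := by
          apply mul_le_mul _ _ (by positivity) (by norm_num)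
          · exact mul_le_mul_of_nonneg_left h2 (by norm_num)
          · exact mul_le_one₀ (pow_le_one₀ hδ.le hδ1) (by positivity) (pow_le_one₀ he0.le he1)
      _ ≤ 1 := by norm_num
  · -- the complements
    set z : ℝ := δ / (2 * K) with hz
    have hz0 : 0 < z := by positivity
    have hz1 : δ ^ 3 * e ^ 2 / 4 ≤ z := by
      rw [hz, le_div_iff₀ (by positivity)]
      calc δ ^ 3 * e ^ 2 / 4 * (2 * (K : ℝ)) = K * (δ ^ 2 * e ^ 2) * (δ / 2) := by ring
        _ ≤ 2 * (δ / 2) := mul_le_mul_of_nonneg_right hKe (by positivity)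
        _ = δ := by ring
    have hz2 : δ ^ 6 * e ^ 4 / 16 ≤ z ^ 2 := by
      calc δ ^ 6 * e ^ 4 / 16 = (δ ^ 3 * e ^ 2 / 4) ^ 2 := by ring
        _ ≤ z ^ 2 := pow_le_pow_left₀ (by positivity) hz1 2
    have e3 : 1 ≤ n * τ := by
      have h1 := hpow 1 1 (by norm_num) (by norm_num)
      simp only [pow_one] at h1
      rw [← hτe] at h1
      linarith
    have e4 : 8 ≤ n * ε ^ 2 := by
      have h1 := hpow 0 1 (by norm_num) (by norm_num)
      simp only [pow_one, pow_zero, one_mul] at h1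
      have h2 : e ≤ ε ^ 2 := by
        rw [he]
        have : 0 < ε ^ 2 := by positivity
        linarith
      have h3 : (n : ℝ) * e ≤ n * ε ^ 2 := mul_le_mul_of_nonneg_left h2 hn0.le
      linarith
    have e5 : 16 * (K : ℝ) ^ 2 ≤ n * z ^ 2 := by
      have h1 := hpow 10 8 le_rfl le_rfl
      have h2 : (K : ℝ) ^ 2 * (δ ^ 4 * e ^ 4) ≤ 4 := by
        calc (K : ℝ) ^ 2 * (δ ^ 4 * e ^ 4) = (K * (δ ^ 2 * e ^ 2)) ^ 2 := by ring
          _ ≤ 2 ^ 2 := pow_le_pow_left₀ (by positivity) hKe 2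
          _ = 4 := by norm_num
      have h3 : 16 * (K : ℝ) ^ 2 * (δ ^ 4 * e ^ 4) ≤ n * z ^ 2 * (δ ^ 4 * e ^ 4) := by
        calc 16 * (K : ℝ) ^ 2 * (δ ^ 4 * e ^ 4) ≤ 64 := by linarith
          _ ≤ n * (δ ^ 10 * e ^ 8) / 16 := by linarith
          _ = n * (δ ^ 6 * e ^ 4 / 16) * (δ ^ 4 * e ^ 4) := by ring
          _ ≤ _ := by
              apply mul_le_mul_of_nonneg_right _ (by positivity)
              exact mul_le_mul_of_nonneg_left hz2 hn0.le
      exact le_of_mul_le_mul_right h3 (by positivity)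
    have e6 : 8 * (K : ℝ) ≤ n * z ^ 2 := by
      have hK1R : (1 : ℝ) ≤ K := by exact_mod_cast hKpos
      nlinarith
    refine le_trans (Real.exp_le_exp.2 ?_) (cocirc_fix hori hind δ ε τ β z K n hδ hδ1 hε rfl rfl
      hKpos hK1 rfl hn1 e1 e2 e3 e4 e5 e6 l hlc g hg hT)
    apply mul_le_mul_of_nonneg_right _ hn0.le
    rw [le_div_iff₀ (by positivity)]
    calc e ^ 6 / 256 * δ ^ 8 * (8 * (K : ℝ))
        = 8 / 256 * (K * (δ ^ 2 * e ^ 2)) * (δ ^ 6 * e ^ 4) := by ring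
      _ ≤ 8 / 256 * 2 * (δ ^ 6 * e ^ 4) := by
          apply mul_le_mul_of_nonneg_right _ (by positivity)
          exact mul_le_mul_of_nonneg_left hKe (by norm_num)
      _ = δ ^ 6 * e ^ 4 / 16 := by ring
      _ ≤ _ := hz2

end Pool.Agent.K9h63.DV
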