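import Pool.Agent.K9h63.DV.Stm2

/-!
# Leaf IND: independent sets of random graphs
-/

set_option autoImplicit false

namespace Pool.Agent.K9h63.DV

open Finset

theorem ind_pow (n q W : ℕ) (hq : 1 ≤ q) (hW : (n + 1) * q ≤ W) :
    2 ^ (n + 1) * (q - 1) ^ W ≤ q ^ W := by
  have hq0 : (0 : ℝ) < q := by exact_mod_cast hq
  have h1 : ((q : ℝ) - 1) ≤ q * Real.exp (-(1 / q)) := by
    have h2 := Real.add_one_le_exp (-(1 / (q : ℝ)))
    calc (q : ℝ) - 1 = q * (-(1 / q) + 1) := by
          field_simp
          ring
      _ ≤ _ := mul_le_mul_of_nonneg_left h2 hq0.le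
  have hq1 : (0 : ℝ) ≤ (q : ℝ) - 1 := by
    have : (1 : ℝ) ≤ q := by exact_mod_cast hq
    linarith
  have h3 : ((q : ℝ) - 1) ^ W ≤ q ^ W * Real.exp (-(n + 1 : ℝ)) := by
    calc ((q : ℝ) - 1) ^ W ≤ (q * Real.exp (-(1 / q))) ^ W := pow_le_pow_left₀ hq1 h1 W
      _ = q ^ W * Real.exp (W * (-(1 / q))) := by
          rw [mul_pow, ← Real.exp_nat_mul]
      _ ≤ _ := by
          apply mul_le_mul_of_nonneg_left _ (by positivity)
          apply Real.exp_le_exp.2
          have h4 : ((n : ℝ) + 1) * q ≤ W := by exact_mod_cast hW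
          have h5 : (n : ℝ) + 1 ≤ W * (1 / q) := by
            rw [mul_one_div, le_div_iff₀ hq0]
            exact h4
          linarith
  have h4 : (2 : ℝ) ^ (n + 1) * Real.exp (-(n + 1 : ℝ)) ≤ 1 := by
    have h5 : (2 : ℝ) ≤ Real.exp 1 := by
      have := Real.add_one_le_exp (1 : ℝ)
      linarith
    calc (2 : ℝ) ^ (n + 1) * Real.exp (-(n + 1 : ℝ))
        ≤ Real.exp 1 ^ (n + 1) * Real.exp (-(n + 1 : ℝ)) :=
          mul_le_mul_of_nonneg_right (pow_le_pow_left₀ (by norm_num) h5 _) (Real.exp_pos _).le
      _ = 1 := by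
          rw [← Real.exp_nat_mul, ← Real.exp_add]
          push_cast
          simp
  have h6 : (2 : ℝ) ^ (n + 1) * ((q : ℝ) - 1) ^ W ≤ q ^ W := by
    calc (2 : ℝ) ^ (n + 1) * ((q : ℝ) - 1) ^ W
        ≤ 2 ^ (n + 1) * (q ^ W * Real.exp (-(n + 1 : ℝ))) :=
          mul_le_mul_of_nonneg_left h3 (by positivity)
      _ = q ^ W * (2 ^ (n + 1) * Real.exp (-(n + 1 : ℝ))) := by ring
      _ ≤ q ^ W * 1 := mul_le_mul_of_nonneg_left h4 (by positivity)
      _ = _ := mul_one _
  have h7 : ((q - 1 : ℕ) : ℝ) = (q : ℝ) - 1 := by
    rw [Nat.cast_sub hq, Nat.cast_one]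
  rw [← h7] at h6
  exact_mod_cast h6

/-- IND -/
theorem ind : S_IND := by
  classical
  intro n q a hq ha
  set N := Fintype.card (Slot n) with hN
  let bad : Finset (Fin n) → Finset (Slot n → Fin q) := fun J =>
    univ.filter fun w => ∀ e ∈ cntSlots J, (w e).1 ≠ 0
  have hbad : ∀ J : Finset (Fin n), J.card = a → 2 ^ (n + 1) * (bad J).card ≤ q ^ N := by
    intro J hJ
    set W := (cntSlots J).card with hW
    have hWq : (n + 1) * q ≤ W := by
      have h1 := card_cntSlots J
      rw [hJ] at h1
      have h2 : a * (a - 1) + a = a * a := by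
        rcases Nat.eq_zero_or_pos a with h | h
        · rw [h]
        · obtain ⟨a', rfl⟩ : ∃ a', a = a' + 1 := ⟨a - 1, by omega⟩
          rw [Nat.add_sub_cancel]
          ring
      have h3 : 2 * (n + 1) * q = 2 * ((n + 1) * q) := by ring
      omega
    have hWN : W ≤ N := card_le_univ _
    have h1 : bad J = Fintype.piFinset fun e => if e ∈ cntSlots J then
        (univ : Finset (Fin q)).filter (fun c => c.1 ≠ 0) else univ := by
      ext w
      simp only [bad, mem_filter, mem_univ, true_and, Fintype.mem_piFinset]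
      constructor
      · intro h e
        by_cases he : e ∈ cntSlots J
        · rw [if_pos he]
          exact mem_filter.2 ⟨mem_univ _, h e he⟩
        · rw [if_neg he]
          exact mem_univ _
      · intro h e he
        have := h e
        rw [if_pos he] at this
        exact (mem_filter.1 this).2
    have h2 : ((univ : Finset (Fin q)).filter fun c => c.1 ≠ 0).card = q - 1 := by
      have h3 : ((univ : Finset (Fin q)).filter fun c => c.1 ≠ 0) =
          univ.erase (⟨0, by omega⟩ : Fin q) := by
        ext c
        simp only [mem_filter, mem_univ, true_and, mem_erase, and_true, ne_eq, Fin.ext_iff]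
      rw [h3, card_erase_of_mem (mem_univ _), card_univ, Fintype.card_fin]
    have h3 : (bad J).card = (q - 1) ^ W * q ^ (N - W) := by
      rw [h1, Fintype.card_piFinset]
      have h4 : ∀ e : Slot n, (if e ∈ cntSlots J then
          (univ : Finset (Fin q)).filter (fun c => c.1 ≠ 0) else univ).card =
          if e ∈ cntSlots J then q - 1 else q := by
        intro e
        split_ifs
        · exact h2
        · simp
      rw [prod_congr rfl fun e _ => h4 e, prod_ite, prod_const, prod_const]
      congr 2
      · rw [hW]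
        congr 1
        ext e
        simp
      · have h5 := card_filter_add_card_filter_not (s := (univ : Finset (Slot n)))
          (fun e => e ∈ cntSlots J)
        have h6 : ((univ : Finset (Slot n)).filter fun e => e ∈ cntSlots J).card = W := by
          rw [hW]
          congr 1
          ext e
          simp
        rw [card_univ, ← hN] at h5
        omega
    calc 2 ^ (n + 1) * (bad J).card = 2 ^ (n + 1) * (q - 1) ^ W * q ^ (N - W) := by
          rw [h3]
          ring
      _ ≤ q ^ W * q ^ (N - W) := Nat.mul_le_mul_right _ (ind_pow n q W hq hWq)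
      _ = q ^ N := by
          rw [← pow_add]
          congr 1
          omega
  have hsub : {w : Slot n → Fin q | ∃ J : Finset (Fin n), J.card = a ∧
      ∀ e : Slot n, e.1.1 ∈ J → e.1.2 ∈ J → (w e).1 ≠ 0} ⊆
      ((((univ : Finset (Finset (Fin n))).filter fun J => J.card = a).biUnion bad :
        Finset (Slot n → Fin q)) : Set (Slot n → Fin q)) := by
    rintro w ⟨J, hJ, hw⟩
    rw [mem_coe, mem_biUnion]
    refine ⟨J, mem_filter.2 ⟨mem_univ _, hJ⟩, ?_⟩
    simp only [bad, mem_filter, mem_univ, true_and]
    intro e he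
    simp only [cntSlots, mem_filter, mem_univ, true_and] at he
    exact hw e he.1 he.2
  have h1 := Set.ncard_le_ncard hsub (Set.toFinite _)
  rw [Set.ncard_coe_finset] at h1
  have h2 : 2 ^ n * (2 * (((univ : Finset (Finset (Fin n))).filter
      fun J => J.card = a).biUnion bad).card) ≤ 2 ^ n * q ^ N := by
    calc 2 ^ n * (2 * (((univ : Finset (Finset (Fin n))).filter
          fun J => J.card = a).biUnion bad).card)
        ≤ 2 ^ n * (2 * ∑ J ∈ (univ : Finset (Finset (Fin n))).filter fun J => J.card = a,
            (bad J).card) := by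
          apply Nat.mul_le_mul_left
          apply Nat.mul_le_mul_left
          exact card_biUnion_le
      _ = ∑ J ∈ (univ : Finset (Finset (Fin n))).filter fun J => J.card = a,
            2 ^ (n + 1) * (bad J).card := by
          rw [← mul_sum]
          ring
      _ ≤ ∑ J ∈ (univ : Finset (Finset (Fin n))).filter fun J => J.card = a, q ^ N :=
          sum_le_sum fun J hJ => hbad J (mem_filter.1 hJ).2
      _ ≤ 2 ^ n * q ^ N := by
          rw [sum_const, smul_eq_mul]
          apply Nat.mul_le_mul_right
          refine (card_filter_le _ _).trans ?_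
          simp
  have h3 := Nat.le_of_mul_le_mul_left h2 (by positivity)
  exact (Nat.mul_le_mul_left 2 h1).trans h3

end Pool.Agent.K9h63.DV
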