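import Pool.Agent.K9h63.DV.Stm

/-!
# Leaf THR: rectangles for `k` parties with covers of less than `k t` vertices
-/

set_option autoImplicit false

namespace Pool.Agent.K9h63.DV

open Finset

/-- part (1) of the proof of THR -/
theorem thr_cover {n k t : ℕ} {part : Slot n → Fin k} (hdeg : ∀ v j, k * t < deg part j v)
    (T : Fin k → Finset (Fin n)) (C : Finset (Fin n)) (hC : C.card ≤ k * t)
    (hcov : IsCover (fun e => star (T (part e)) e) C) : univ.biUnion T ⊆ C := by
  intro v hv
  rw [mem_biUnion] at hv
  obtain ⟨j, _, hj⟩ := hv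
  by_contra hvC
  have h1 : deg part j v ≤ C.card := by
    unfold deg
    refine card_le_card_of_injOn (fun e : Slot n => if e.1.1 = v then e.1.2 else e.1.1) ?_ ?_
    · intro e he
      simp only [coe_filter, mem_univ, true_and, Set.mem_setOf_eq] at he
      obtain ⟨h2, h3⟩ := he
      have h4 : star (T (part e)) e = true := by
        rw [h2]
        simp only [star, decide_eq_true_eq]
        rcases h3 with h3 | h3
        · exact Or.inl (by rw [h3]; exact hj)
        · exact Or.inr (by rw [h3]; exact hj)
      have h5 := hcov e h4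
      simp only [mem_coe]
      split_ifs with h6
      · rcases h5 with h5 | h5
        · rw [h6] at h5
          exact absurd h5 hvC
        · exact h5
      · rcases h5 with h5 | h5
        · exact h5
        · rcases h3 with h3 | h3
          · exact absurd h3 h6
          · rw [h3] at h5
            exact absurd h5 hvC
    · intro e he f hf hef
      simp only [coe_filter, mem_univ, true_and, Set.mem_setOf_eq] at he hf
      obtain ⟨_, h3⟩ := he
      obtain ⟨_, h4⟩ := hf
      have he' := e.2
      have hf' := f.2
      dsimp only at hef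
      apply Subtype.ext
      apply Prod.ext
      · split_ifs at hef with h5 h6 h6
        · rw [h5, h6]
        · rcases h4 with h4 | h4
          · exact absurd h4 h6
          · rw [hef, h5] at he'
            rw [h4] at hf'
            exact absurd he' (not_lt.2 hf'.le)
        · rcases h3 with h3 | h3
          · exact absurd h3 h5
          · rw [h3, hef] at he'
            rw [h6] at hf'
            exact absurd he' (not_lt.2 hf'.le)
        · exact hef
      · split_ifs at hef with h5 h6 h6
        · exact hef
        · rcases h4 with h4 | h4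
          · exact absurd h4 h6
          · rw [hef, h5] at he'
            rw [h4] at hf'
            exact absurd he' (not_lt.2 hf'.le)
        · rcases h3 with h3 | h3
          · exact absurd h3 h5
          · rw [h3, hef] at he'
            rw [h6] at hf'
            exact absurd he' (not_lt.2 hf'.le)
        · rcases h3 with h3 | h3
          · exact absurd h3 h5
          · rcases h4 with h4 | h4
            · exact absurd h4 h6
            · rw [h3, h4]
  have := hdeg v j
  omega

theorem thr_choose_step (n i t : ℕ) (h1 : i < t) (h2 : t ≤ n) :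
    (n.choose i : ℝ) * (((n : ℝ) - t) / t) ≤ (n.choose (i + 1) : ℝ) := by
  have ht : (0 : ℝ) < t := by
    have : 0 < t := by omega
    exact_mod_cast this
  have h3 : (n.choose (i + 1) : ℝ) * (i + 1) = (n.choose i : ℝ) * (n - i) := by
    have := Nat.choose_succ_right_eq n i
    have h4 : ((n - i : ℕ) : ℝ) = (n : ℝ) - i := Nat.cast_sub (by omega)
    rw [← h4]
    exact_mod_cast this
  have h5 : (i : ℝ) + 1 ≤ t := by exact_mod_cast h1
  have h6 : (t : ℝ) ≤ n := by exact_mod_cast h2
  rw [← mul_div_assoc, div_le_iff₀ ht]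
  calc (n.choose i : ℝ) * ((n : ℝ) - t) ≤ (n.choose i : ℝ) * (n - i) := by
        apply mul_le_mul_of_nonneg_left _ (by positivity)
        linarith
    _ = (n.choose (i + 1) : ℝ) * (i + 1) := h3.symm
    _ ≤ _ := mul_le_mul_of_nonneg_left h5 (by positivity)

theorem thr_choose (n t : ℕ) (h2 : t ≤ n) : ∀ d : ℕ, d ≤ t →
    (n.choose (t - d) : ℝ) * (((n : ℝ) - t) / t) ^ d ≤ (n.choose t : ℝ) := by
  intro d
  have hq : 0 ≤ ((n : ℝ) - t) / t := by
    apply div_nonneg _ (by positivity)
    have : (t : ℝ) ≤ n := by exact_mod_cast h2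
    linarith
  induction d with
  | zero =>
    intro _
    simp
  | succ d ih =>
    intro hd
    have h3 := thr_choose_step n (t - (d + 1)) t (by omega) h2
    rw [show t - (d + 1) + 1 = t - d by omega] at h3
    calc (n.choose (t - (d + 1)) : ℝ) * (((n : ℝ) - t) / t) ^ (d + 1)
        = (n.choose (t - (d + 1)) : ℝ) * (((n : ℝ) - t) / t) * (((n : ℝ) - t) / t) ^ d := by ring
      _ ≤ (n.choose (t - d) : ℝ) * (((n : ℝ) - t) / t) ^ d :=
          mul_le_mul_of_nonneg_right h3 (by positivity)
      _ ≤ _ := ih (by omega)

/-- THR -/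
theorem thr : S_THR := by
  classical
  intro n k t c hk hc1 hck ht h2t hq part hdeg R hR hcov
  set F : Finset (Finset (Fin n)) := univ.filter fun T => T.card = t ∧ R (star T) with hF
  have hncard : {T : Finset (Fin n) | T.card = t ∧ R (star T)}.ncard = F.card := by
    rw [← Set.ncard_coe_finset]
    congr 1
    ext T
    simp [hF]
  rw [hncard]
  rcases F.eq_empty_or_nonempty with hE | ⟨T₀, hT₀⟩
  · rw [hE]
    simp
  have hFt : ∀ T ∈ F, T.card = t := fun T hT => (mem_filter.1 hT).2.1
  have htR : (0 : ℝ) < t := by exact_mod_cast ht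
  have hkR : (1 : ℝ) < k := by exact_mod_cast hk
  have hk1 : (0 : ℝ) < (k : ℝ) - 1 := by linarith
  -- (1)
  have hU : ∀ T : Fin k → Finset (Fin n), (∀ j, T j ∈ F) →
      ((univ.biUnion T).card : ℝ) ≤ c * t := by
    intro T hT
    have h1 := hR (fun j => star (T j)) fun j => (mem_filter.1 (hT j)).2.2
    obtain ⟨C, hC1, hC2⟩ := hcov _ h1
    have h2 : C.card ≤ k * t := by
      have h3 : (C.card : ℝ) ≤ k * t :=
        hC2.trans (mul_le_mul_of_nonneg_right hck.le (by positivity))
      exact_mod_cast h3
    have h4 := card_le_card (thr_cover hdeg T C h2 hC1)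
    refine le_trans ?_ hC2
    exact_mod_cast h4
  -- (2)
  set lam : ℝ := (c - 1) / (k - 1) with hlam
  have hlam0 : 0 ≤ lam := div_nonneg (by linarith) hk1.le
  have hex : ∃ U : Finset (Fin n), U.card ≤ k * t ∧ ∀ T ∈ F, ((T \ U).card : ℝ) ≤ lam * t := by
    by_contra hne
    push Not at hne
    have claim : ∀ i : ℕ, i + 1 ≤ k → ∃ T : Fin (i + 1) → Finset (Fin n), (∀ j, T j ∈ F) ∧
        (t : ℝ) + i * (lam * t) ≤ ((univ.biUnion T).card : ℝ) ∧
        (1 ≤ i → (t : ℝ) + i * (lam * t) < ((univ.biUnion T).card : ℝ)) := by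
      intro i
      induction i with
      | zero =>
        intro _
        refine ⟨fun _ => T₀, fun _ => hT₀, ?_, by omega⟩
        simp [hFt T₀ hT₀]
      | succ i ih =>
        intro hi
        obtain ⟨T, h1, h2, _⟩ := ih (by omega)
        have h4 : (univ.biUnion T).card ≤ k * t := by
          refine card_biUnion_le.trans ?_
          calc ∑ j, (T j).card = ∑ j : Fin (i + 1), t := sum_congr rfl fun j _ => hFt _ (h1 j)
            _ = (i + 1) * t := by simp
            _ ≤ k * t := Nat.mul_le_mul_right _ (by omega)
        obtain ⟨T', h5, h6⟩ := hne _ h4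
        have h7 : (t : ℝ) + (i + 1 : ℕ) * (lam * t) <
            ((univ.biUnion (Fin.cons T' T : Fin (i + 2) → Finset (Fin n))).card : ℝ) := by
          have h8 : univ.biUnion (Fin.cons T' T : Fin (i + 2) → Finset (Fin n)) =
              (T' \ univ.biUnion T) ∪ univ.biUnion T := by
            ext v
            simp only [mem_biUnion, mem_univ, true_and, mem_union, mem_sdiff, Fin.exists_fin_succ,
              Fin.cons_zero, Fin.cons_succ]
            tauto
          rw [h8, card_union_of_disjoint sdiff_disjoint]
          push_cast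
          nlinarith
        exact ⟨Fin.cons T' T, Fin.cases h5 h1, h7.le, fun _ => h7⟩
    obtain ⟨k', rfl⟩ : ∃ k', k = k' + 1 := ⟨k - 1, by omega⟩
    obtain ⟨T, h1, _, h3⟩ := claim k' le_rfl
    have h4 := hU T h1
    have h5 := h3 (by omega)
    have h6 : (k' : ℝ) * lam = c - 1 := by
      rw [hlam]
      push_cast at hk1 ⊢
      field_simp
      ring
    have h7 : (t : ℝ) + k' * (lam * t) = c * t := by
      rw [← mul_assoc, h6]
      ring
    linarith
  obtain ⟨U, hU1, hU2⟩ := hex
  -- (3)
  set L := ⌊lam * t⌋₊ with hL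
  have hlam1 : lam ≤ 1 := by
    rw [hlam, div_le_one hk1]
    linarith
  have hLt : L ≤ t := by
    rw [hL]
    apply Nat.floor_le_of_le
    nlinarith
  have hcount : F.card ≤ 2 ^ (k * t) * ∑ m ∈ range (L + 1), n.choose m := by
    have h1 : F.card ≤ (U.powerset ×ˢ
        ((range (L + 1)).biUnion fun m => powersetCard m (univ : Finset (Fin n)))).card := by
      refine card_le_card_of_injOn (fun T => (T ∩ U, T \ U)) ?_ ?_
      · intro T hT
        simp only [mem_coe] at hT
        simp only [coe_product, Set.mem_prod, mem_coe, mem_powerset, mem_biUnion, mem_range,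
          mem_powersetCard]
        refine ⟨inter_subset_right, (T \ U).card, ?_, subset_univ _, rfl⟩
        have := Nat.le_floor (hU2 T hT)
        omega
      · intro T _ T' _ h
        simp only [Prod.mk.injEq] at h
        rw [← sdiff_union_inter T U, ← sdiff_union_inter T' U, h.1, h.2]
    refine h1.trans ?_
    rw [card_product, card_powerset]
    apply Nat.mul_le_mul
    · exact Nat.pow_le_pow_right (by norm_num) hU1
    · refine card_biUnion_le.trans (le_of_eq ?_)
      exact sum_congr rfl fun m _ => by simp
  have hch : ∀ m ∈ range (L + 1), n.choose m * 2 ^ ((k + 2) * t) ≤ n.choose t := by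
    intro m hm
    rw [mem_range] at hm
    have hmt : m ≤ t := by omega
    have hq1 : 1 ≤ ((n : ℝ) - t) / t := by
      rw [le_div_iff₀ htR]
      have : (2 : ℝ) * t ≤ n := by exact_mod_cast h2t
      linarith
    have hmL : (m : ℝ) ≤ lam * t := by
      have h1 : (m : ℝ) ≤ L := by exact_mod_cast Nat.lt_succ_iff.1 hm
      exact h1.trans (Nat.floor_le (by positivity))
    have h1 : (2 : ℝ) ^ ((k + 2) * t) ≤ (((n : ℝ) - t) / t) ^ (t - m) := by
      rw [pow_mul]
      calc ((2 : ℝ) ^ (k + 2)) ^ t ≤ ((((n : ℝ) - t) / t) ^ (((k : ℝ) - c) / (k - 1))) ^ t :=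
            pow_le_pow_left₀ (by positivity) hq t
        _ = (((n : ℝ) - t) / t) ^ ((((k : ℝ) - c) / (k - 1)) * t) := by
            rw [Real.rpow_mul (by positivity), Real.rpow_natCast]
        _ ≤ (((n : ℝ) - t) / t) ^ ((t - m : ℕ) : ℝ) := by
            apply Real.rpow_le_rpow_of_exponent_le hq1
            rw [Nat.cast_sub hmt]
            have h2 : ((k : ℝ) - c) / (k - 1) = 1 - lam := by
              rw [hlam]
              field_simp
              ring
            rw [h2]
            linarith
        _ = _ := Real.rpow_natCast _ _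
    have h3 := thr_choose n t (by omega) (t - m) (by omega)
    rw [show t - (t - m) = m by omega] at h3
    have h4 : (n.choose m : ℝ) * 2 ^ ((k + 2) * t) ≤ n.choose t :=
      (mul_le_mul_of_nonneg_left h1 (by positivity)).trans h3
    exact_mod_cast h4
  have hsum : (∑ m ∈ range (L + 1), n.choose m) * 2 ^ ((k + 2) * t) ≤ 2 ^ t * n.choose t := by
    rw [sum_mul]
    refine (sum_le_sum hch).trans ?_
    rw [sum_const, card_range, smul_eq_mul]
    apply Nat.mul_le_mul_right
    have : t < 2 ^ t := Nat.lt_two_pow_self
    omega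
  have hfin : F.card * 2 ^ ((k + 2) * t) ≤ 2 ^ (k * t) * (2 ^ t * n.choose t) := by
    calc F.card * 2 ^ ((k + 2) * t)
        ≤ 2 ^ (k * t) * (∑ m ∈ range (L + 1), n.choose m) * 2 ^ ((k + 2) * t) :=
          Nat.mul_le_mul_right _ hcount
      _ = 2 ^ (k * t) * ((∑ m ∈ range (L + 1), n.choose m) * 2 ^ ((k + 2) * t)) := by ring
      _ ≤ _ := Nat.mul_le_mul_left _ hsum
  have hpos : 0 < 2 ^ (k * t) * 2 ^ t := by positivity
  have h5 : (2 ^ (k * t) * 2 ^ t) * (F.card * 2 ^ t) ≤ (2 ^ (k * t) * 2 ^ t) * n.choose t := by
    calc (2 ^ (k * t) * 2 ^ t) * (F.card * 2 ^ t) = F.card * 2 ^ ((k + 2) * t) := by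
          rw [show (k + 2) * t = k * t + t + t by ring, pow_add, pow_add]
          ring
      _ ≤ _ := hfin
      _ = _ := by ring
  exact Nat.le_of_mul_le_mul_left h5 hpos

end Pool.Agent.K9h63.DV
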