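import Pool.Agent.K9h63.DV.Dec
import Pool.Agent.K9h63.DV.Cnt
import Pool.Agent.K9h63.DV.Thr

/-!
# Assembly
-/

set_option autoImplicit false

namespace Pool.Agent.K9h63.DV

open Finset

theorem star_hasCover {n : ℕ} (T : Finset (Fin n)) (s : ℝ) (h : (T.card : ℝ) ≤ s) :
    HasCover (star T) s :=
  ⟨T, fun e he => by simpa [star] using he, h⟩

/-- pigeonhole: one of the sets contains `star T` for many sets `T` -/
theorem exists_many {n t : ℕ} (ht : t ≤ n) {ι : Type} [Fintype ι] (R : ι → Gr n → Prop)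
    (h : ∀ T : Finset (Fin n), T.card = t → ∃ i, R i (star T)) :
    ∃ i, n.choose t ≤
      Fintype.card ι * {T : Finset (Fin n) | T.card = t ∧ R i (star T)}.ncard := by
  classical
  set F : ι → Finset (Finset (Fin n)) := fun i => univ.filter fun T => T.card = t ∧ R i (star T)
    with hF
  have hncard : ∀ i, {T : Finset (Fin n) | T.card = t ∧ R i (star T)}.ncard = (F i).card := by
    intro i
    rw [← Set.ncard_coe_finset]
    congr 1
    ext T
    simp [hF]
  have h1 : n.choose t ≤ ∑ i, (F i).card := by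
    have h2 : (powersetCard t (univ : Finset (Fin n))).card = n.choose t := by simp
    rw [← h2]
    refine (card_le_card ?_).trans card_biUnion_le
    intro T hT
    rw [mem_powersetCard] at hT
    obtain ⟨i, hi⟩ := h T hT.2
    rw [mem_biUnion]
    exact ⟨i, mem_univ _, by simp [hF, hT.2, hi]⟩
  have hne : (univ : Finset ι).Nonempty := by
    rw [nonempty_iff_ne_empty]
    intro he
    rw [he, sum_empty] at h1
    have := Nat.choose_pos ht
    omega
  obtain ⟨i, _, hi⟩ := exists_max_image univ (fun i => (F i).card) hne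
  refine ⟨i, ?_⟩
  rw [hncard]
  refine h1.trans ((sum_le_card_nsmul univ _ _ fun j _ => hi j (mem_univ _)).trans ?_)
  rw [smul_eq_mul, card_univ]

/-- the explicit inequality for decomposable circuits -/
theorem circ_bound (n t a b K : ℕ) (ha : 2 ≤ a) (hb : 1 ≤ b) (ht : t ≤ n) (hK : 1 ≤ K)
    (hKb : Fintype.card (Slot n) ≤ K * b) (l : List (Gate (Slot n))) (hl : Circ b l)
    (g : Gate (Slot n)) (hg : g ∈ l) (h1 : ∀ T : Finset (Fin n), T.card = t → g.2 (star T))
    (h2 : ∀ x, g.2 x → ∃ J : Finset (Fin n), J.card = a ∧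
      ∀ e : Slot n, e.1.1 ∈ J → e.1.2 ∈ J → x e = false) :
    Real.exp ((t : ℝ) / n * (a * (a - 1) / (2 * Real.sqrt b))) ≤
      2 ^ n * (((4 ^ K * l.length : ℝ)) ^ (2 * K)) ^ K := by
  obtain ⟨ι, fι, R, part, q1, q2, q3, q4, q5⟩ := dec (Slot n) b l hb hl g hg K hK
    ((card_le_univ _).trans hKb)
  obtain ⟨i, hi⟩ := exists_many ht R fun T hT => q5 _ (h1 T hT)
  have h3 := cnt n t a b K ha hb ht (R i) (part i) (q2 i) (q3 i) fun x hx => h2 x (q4 i x hx)
  set c := {T : Finset (Fin n) | T.card = t ∧ R i (star T)}.ncard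
  set X := (t : ℝ) / n * (a * (a - 1) / (2 * Real.sqrt b))
  have hC : (0 : ℝ) < (n.choose t : ℝ) := by exact_mod_cast Nat.choose_pos ht
  have h4 : (n.choose t : ℝ) ≤ Fintype.card ι * c := by exact_mod_cast hi
  have h5 : (n.choose t : ℝ) ^ K ≤ (Fintype.card ι : ℝ) ^ K * (2 ^ n * Real.exp (-X) *
      (n.choose t : ℝ) ^ K) :=
    calc (n.choose t : ℝ) ^ K ≤ (Fintype.card ι * c : ℝ) ^ K := pow_le_pow_left₀ hC.le h4 K
      _ = (Fintype.card ι : ℝ) ^ K * (c : ℝ) ^ K := mul_pow _ _ _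
      _ ≤ _ := mul_le_mul_of_nonneg_left h3 (by positivity)
  have h6 : (1 : ℝ) ≤ (Fintype.card ι : ℝ) ^ K * (2 ^ n * Real.exp (-X)) := by
    have h7 : (0 : ℝ) < (n.choose t : ℝ) ^ K := by positivity
    have h8 : 1 * (n.choose t : ℝ) ^ K ≤
        ((Fintype.card ι : ℝ) ^ K * (2 ^ n * Real.exp (-X))) * (n.choose t : ℝ) ^ K := by
      rw [one_mul]
      calc _ ≤ _ := h5
        _ = _ := by ring
    exact le_of_mul_le_mul_right h8 h7
  have h9 : Real.exp X ≤ 2 ^ n * (Fintype.card ι : ℝ) ^ K := by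
    have h10 : Real.exp X * 1 ≤
        Real.exp X * ((Fintype.card ι : ℝ) ^ K * (2 ^ n * Real.exp (-X))) :=
      mul_le_mul_of_nonneg_left h6 (Real.exp_pos _).le
    have h11 : Real.exp X * ((Fintype.card ι : ℝ) ^ K * (2 ^ n * Real.exp (-X))) =
        2 ^ n * (Fintype.card ι : ℝ) ^ K := by
      rw [Real.exp_neg]
      field_simp
    rw [h11, mul_one] at h10
    exact h10
  refine h9.trans ?_
  apply mul_le_mul_of_nonneg_left _ (by positivity)
  apply pow_le_pow_left₀ (by positivity)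
  exact_mod_cast q1

theorem circ_mono {E : Type} [DecidableEq E] {b b' : ℕ} (h : b ≤ b') {l : List (Gate E)}
    (hl : Circ b l) : Circ b' l := by
  induction hl with
  | nil => exact .nil
  | leaf l D f _ hD hf ih => exact .leaf l D f ih (hD.trans h) hf
  | and l g g' _ hg hg' hd ih => exact .and l g g' ih hg hg' hd
  | or l g g' _ hg hg' ih => exact .or l g g' ih hg hg'

theorem two_mul_card_slot (n : ℕ) : 2 * Fintype.card (Slot n) + n = n * n := by
  have := card_cntSlots (univ : Finset (Fin n))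
  rw [card_univ, Fintype.card_fin] at this
  have h2 : cntSlots (univ : Finset (Fin n)) = univ := by
    ext e
    simp [cntSlots]
  rw [h2, card_univ] at this
  exact this

/-- the bound in a convenient form -/
theorem circ_bound2 (n b K : ℕ) (δ ε : ℝ) (hδ : 0 < δ) (hδ1 : δ ≤ 1) (hε : 0 < ε) (hn : 1 ≤ n)
    (hδn : 2 ≤ δ * n) (hεn : 2 ≤ ε * n) (hb : 1 ≤ b) (hK : 1 ≤ K)
    (hbn : 24 * Real.sqrt b ≤ δ * ε ^ 2 * n)
    (hKb : (n : ℝ) ^ 2 ≤ 2 * (K * b)) (l : List (Gate (Slot n))) (hl : Circ b l)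
    (g : Gate (Slot n)) (hg : g ∈ l) (hT : Tells g.2 (δ * n) ((1 - ε) * n)) :
    Real.exp (n / K ^ 2 - 2 * K) ≤ l.length := by
  have hn0 : (0 : ℝ) < n := by exact_mod_cast hn
  have hK0 : (0 : ℝ) < K := by exact_mod_cast hK
  set t := ⌊δ * n⌋₊ with ht
  set a := ⌈ε * n⌉₊ with ha
  have ht1 : (t : ℝ) ≤ δ * n := Nat.floor_le (by positivity)
  have ht2 : δ * n / 2 ≤ t := by
    have := Nat.lt_floor_add_one (δ * n)
    rw [← ht] at this
    linarith
  have htn : t ≤ n := by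
    have : (t : ℝ) ≤ n := ht1.trans (by nlinarith)
    exact_mod_cast this
  have ha1 : ε * n ≤ a := Nat.le_ceil _
  have ha2 : 2 ≤ a := by
    have : (2 : ℝ) ≤ a := hεn.trans ha1
    exact_mod_cast this
  have hcard : Fintype.card (Slot n) ≤ K * b := by
    have h1 := two_mul_card_slot n
    have h2 : 2 * Fintype.card (Slot n) ≤ 2 * (K * b) := by
      have h3 : (n : ℝ) * n ≤ 2 * (K * b) := by
        rw [← sq]
        exact hKb
      have h4 : n * n ≤ 2 * (K * b) := by exact_mod_cast h3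
      omega
    omega
  have hmain := circ_bound n t a b K ha2 hb htn hK hcard l hl g hg
    (fun T hT' => hT.1 _ (star_hasCover T _ (by rw [hT']; exact ht1)))
    (fun x hx => by
      obtain ⟨C, hC1, hC2⟩ := hT.2 x hx
      have h1 : a ≤ Cᶜ.card := by
        rw [ha, Nat.ceil_le, card_compl, Fintype.card_fin, Nat.cast_sub]
        · linarith
        · exact (card_le_univ C).trans (by simp)
      obtain ⟨J, hJ1, hJ2⟩ := exists_subset_card_eq h1
      refine ⟨J, hJ2, fun e h3 h4 => ?_⟩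
      by_contra hne
      rw [Bool.not_eq_false] at hne
      rcases hC1 e hne with h5 | h5
      · exact (mem_compl.1 (hJ1 h3)) h5
      · exact (mem_compl.1 (hJ1 h4)) h5)
  have hX : 3 * (n : ℝ) ≤ (t : ℝ) / n * (a * (a - 1) / (2 * Real.sqrt b)) := by
    have hs : 0 < Real.sqrt b := Real.sqrt_pos.2 (by exact_mod_cast hb)
    have h1 : δ / 2 ≤ (t : ℝ) / n := by
      rw [le_div_iff₀ hn0]
      linarith
    have h2 : ε ^ 2 * n ^ 2 / 2 ≤ (a : ℝ) * (a - 1) := by nlinarith
    have h3 : 6 * (n : ℝ) / δ ≤ a * (a - 1) / (2 * Real.sqrt b) := by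
      rw [div_le_div_iff₀ hδ (by positivity)]
      have h4 : 6 * (n : ℝ) * (2 * Real.sqrt b) ≤ n * (δ * ε ^ 2 * n) / 2 := by nlinarith
      nlinarith
    calc 3 * (n : ℝ) = δ / 2 * (6 * (n : ℝ) / δ) := by
          field_simp
          ring
      _ ≤ _ := mul_le_mul h1 h3 (by positivity) (by positivity)
  have h1 : Real.exp (3 * n) ≤ 2 ^ n * (((4 ^ K * l.length : ℝ)) ^ (2 * K)) ^ K :=
    (Real.exp_le_exp.2 hX).trans hmain
  have h2 : (2 : ℝ) ^ n ≤ Real.exp n := by
    rw [← Real.exp_one_pow]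
    apply pow_le_pow_left₀ (by norm_num)
    have := Real.add_one_le_exp (1 : ℝ)
    linarith
  have h3 : Real.exp (2 * n) ≤ ((4 ^ K * l.length : ℝ)) ^ (2 * K ^ 2) := by
    have h4 : Real.exp n * Real.exp (2 * n) ≤
        Real.exp n * ((4 ^ K * l.length : ℝ)) ^ (2 * K ^ 2) := by
      rw [← Real.exp_add]
      calc Real.exp ((n : ℝ) + 2 * n) = Real.exp (3 * n) := by ring_nf
        _ ≤ _ := h1
        _ = 2 ^ n * ((4 ^ K * l.length : ℝ)) ^ (2 * K ^ 2) := by
            rw [← pow_mul]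
            congr 2
            ring
        _ ≤ _ := mul_le_mul_of_nonneg_right h2 (by positivity)
    exact le_of_mul_le_mul_left h4 (Real.exp_pos _)
  have h5 : Real.exp (n / K ^ 2) ≤ 4 ^ K * l.length := by
    have h6 : Real.exp (n / K ^ 2) ^ (2 * K ^ 2) = Real.exp (2 * n) := by
      rw [← Real.exp_nat_mul]
      congr 1
      push_cast
      field_simp
    rw [← h6] at h3
    exact le_of_pow_le_pow_left₀ (by positivity) (by positivity) h3
  have h7 : (4 : ℝ) ^ K ≤ Real.exp (2 * K) := by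
    have h8 : (4 : ℝ) ≤ Real.exp 2 := by
      have h9 := Real.add_one_le_exp (1 : ℝ)
      have h10 : Real.exp 2 = Real.exp 1 * Real.exp 1 := by
        rw [← Real.exp_add]
        norm_num
      rw [h10]
      nlinarith
    calc (4 : ℝ) ^ K ≤ Real.exp 2 ^ K := pow_le_pow_left₀ (by norm_num) h8 K
      _ = Real.exp (2 * K) := by
          rw [← Real.exp_nat_mul]
          congr 1
          ring
  have h8 : Real.exp (n / K ^ 2 - 2 * K) * Real.exp (2 * K) ≤ l.length * Real.exp (2 * K) := by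
    rw [← Real.exp_add, sub_add_cancel]
    calc Real.exp ((n : ℝ) / K ^ 2) ≤ 4 ^ K * l.length := h5
      _ ≤ Real.exp (2 * K) * l.length := mul_le_mul_of_nonneg_right h7 (by positivity)
      _ = _ := mul_comm _ _
  exact le_of_mul_le_mul_right h8 (Real.exp_pos _)

/-- no constant ratio -/
theorem circ_const (δ ε : ℝ) (hδ : 0 < δ) (hδ1 : δ ≤ 1) (hε : 0 < ε) (hε1 : ε ≤ 1) :
    ∃ β : ℝ, 0 < β ∧ ∃ κ : ℝ, 0 < κ ∧ ∃ n₀ : ℕ, ∀ n : ℕ, n₀ ≤ n →
      ∀ l : List (Gate (Slot n)), Circ ⌊β * (n : ℝ) ^ 2⌋₊ l → ∀ g ∈ l,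
        Tells g.2 (δ * n) ((1 - ε) * n) → Real.exp (κ * n) ≤ l.length := by
  set β : ℝ := (δ * ε ^ 2 / 24) ^ 2 with hβ
  have hβ0 : 0 < β := by positivity
  set K : ℕ := ⌈1 / β⌉₊ with hK
  have hK1 : 1 / β ≤ K := Nat.le_ceil _
  have hKpos : 1 ≤ K := by
    rw [hK, Nat.one_le_ceil_iff]
    positivity
  have hK0 : (0 : ℝ) < K := by exact_mod_cast hKpos
  refine ⟨β, hβ0, 1 / (2 * K ^ 2), by positivity,
    ⌈2 / δ⌉₊ + ⌈2 / ε⌉₊ + ⌈1 / β⌉₊ + 4 * K ^ 3 + 1, ?_⟩
  intro n hn l hl g hg hT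
  have hn1 : 1 ≤ n := by omega
  have hnR : (1 : ℝ) ≤ n := by exact_mod_cast hn1
  have e1 : 2 / δ ≤ n := (Nat.le_ceil _).trans (by exact_mod_cast (by omega : ⌈2 / δ⌉₊ ≤ n))
  have e2 : 2 / ε ≤ n := (Nat.le_ceil _).trans (by exact_mod_cast (by omega : ⌈2 / ε⌉₊ ≤ n))
  have e3 : 1 / β ≤ n := (Nat.le_ceil _).trans (by exact_mod_cast (by omega : ⌈1 / β⌉₊ ≤ n))
  have e4 : 4 * (K : ℝ) ^ 3 ≤ n := by exact_mod_cast (by omega : 4 * K ^ 3 ≤ n)
  rw [div_le_iff₀ hδ] at e1
  rw [div_le_iff₀ hε] at e2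
  rw [div_le_iff₀ hβ0] at e3
  rw [div_le_iff₀ hβ0] at hK1
  have hbR : 1 ≤ β * (n : ℝ) ^ 2 := by nlinarith
  have hb1 : 1 ≤ ⌊β * (n : ℝ) ^ 2⌋₊ := by
    rw [Nat.one_le_floor_iff]
    exact hbR
  have hb2 : (⌊β * (n : ℝ) ^ 2⌋₊ : ℝ) ≤ β * (n : ℝ) ^ 2 := Nat.floor_le (by positivity)
  have hb3 : β * (n : ℝ) ^ 2 / 2 ≤ (⌊β * (n : ℝ) ^ 2⌋₊ : ℝ) := by
    have h1 := Nat.lt_floor_add_one (β * (n : ℝ) ^ 2)
    have h2 : (1 : ℝ) ≤ (⌊β * (n : ℝ) ^ 2⌋₊ : ℝ) := by exact_mod_cast hb1
    linarith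
  have hmain := circ_bound2 n ⌊β * (n : ℝ) ^ 2⌋₊ K δ ε hδ hδ1 hε hn1 (by linarith) (by linarith)
    hb1 hKpos ?_ ?_ l hl g hg hT
  · refine le_trans (Real.exp_le_exp.2 ?_) hmain
    have h1 : 2 * (K : ℝ) ≤ n / (2 * K ^ 2) := by
      rw [le_div_iff₀ (by positivity)]
      nlinarith
    have h2 : (n : ℝ) / K ^ 2 = n / (2 * K ^ 2) + n / (2 * K ^ 2) := by
      field_simp
      ring
    rw [h2]
    have h3 : 1 / (2 * (K : ℝ) ^ 2) * n = n / (2 * K ^ 2) := by ring
    rw [h3]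
    linarith
  · have h1 : Real.sqrt (⌊β * (n : ℝ) ^ 2⌋₊ : ℝ) ≤ δ * ε ^ 2 / 24 * n := by
      rw [show δ * ε ^ 2 / 24 * (n : ℝ) = Real.sqrt ((δ * ε ^ 2 / 24 * n) ^ 2) from
        (Real.sqrt_sq (by positivity)).symm]
      apply Real.sqrt_le_sqrt
      rw [mul_pow]
      exact hb2
    linarith
  · have h1 : (n : ℝ) ^ 2 ≤ K * β * n ^ 2 := by
      nlinarith [sq_nonneg (n : ℝ)]
    nlinarith

/-- `k` parties: ratio less than `k` -/
theorem parties_lower (k : ℕ) (hk : 2 ≤ k) (c η : ℝ) (hc : 1 ≤ c) (hck : c < k) (hη : 0 < η) :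
    ∃ δ₀ : ℝ, 0 < δ₀ ∧ ∀ δ : ℝ, 0 < δ → δ ≤ δ₀ → ∃ n₀ : ℕ, ∀ n : ℕ, n₀ ≤ n →
      ∀ part : Slot n → Fin k, (∀ v j, η * n ≤ deg part j v) →
      ∀ (ι : Type) [Fintype ι] (R : ι → Gr n → Prop), (∀ i, Rectangle part (R i)) →
        Tells (fun x => ∃ i, R i x) (δ * n) (c * (δ * n)) →
        (2 : ℝ) ^ (δ / 2 * n) ≤ Fintype.card ι := by
  have hkR : (2 : ℝ) ≤ k := by exact_mod_cast hk
  set c' : ℝ := (c + k) / 2 with hc'
  have hcc' : c < c' := by rw [hc']; linarith
  have hc'k : c' < k := by rw [hc']; linarith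
  set p : ℝ := (k - c') / (k - 1) with hp
  have hp0 : 0 < p := div_pos (by linarith) (by linarith)
  set A : ℝ := ((2 : ℝ) ^ (k + 2)) ^ (1 / p) with hA
  have hA1 : 1 ≤ A := by
    rw [hA]
    apply Real.one_le_rpow
    · exact one_le_pow₀ (by norm_num)
    · positivity
  have hAp : A ^ p = 2 ^ (k + 2) := by
    rw [hA, ← Real.rpow_mul (by positivity), one_div, inv_mul_cancel₀ hp0.ne', Real.rpow_one]
  refine ⟨min (1 / (A + 1)) (η / (2 * k)), lt_min (by positivity) (by positivity), ?_⟩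
  intro δ hδ0 hδ
  have hδA : δ * (A + 1) ≤ 1 := by
    have h1 : δ ≤ 1 / (A + 1) := hδ.trans (min_le_left _ _)
    rwa [le_div_iff₀ (by linarith)] at h1
  have hδη : δ * (2 * k) ≤ η := by
    have h1 : δ ≤ η / (2 * k) := hδ.trans (min_le_right _ _)
    rwa [le_div_iff₀ (by linarith)] at h1
  have hδ2 : δ ≤ 1 / 2 := by nlinarith
  refine ⟨⌈2 / δ⌉₊ + ⌈c' / ((c' - c) * δ)⌉₊ + 1, ?_⟩
  intro n hn part hdeg ι _ R hR hT
  have hn1 : 1 ≤ n := by omega
  have hnR : (1 : ℝ) ≤ n := by exact_mod_cast hn1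
  have e1 : 2 / δ ≤ n := (Nat.le_ceil _).trans (by exact_mod_cast (by omega : ⌈2 / δ⌉₊ ≤ n))
  have e2 : c' / ((c' - c) * δ) ≤ n :=
    (Nat.le_ceil _).trans (by exact_mod_cast (by omega : ⌈c' / ((c' - c) * δ)⌉₊ ≤ n))
  rw [div_le_iff₀ hδ0] at e1
  rw [div_le_iff₀ (mul_pos (by linarith) hδ0)] at e2
  set t := ⌊δ * n⌋₊ with ht
  have ht1 : (t : ℝ) ≤ δ * n := Nat.floor_le (by positivity)
  have ht3 : δ * n - 1 ≤ t := by
    have := Nat.lt_floor_add_one (δ * n)
    rw [← ht] at this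
    linarith
  have ht2 : δ * n / 2 ≤ t := by linarith
  have ht0 : 1 ≤ t := by
    rw [ht, Nat.one_le_floor_iff]
    linarith
  have ht0R : (1 : ℝ) ≤ t := by exact_mod_cast ht0
  have h2t : 2 * t ≤ n := by
    have : (2 : ℝ) * t ≤ n := by nlinarith
    exact_mod_cast this
  obtain ⟨i, hi⟩ := exists_many (by omega : t ≤ n) R fun T hT' =>
    hT.1 _ (star_hasCover T _ (by rw [hT']; exact ht1))
  have hq : (2 : ℝ) ^ (k + 2) ≤ (((n : ℝ) - t) / t) ^ ((k - c') / (k - 1)) := by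
    rw [← hAp]
    apply Real.rpow_le_rpow (by linarith) _ hp0.le
    rw [le_div_iff₀ (by linarith)]
    nlinarith
  have hmain := thr n k t c' hk (by linarith) hc'k ht0 h2t hq part (fun v j => by
    have h1 := hdeg v j
    have h2 : (k * t : ℝ) < deg part j v := by
      refine lt_of_lt_of_le ?_ h1
      have h3 : (k : ℝ) * t ≤ k * (δ * n) := mul_le_mul_of_nonneg_left ht1 (by positivity)
      have h4 : δ * (2 * k) * n ≤ η * n := mul_le_mul_of_nonneg_right hδη (by positivity)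
      have h5 : 0 < k * (δ * n) := by positivity
      linarith
    exact_mod_cast h2) (R i) (hR i) (fun x hx => by
    obtain ⟨C, hC1, hC2⟩ := hT.2 x ⟨i, hx⟩
    refine ⟨C, hC1, hC2.trans ?_⟩
    nlinarith)
  have hpos : 0 < n.choose t := Nat.choose_pos (by omega)
  have h1 : n.choose t * 2 ^ t ≤ Fintype.card ι * n.choose t := by
    calc n.choose t * 2 ^ t ≤ (Fintype.card ι *
          {T : Finset (Fin n) | T.card = t ∧ R i (star T)}.ncard) * 2 ^ t :=
          Nat.mul_le_mul_right _ hi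
      _ = Fintype.card ι * ({T : Finset (Fin n) | T.card = t ∧ R i (star T)}.ncard * 2 ^ t) := by
          ring
      _ ≤ _ := Nat.mul_le_mul_left _ hmain
  have h2 : 2 ^ t ≤ Fintype.card ι := by
    rw [mul_comm (Fintype.card ι)] at h1
    exact Nat.le_of_mul_le_mul_left h1 hpos
  calc (2 : ℝ) ^ (δ / 2 * n) ≤ (2 : ℝ) ^ (t : ℝ) := by
        apply Real.rpow_le_rpow_of_exponent_le (by norm_num)
        linarith
    _ = ((2 ^ t : ℕ) : ℝ) := by
        rw [Real.rpow_natCast]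
        push_cast
        rfl
    _ ≤ _ := by exact_mod_cast h2

/-- `k` parties: ratio `k` -/
theorem parties_upper (n k : ℕ) (part : Slot n → Fin k) (s : ℝ) :
    ∃ R : Gr n → Prop, Rectangle part R ∧ Tells R s (k * s) := by
  refine ⟨fun x => ∀ j, HasCover (fun e => x e && decide (part e = j)) s, ?_, ?_, ?_⟩
  · intro X hX j
    have h1 : (fun e => X (part e) e && decide (part e = j)) =
        fun e => X j e && decide (part e = j) := by
      funext e
      by_cases h : part e = j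
      · rw [h]
      · simp [h]
    rw [h1]
    exact hX j j
  · rintro x ⟨C, h1, h2⟩ j
    refine ⟨C, fun e he => h1 e ?_, h2⟩
    simp only [Bool.and_eq_true] at he
    exact he.1
  · intro x hx
    choose C h1 h2 using hx
    refine ⟨univ.biUnion C, fun e he => ?_, ?_⟩
    · have := h1 (part e) e (by simp [he])
      rcases this with h | h
      · exact Or.inl (mem_biUnion.2 ⟨_, mem_univ _, h⟩)
      · exact Or.inr (mem_biUnion.2 ⟨_, mem_univ _, h⟩)
    · have h3 : ((univ.biUnion C).card : ℝ) ≤ ∑ j, ((C j).card : ℝ) := by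
        exact_mod_cast card_biUnion_le
      refine h3.trans ((sum_le_sum fun j _ => h2 j).trans ?_)
      simp

/-- there are partitions for which all degrees are large -/
theorem exists_part (k n : ℕ) (hk : 1 ≤ k) (hn : 4 * k ≤ n) :
    ∃ part : Slot n → Fin k, ∀ v j, (n : ℝ) / (2 * k) ≤ deg part j v := by
  refine ⟨fun e => ⟨(e.1.1.1 + e.1.2.1) % k, Nat.mod_lt _ (by omega)⟩, ?_⟩
  intro v j
  set q := n / k with hq
  have hqk : q * k ≤ n := Nat.div_mul_le_self n k
  have hq4 : 4 ≤ q := by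
    rw [hq, Nat.le_div_iff_mul_le (by omega)]
    exact hn
  -- the residue of the other end points
  set r := (j.1 + (k - v.1 % k)) % k with hr
  have hrk : r < k := Nat.mod_lt _ (by omega)
  have hrv : ∀ i : ℕ, (v.1 + (k * i + r)) % k = j.1 := by
    intro i
    have h1 : (v.1 + (k * i + r)) % k = (v.1 + r) % k := by
      rw [show v.1 + (k * i + r) = (v.1 + r) + k * i by ring, Nat.add_mul_mod_self_left]
    rw [h1, hr, Nat.add_mod_mod]
    have h2 : v.1 % k < k := Nat.mod_lt _ (by omega)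
    have h3 : v.1 + (j.1 + (k - v.1 % k)) = j.1 + k + k * (v.1 / k) := by
      have := Nat.mod_add_div v.1 k
      omega
    rw [h3, Nat.add_mul_mod_self_left, Nat.add_mod_right, Nat.mod_eq_of_lt j.2]
  have hlt : ∀ i : Fin q, k * i.1 + r < n := by
    intro i
    have h1 : i.1 + 1 ≤ q := i.2
    have h2 : (i.1 + 1) * k ≤ q * k := Nat.mul_le_mul_right _ h1
    have h3 : (i.1 + 1) * k = k * i.1 + k := by ring
    omega
  have hcard : q - 1 ≤ deg (fun e : Slot n => (⟨(e.1.1.1 + e.1.2.1) % k,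
      Nat.mod_lt _ (by omega)⟩ : Fin k)) j v := by
    have h1 : ((univ : Finset (Fin q)).filter fun i => k * i.1 + r ≠ v.1).card ≥ q - 1 := by
      have h2 : ((univ : Finset (Fin q)).filter fun i => k * i.1 + r = v.1).card ≤ 1 := by
        rw [card_le_one]
        intro i hi i' hi'
        rw [mem_filter] at hi hi'
        apply Fin.ext
        have h3 : k * i.1 = k * i'.1 := by omega
        exact Nat.eq_of_mul_eq_mul_left (by omega) h3
      have h3 := card_filter_add_card_filter_not (s := (univ : Finset (Fin q)))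
        (fun i => k * i.1 + r = v.1)
      rw [card_univ, Fintype.card_fin] at h3
      simp only [ne_eq]
      omega
    refine h1.le.trans ?_
    unfold deg
    refine card_le_card_of_injOn (fun i => if h : k * i.1 + r < v.1 then
      ⟨(⟨k * i.1 + r, hlt i⟩, v), h⟩ else if h' : v.1 < k * i.1 + r then
      ⟨(v, ⟨k * i.1 + r, hlt i⟩), h'⟩ else ⟨(⟨0, by omega⟩, ⟨1, by omega⟩), by
        simp [Fin.lt_def]⟩) ?_ ?_
    · intro i hi
      simp only [coe_filter, mem_univ, true_and, Set.mem_setOf_eq] at hi ⊢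
      rcases lt_or_gt_of_ne hi with h | h
      · rw [dif_pos h]
        refine ⟨?_, Or.inr rfl⟩
        apply Fin.ext
        simp only
        rw [add_comm]
        exact hrv _
      · rw [dif_neg (not_lt.2 (le_of_lt h)), dif_pos h]
        refine ⟨?_, Or.inl rfl⟩
        apply Fin.ext
        simp only
        exact hrv _
    · intro i hi i' hi' h
      simp only [coe_filter, mem_univ, true_and, Set.mem_setOf_eq] at hi hi'
      have key : k * i.1 + r = k * i'.1 + r := by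
        rcases lt_or_gt_of_ne hi with h1 | h1 <;> rcases lt_or_gt_of_ne hi' with h2 | h2
        · simp only [dif_pos h1, dif_pos h2, Subtype.mk.injEq, Prod.mk.injEq, Fin.mk.injEq,
            and_true] at h
          exact h
        · simp only [dif_pos h1, dif_pos h2, dif_neg (not_lt.2 h2.le), Subtype.mk.injEq,
            Prod.mk.injEq, Fin.ext_iff] at h
          omega
        · simp only [dif_pos h1, dif_pos h2, dif_neg (not_lt.2 h1.le), Subtype.mk.injEq,
            Prod.mk.injEq, Fin.ext_iff] at h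
          omega
        · simp only [dif_pos h1, dif_pos h2, dif_neg (not_lt.2 h1.le), dif_neg (not_lt.2 h2.le),
            Subtype.mk.injEq, Prod.mk.injEq, Fin.mk.injEq, true_and] at h
          exact h
      apply Fin.ext
      have h3 : k * i.1 = k * i'.1 := by omega
      exact Nat.eq_of_mul_eq_mul_left (show 0 < k by omega) h3
  have h1 : (n : ℝ) < (q + 1) * k := by
    have := Nat.lt_div_mul_add (a := n) (b := k) (by omega)
    rw [← hq] at this
    have h2 : n < (q + 1) * k := by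
      rw [add_mul, one_mul]
      exact this
    exact_mod_cast h2
  have hkR : (0 : ℝ) < k := by exact_mod_cast hk
  have hq4R : (4 : ℝ) ≤ q := by exact_mod_cast hq4
  have h2 : ((q - 1 : ℕ) : ℝ) = (q : ℝ) - 1 := by
    rw [Nat.cast_sub (by omega)]
    simp
  calc (n : ℝ) / (2 * k) ≤ (q : ℝ) - 1 := by
        rw [div_le_iff₀ (by positivity)]
        nlinarith
    _ = ((q - 1 : ℕ) : ℝ) := h2.symm
    _ ≤ _ := by exact_mod_cast hcard

end Pool.Agent.K9h63.DV
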