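import Pool.Agent.K9h63.DV.Stm2

/-!
# Orientations of few slots with small in-degrees (leaf ORI)
-/

set_option autoImplicit false

namespace Pool.Agent.K9h63.DV

open Finset

/-- the slots of `P` at `u` -/
private def oriAt {n : ℕ} (P : Finset (Slot n)) (u : Fin n) : Finset (Slot n) :=
  P.filter fun e => e.1.1 = u ∨ e.1.2 = u

private theorem ori_sum {n : ℕ} (P : Finset (Slot n)) :
    ∑ u : Fin n, (oriAt P u).card = 2 * P.card := by
  classical
  simp only [oriAt, Finset.card_filter]
  rw [Finset.sum_comm, mul_comm, ← smul_eq_mul, ← Finset.sum_const]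
  refine Finset.sum_congr rfl fun e _ => ?_
  rw [← Finset.card_filter]
  have h : (Finset.univ.filter fun u : Fin n => e.1.1 = u ∨ e.1.2 = u) = {e.1.1, e.1.2} := by
    ext u
    simp [eq_comm]
  rw [h, Finset.card_pair e.2.ne]

private theorem ori_exists {n D : ℕ} (P : Finset (Slot n)) (hP : P.Nonempty)
    (hD : 2 * P.card ≤ D * D) : ∃ u, 1 ≤ (oriAt P u).card ∧ (oriAt P u).card ≤ D := by
  classical
  by_contra hcon
  push Not at hcon
  set V : Finset (Fin n) := Finset.univ.filter fun u => 1 ≤ (oriAt P u).card with hV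
  have h1 : (D + 1) * V.card ≤ 2 * P.card := by
    rw [← ori_sum P, mul_comm, ← smul_eq_mul, ← Finset.sum_const]
    calc ∑ _u ∈ V, (D + 1) ≤ ∑ u ∈ V, (oriAt P u).card := by
          refine Finset.sum_le_sum fun u hu => ?_
          exact hcon u (Finset.mem_filter.1 hu).2
      _ ≤ ∑ u : Fin n, (oriAt P u).card :=
          Finset.sum_le_sum_of_subset (Finset.subset_univ _)
  have hend : ∀ e ∈ P, e.1.1 ∈ V ∧ e.1.2 ∈ V := by
    intro e he
    constructor
    · refine Finset.mem_filter.2 ⟨Finset.mem_univ _, Finset.card_pos.2 ⟨e, ?_⟩⟩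
      exact Finset.mem_filter.2 ⟨he, Or.inl rfl⟩
    · refine Finset.mem_filter.2 ⟨Finset.mem_univ _, Finset.card_pos.2 ⟨e, ?_⟩⟩
      exact Finset.mem_filter.2 ⟨he, Or.inr rfl⟩
  have h2 : P.card ≤ (cntSlots V).card := by
    refine Finset.card_le_card fun e he => ?_
    unfold cntSlots
    exact Finset.mem_filter.2 ⟨Finset.mem_univ _, hend e he⟩
  have h3 := card_cntSlots V
  have hVpos : 0 < V.card := by
    obtain ⟨e, he⟩ := hP
    exact Finset.card_pos.2 ⟨_, (hend e he).1⟩
  have h4 : D + 2 ≤ V.card := by
    have : (D + 2) * V.card ≤ V.card * V.card := by nlinarith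
    exact Nat.le_of_mul_le_mul_right this hVpos
  nlinarith

theorem ori : S_ORI := by
  classical
  intro n D P
  induction hN : P.card using Nat.strong_induction_on generalizing P with
  | _ N ih =>
    intro hD
    rcases P.eq_empty_or_nonempty with rfl | hne
    · exact ⟨fun e => e.1.1, fun e => Or.inl rfl, fun u => by simp⟩
    obtain ⟨u, hu1, hu2⟩ := ori_exists P hne (by rw [hN]; exact hD)
    have hsub : oriAt P u ⊆ P := Finset.filter_subset _ _
    have hcard0 := Finset.card_sdiff_add_card_eq_card hsub
    obtain ⟨o', ho1, ho2⟩ := ih (P \ oriAt P u).card (by omega) (P \ oriAt P u) rfl (by omega)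
    refine ⟨fun e => if e.1.1 = u ∨ e.1.2 = u then u else o' e, fun e => ?_, fun v => ?_⟩
    · dsimp only
      by_cases he : e.1.1 = u ∨ e.1.2 = u
      · rw [if_pos he]
        exact he.imp Eq.symm Eq.symm
      · rw [if_neg he]
        exact ho1 e
    · rcases eq_or_ne v u with rfl | hv
      · refine (Finset.card_le_card fun e he => ?_).trans hu2
        obtain ⟨he1, he2⟩ := Finset.mem_filter.1 he
        refine Finset.mem_filter.2 ⟨he1, ?_⟩
        by_contra hnot
        dsimp only at he2
        rw [if_neg hnot] at he2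
        rcases ho1 e with h | h
        · exact hnot (Or.inl (h.symm.trans he2))
        · exact hnot (Or.inr (h.symm.trans he2))
      · refine (Finset.card_le_card fun e he => ?_).trans (ho2 v)
        obtain ⟨he1, he2⟩ := Finset.mem_filter.1 he
        dsimp only at he2
        by_cases ht : e.1.1 = u ∨ e.1.2 = u
        · rw [if_pos ht] at he2
          exact absurd he2.symm hv
        · rw [if_neg ht] at he2
          exact Finset.mem_filter.2 ⟨Finset.mem_sdiff.2 ⟨he1, fun h =>
            ht (Finset.mem_filter.1 h).2⟩, he2⟩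

end Pool.Agent.K9h63.DV
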