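import Pool.Agent.K9h63.DV.Main

/-!
# Decomposable circuits: ratio `n ^ γ`, `γ < 1 / 6`
-/

set_option autoImplicit false

namespace Pool.Agent.K9h63.DV

open Finset Filter

theorem ev_pow (p q c : ℝ) (hpq : p < q) :
    ∀ᶠ n : ℕ in atTop, c * (n : ℝ) ^ p ≤ (n : ℝ) ^ q := by
  have h1 : Tendsto (fun n : ℕ => (n : ℝ) ^ (q - p)) atTop atTop :=
    (tendsto_rpow_atTop (by linarith)).comp tendsto_natCast_atTop_atTop
  filter_upwards [h1.eventually_ge_atTop c, eventually_ge_atTop 1] with n hn hn1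
  have hn0 : (0 : ℝ) < n := by exact_mod_cast hn1
  have h2 : (n : ℝ) ^ q = (n : ℝ) ^ (q - p) * (n : ℝ) ^ p := by
    rw [← Real.rpow_add hn0]
    congr 1
    ring
  rw [h2]
  exact mul_le_mul_of_nonneg_right hn (by positivity)

/-- ratio `n ^ γ` -/
theorem circ_power (γ ε : ℝ) (hγ0 : 0 ≤ γ) (hγ : γ < 1 / 6) (hε : 0 < ε) (hε1 : ε ≤ 1) :
    ∃ n₀ : ℕ, ∀ n : ℕ, n₀ ≤ n → ∀ l : List (Gate (Slot n)), Circ ⌊(n : ℝ) ^ (5 / 3 : ℝ)⌋₊ l →
      ∀ g ∈ l, Tells g.2 ((n : ℝ) ^ (1 - γ)) ((1 - ε) * n) →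
        Real.exp ((n : ℝ) ^ (1 / 3 : ℝ)) ≤ l.length := by
  set γ' : ℝ := (γ + 1 / 6) / 2 with hγ'
  have h1 : γ < γ' := by rw [hγ']; linarith
  have h2 : γ' < 1 / 6 := by rw [hγ']; linarith
  have h0 : 0 < γ' := by linarith
  have ev1 := ev_pow 0 (1 - γ) 2 (by linarith)
  have ev2 := ev_pow 0 1 (2 / ε) (by norm_num)
  have ev3 := ev_pow (1 - γ') (1 - γ) (24 / ε ^ 2) (by linarith)
  have ev4 := ev_pow (1 / 3) (1 - 4 * γ') 20 (by linarith)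
  obtain ⟨n₀, hn₀⟩ := eventually_atTop.1 (ev1.and (ev2.and (ev3.and ev4)))
  refine ⟨max n₀ 1, fun n hn l hl g hg hT => ?_⟩
  obtain ⟨e1, e2, e3, e4⟩ := hn₀ n (le_of_max_le_left hn)
  have hn1 : 1 ≤ n := le_of_max_le_right hn
  have hnR : (1 : ℝ) ≤ n := by exact_mod_cast hn1
  have hn0 : (0 : ℝ) < n := by linarith
  rw [Real.rpow_zero, mul_one] at e1 e2
  rw [Real.rpow_one] at e2
  rw [div_le_iff₀ hε] at e2
  have hδn : (n : ℝ) ^ (-γ) * n = (n : ℝ) ^ (1 - γ) := by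
    nth_rewrite 2 [← Real.rpow_one (n : ℝ)]
    rw [← Real.rpow_add hn0]
    congr 1
    ring
  set b := ⌊(n : ℝ) ^ (2 - 2 * γ')⌋₊ with hb
  set K := ⌈(n : ℝ) ^ (2 * γ')⌉₊ with hK
  have hb1 : 1 ≤ b := by
    rw [hb, Nat.one_le_floor_iff]
    exact Real.one_le_rpow hnR (by linarith)
  have hb2 : (b : ℝ) ≤ (n : ℝ) ^ (2 - 2 * γ') := Nat.floor_le (by positivity)
  have hb3 : (n : ℝ) ^ (2 - 2 * γ') ≤ 2 * b := by
    have h3 := Nat.lt_floor_add_one ((n : ℝ) ^ (2 - 2 * γ'))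
    have h4 : (1 : ℝ) ≤ (b : ℝ) := by exact_mod_cast hb1
    rw [← hb] at h3
    linarith
  have hK1 : (n : ℝ) ^ (2 * γ') ≤ K := Nat.le_ceil _
  have hK1' : 1 ≤ (n : ℝ) ^ (2 * γ') := Real.one_le_rpow hnR (by linarith)
  have hK2 : (K : ℝ) ≤ 2 * (n : ℝ) ^ (2 * γ') := by
    have h3 : (K : ℝ) < (n : ℝ) ^ (2 * γ') + 1 := Nat.ceil_lt_add_one (by positivity)
    linarith
  have hK3 : 1 ≤ K := by
    have : (1 : ℝ) ≤ K := hK1'.trans hK1
    exact_mod_cast this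
  have hK0 : (0 : ℝ) < K := by exact_mod_cast hK3
  have hl' : Circ b l := by
    refine circ_mono ?_ hl
    apply Nat.floor_le_floor
    exact Real.rpow_le_rpow_of_exponent_le hnR (by linarith)
  have hmain := circ_bound2 n b K ((n : ℝ) ^ (-γ)) ε (by positivity)
    (Real.rpow_le_one_of_one_le_of_nonpos hnR (by linarith)) hε hn1
    (by rw [hδn]; exact e1) (by linarith) hb1 hK3 ?_ ?_ l hl' g hg (by rw [hδn]; exact hT)
  · refine le_trans (Real.exp_le_exp.2 ?_) hmain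
    have h3 : (n : ℝ) ^ (1 - 4 * γ') / 4 ≤ n / K ^ 2 := by
      rw [le_div_iff₀ (by positivity)]
      have h4 : (K : ℝ) ^ 2 ≤ 4 * (n : ℝ) ^ (4 * γ') := by
        calc (K : ℝ) ^ 2 ≤ (2 * (n : ℝ) ^ (2 * γ')) ^ 2 := pow_le_pow_left₀ hK0.le hK2 2
          _ = 4 * (n : ℝ) ^ (4 * γ') := by
              rw [mul_pow, ← Real.rpow_natCast ((n : ℝ) ^ (2 * γ')), ← Real.rpow_mul hn0.le]
              push_cast
              ring_nf
      calc (n : ℝ) ^ (1 - 4 * γ') / 4 * K ^ 2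
          ≤ (n : ℝ) ^ (1 - 4 * γ') / 4 * (4 * (n : ℝ) ^ (4 * γ')) :=
            mul_le_mul_of_nonneg_left h4 (by positivity)
        _ = (n : ℝ) ^ (1 - 4 * γ') * (n : ℝ) ^ (4 * γ') := by ring
        _ = n := by
            rw [← Real.rpow_add hn0]
            simp
    have h5 : (n : ℝ) ^ (2 * γ') ≤ (n : ℝ) ^ (1 / 3 : ℝ) :=
      Real.rpow_le_rpow_of_exponent_le hnR (by linarith)
    linarith
  · have h3 : Real.sqrt b ≤ (n : ℝ) ^ (1 - γ') := by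
      rw [show (n : ℝ) ^ (1 - γ') = Real.sqrt (((n : ℝ) ^ (1 - γ')) ^ 2) from
        (Real.sqrt_sq (by positivity)).symm]
      apply Real.sqrt_le_sqrt
      rw [← Real.rpow_natCast ((n : ℝ) ^ (1 - γ')), ← Real.rpow_mul hn0.le]
      refine hb2.trans (le_of_eq ?_)
      congr 1
      push_cast
      ring
    have h4 : 24 * (n : ℝ) ^ (1 - γ') ≤ ε ^ 2 * (n : ℝ) ^ (1 - γ) := by
      have h5 : ε ^ 2 * (24 / ε ^ 2 * (n : ℝ) ^ (1 - γ')) ≤ ε ^ 2 * (n : ℝ) ^ (1 - γ) :=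
        mul_le_mul_of_nonneg_left e3 (by positivity)
      have h6 : ε ^ 2 * (24 / ε ^ 2 * (n : ℝ) ^ (1 - γ')) = 24 * (n : ℝ) ^ (1 - γ') := by
        field_simp
      linarith
    calc 24 * Real.sqrt b ≤ 24 * (n : ℝ) ^ (1 - γ') := by linarith
      _ ≤ ε ^ 2 * (n : ℝ) ^ (1 - γ) := h4
      _ = _ := by
          rw [← hδn]
          ring
  · have h3 : (n : ℝ) ^ 2 = (n : ℝ) ^ (2 * γ') * (n : ℝ) ^ (2 - 2 * γ') := by
      rw [← Real.rpow_add hn0, ← Real.rpow_natCast]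
      congr 1
      push_cast
      ring
    rw [h3]
    calc (n : ℝ) ^ (2 * γ') * (n : ℝ) ^ (2 - 2 * γ') ≤ K * (2 * b) :=
          mul_le_mul hK1 hb3 (by positivity) hK0.le
      _ = _ := by ring

end Pool.Agent.K9h63.DV
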