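import Pool.Agent.K9h63.DV.Defs

/-!
# Statements of the leaves (project DV, MP_cff830_lc)
-/

set_option autoImplicit false

namespace Pool.Agent.K9h63.DV

open Finset

/-- All slots which touch `T` (a graph with the vertex cover `T`). -/
def star {n : ℕ} (T : Finset (Fin n)) : Gr n := fun e => decide (e.1.1 ∈ T ∨ e.1.2 ∈ T)

/-- Rectangles with free variables (`part e = none`). -/
def Rect {E : Type} {K : ℕ} (part : E → Option (Fin K)) (R : (E → Bool) → Prop) : Prop :=
  ∀ (X : Fin K → E → Bool) (z : E → Bool), (∀ j, R (X j)) →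
    R fun e => (part e).elim (z e) fun j => X j e

/-- DEC (helper63). Decomposition of a circuit into rectangles. -/
def S_DEC : Prop := ∀ (E : Type) [Fintype E] [DecidableEq E] (b : ℕ) (l : List (Gate E)),
  1 ≤ b → Circ b l → ∀ o ∈ l, ∀ m : ℕ, 1 ≤ m → o.1.card ≤ m * b →
  ∃ (ι : Type) (_ : Fintype ι) (R : ι → (E → Bool) → Prop) (part : ι → E → Option (Fin m)),
    Fintype.card ι ≤ (4 ^ m * l.length) ^ (2 * m) ∧ (∀ i, Rect (part i) (R i)) ∧
    (∀ i j, (univ.filter fun e => part i e = some j).card ≤ 2 * b) ∧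
    (∀ i x, R i x → o.2 x) ∧ ∀ x, o.2 x → ∃ i, R i x

/-- CNT. A rectangle all of whose graphs have an independent set of `a` vertices contains `star T`
for few sets `T` of `t` vertices.
Proof. Let `F` be the set of the `T` with `|T| = t` and `R (star T)`. If `K = 0` then `R z` for all `z`
(`Rect` with no `X`), a contradiction for `z = true` since `a ≥ 2`. For each tuple `(T_j)_{j < K}` in `F`
let `y e = star (T_j) e` if `part e = some j` and `y e = true` if `part e = none`. By `Rect`, `R y`, so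
there is a set `J` of `a` vertices with `y e = false` for all slots `e` in `J`. Hence no slot in `J` is
free, and `T_j` is disjoint from `A_j(J)`, the set of the `v ∈ J` for which there is a slot `e ∋ v` in `J`
with `part e = some j`. So `|F| ^ K ≤ ∑_J ∏_j #{T : |T| = t, T ∩ A_j(J) = ∅} = ∑_J ∏_j C(n - |A_j(J)|, t)`,
the sum over the `J` without free slots (at most `2 ^ n` sets), and
`C(n - m, t) ≤ (1 - t / n) ^ m C(n, t) ≤ exp (- t m / n) C(n, t)` for `m ≤ n` (each factor
`(n - m - i) / (n - i)`... or: `C(n - m - 1, t) / C(n - m, t) = (n - m - t) / (n - m) ≤ (n - t) / n`, induction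
on `m`). Finally `∑_j |A_j(J)| ≥ a (a - 1) / (2 √b)`: the number of the slots in `J` is
`a (a - 1) / 2 = ∑_j e_j`, `e_j` the number of the slots in `J` with `part e = some j`; `e_j ≤ 2 b` and
`e_j ≤ |A_j| (|A_j| - 1) / 2 ≤ |A_j| ^ 2 / 2`, so `e_j ^ 2 ≤ b |A_j| ^ 2`, `e_j ≤ √b |A_j|`. -/
def S_CNT : Prop := ∀ (n t a b K : ℕ), 2 ≤ a → 1 ≤ b → t ≤ n → ∀ (R : Gr n → Prop)
  (part : Slot n → Option (Fin K)), Rect part R →
  (∀ j, (univ.filter fun e => part e = some j).card ≤ 2 * b) →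
  (∀ x, R x → ∃ J : Finset (Fin n), J.card = a ∧ ∀ e : Slot n, e.1.1 ∈ J → e.1.2 ∈ J → x e = false) →
  ({T : Finset (Fin n) | T.card = t ∧ R (star T)}.ncard : ℝ) ^ K ≤
    2 ^ n * Real.exp (-((t : ℝ) / n * (a * (a - 1) / (2 * Real.sqrt b)))) * (n.choose t : ℝ) ^ K

/-- THR. A rectangle for `k` parties which contains only graphs with vertex covers of at most `c t`
vertices, `c < k`, contains `star T` for few sets `T` of `t` vertices.
Proof. Let `F` be the set of the `T` with `|T| = t` and `R (star T)`. (1) For `T_j ∈ F` (`j < k`) the graph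
`y e = star (T_(part e)) e` is in `R`, so it has a vertex cover `C` with `|C| ≤ c t ≤ k t`. Let `v ∉ C` and
`j` be arbitrary. The map from the slots of `j` at `v` to their other end point is injective and
`deg part j v > k t ≥ |C|`, so there is a slot `e = {v, w}` of `j` with `w ∉ C`. As `C` is a cover,
`y e = false`, so `v ∉ T_j`. Hence `⋃_j T_j ⊆ C` and `|⋃_j T_j| ≤ c t`. (2) Let `lam = (c - 1) / (k - 1)`, so
`0 ≤ lam < 1`. If `F` is not empty there is a set `U` with `|U| ≤ k t` such that `|T \ U| ≤ lam t` for all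
`T ∈ F`: otherwise choose `T_0 ∈ F` and, one after the other, `T_i ∈ F` with
`|T_i \ (T_0 ∪ … ∪ T_(i-1))| > lam t` for `0 < i < k`; then `|⋃ T_j| > t + (k - 1) lam t = c t`. (3) A set
`T ∈ F` is determined by `T ∩ U` (at most `2 ^ (k t)` possibilities) and `T \ U`, a set with
`m ≤ lam t` elements. For `m ≤ t`, `2 t ≤ n`: `C(n, m) ((n - t) / t) ^ (t - m) ≤ C(n, t)` (induction:
`C(n, i + 1) / C(n, i) = (n - i) / (i + 1) ≥ (n - t) / t` for `i < t`). So
`|F| ≤ 2 ^ (k t) (t + 1) C(n, t) / ((n - t) / t) ^ ((1 - lam) t)` and `1 - lam = (k - c) / (k - 1)`, and by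
assumption `((n - t) / t) ^ (1 - lam) ≥ 2 ^ (k + 2)`, so `|F| ≤ (t + 1) 4 ^ (-t) C(n, t) ≤ 2 ^ (-t) C(n, t)`. -/
def S_THR : Prop := ∀ (n k t : ℕ) (c : ℝ), 2 ≤ k → 1 ≤ c → c < k → 1 ≤ t → 2 * t ≤ n →
  (2 : ℝ) ^ (k + 2) ≤ (((n : ℝ) - t) / t) ^ ((k - c) / (k - 1)) →
  ∀ part : Slot n → Fin k, (∀ v j, k * t < deg part j v) →
  ∀ R : Gr n → Prop, Rectangle part R → (∀ x, R x → HasCover x (c * t)) →
    {T : Finset (Fin n) | T.card = t ∧ R (star T)}.ncard * 2 ^ t ≤ n.choose t

end Pool.Agent.K9h63.DV
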