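import Pool.Agent.K9h63.DV.Cnt

/-!
# Statements of two more leaves (project DV, MP_cff830_lc)
-/

set_option autoImplicit false

namespace Pool.Agent.K9h63.DV

open Finset

/-- ORI. A set of few slots has an orientation with small in-degrees.
Proof. Strong induction on `P.card`. If `P` is empty, `o e = e.1.1`. Otherwise there is a vertex `u`
with `1 ≤ d(u) ≤ D`, where `d(u)` is the number of the slots of `P` at `u`: if all vertices `u` in the
set `V` of the vertices of the slots of `P` had `d(u) ≥ D + 1`, then `|V| ≥ D + 2` (a vertex of `V` and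
the other ends of its slots) and `2 |P| = ∑_{u ∈ V} d(u) ≥ (D + 2) (D + 1) > D ^ 2`. Let `P'` be the set
of the slots of `P` which do not touch `u` and `o'` the orientation for `P'`. Put `o e = u` if `e`
touches `u` and `o e = o' e` otherwise (`o' e ≠ u` then, as `o' e` is an end of `e`). -/
def S_ORI : Prop := ∀ (n D : ℕ) (P : Finset (Slot n)), 2 * P.card ≤ D * D →
  ∃ o : Slot n → Fin n, (∀ e, o e = e.1.1 ∨ o e = e.1.2) ∧
    ∀ u, (P.filter fun e => o e = u).card ≤ D

/-- IND. Most random graphs with edge probability `1 / q` have no independent set of `a` vertices.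
Proof. For each set `J` of `a` vertices let `W = cntSlots J` (see `Cnt.lean`; `card_cntSlots` gives
`2 |W| + a = a ^ 2`, so `|W| ≥ (n + 1) q`). The number of the `w` with `w e ≠ 0` for all `e ∈ W` is
`(q - 1) ^ |W| q ^ (N - |W|)`, `N = Fintype.card (Slot n)` (a `Fintype.piFinset`), and
`(1 - 1 / q) ^ |W| ≤ exp (- |W| / q) ≤ exp (- (n + 1)) ≤ 2 ^ (- (n + 1))`. There are at most `2 ^ n` sets
`J`. -/
def S_IND : Prop := ∀ (n q a : ℕ), 1 ≤ q → 2 * (n + 1) * q ≤ a * (a - 1) →
  2 * {w : Slot n → Fin q | ∃ J : Finset (Fin n), J.card = a ∧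
    ∀ e : Slot n, e.1.1 ∈ J → e.1.2 ∈ J → (w e).1 ≠ 0}.ncard ≤ q ^ Fintype.card (Slot n)

end Pool.Agent.K9h63.DV
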