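import Pool.Agent.K9h63.DV.Main

/-!
# Upper bounds
-/

set_option autoImplicit false

namespace Pool.Agent.K9h63.DV

open Finset

/-- a circuit which tests that the slots in `S` are empty -/
theorem circ_empty {n : ℕ} (l : List (Gate (Slot n))) (hl : Circ 1 l) (S : Finset (Slot n)) :
    ∃ l' : List (Gate (Slot n)), Circ 1 (l' ++ l) ∧ l'.length ≤ 2 * S.card + 1 ∧
      ((S, fun x => ∀ e ∈ S, x e = false) : Gate (Slot n)) ∈ l' := by
  induction S using Finset.induction_on with
  | empty =>
    refine ⟨[(∅, fun x => ∀ e ∈ (∅ : Finset (Slot n)), x e = false)], ?_, by simp, by simp⟩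
    exact .leaf l _ _ hl (by simp) fun x y _ => by simp
  | insert e S he ih =>
    obtain ⟨l', h1, h2, h3⟩ := ih
    have h4 : Circ 1 ((({e}, fun x => x e = false) : Gate (Slot n)) :: (l' ++ l)) :=
      .leaf _ _ _ h1 (by simp) fun x y hxy => by rw [hxy e (by simp)]
    have h5 := Circ.and _ ({e}, fun x => x e = false) (S, fun x => ∀ e ∈ S, x e = false) h4
      List.mem_cons_self (List.mem_cons_of_mem _ (List.mem_append_left _ h3)) (by simpa using he)
    have h6 : (((({e} : Finset (Slot n)) ∪ S), fun x : Slot n → Bool => x e = false ∧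
        ∀ e ∈ S, x e = false) : Gate (Slot n)) =
        (insert e S, fun x => ∀ e' ∈ insert e S, x e' = false) := by
      refine Prod.ext ?_ ?_
      · simp only
        rw [insert_eq]
      · funext x
        simp
    simp only at h5
    rw [h6] at h5
    refine ⟨_ :: _ :: l', h5, ?_, by simp⟩
    simp only [List.length_cons]
    rw [card_insert_of_notMem he]
    omega

theorem circ_covers {n : ℕ} (F : Finset (Finset (Fin n))) :
    ∃ l : List (Gate (Slot n)), Circ 1 l ∧ l.length ≤ F.card * (n ^ 2 + 2) + 1 ∧
      ∃ g ∈ l, ∀ x, g.2 x ↔ ∃ C ∈ F, IsCover x C := by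
  classical
  induction F using Finset.induction_on with
  | empty =>
    refine ⟨[(∅, fun _ => False)], .leaf _ _ _ .nil (by simp) fun x y _ => Iff.rfl, by simp, ?_⟩
    exact ⟨_, List.mem_singleton.2 rfl, fun x => by simp⟩
  | insert C F hC ih =>
    obtain ⟨l, h1, h2, g, hg, h3⟩ := ih
    set S : Finset (Slot n) := univ.filter fun e => ¬ (e.1.1 ∈ C ∨ e.1.2 ∈ C) with hS
    obtain ⟨l', h4, h5, h6⟩ := circ_empty l h1 S
    refine ⟨_, .or _ (S, fun x => ∀ e ∈ S, x e = false) g h4 (List.mem_append_left _ h6)
      (List.mem_append_right _ hg), ?_, _, List.mem_cons_self, fun x => ?_⟩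
    · have h7 : 2 * S.card ≤ n ^ 2 := by
        have h8 := two_mul_card_slot n
        have h9 : S.card ≤ Fintype.card (Slot n) := card_le_univ _
        rw [sq]
        omega
      simp only [List.length_cons, List.length_append]
      rw [card_insert_of_notMem hC, add_mul, one_mul]
      omega
    · simp only
      rw [h3]
      simp only [exists_mem_insert]
      apply or_congr_left
      constructor
      · intro h e he
        by_contra hne
        have := h e (by simpa [hS] using hne)
        rw [this] at he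
        simp at he
      · intro h e he
        simp only [hS, mem_filter, mem_univ, true_and] at he
        by_contra hne
        rw [Bool.not_eq_false] at hne
        exact he (h e hne)

/-- exact solution by decomposable circuits -/
theorem circ_exact (n : ℕ) (s : ℝ) : ∃ l : List (Gate (Slot n)), Circ 1 l ∧
    l.length ≤ 2 ^ n * (n ^ 2 + 3) ∧ ∃ g ∈ l, Tells g.2 s s := by
  classical
  obtain ⟨l, h1, h2, g, hg, h3⟩ := circ_covers
    ((univ : Finset (Finset (Fin n))).filter fun C => (C.card : ℝ) ≤ s)
  refine ⟨l, h1, h2.trans ?_, g, hg, ?_, ?_⟩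
  · have h4 : ((univ : Finset (Finset (Fin n))).filter fun C => (C.card : ℝ) ≤ s).card ≤ 2 ^ n := by
      refine (card_filter_le _ _).trans ?_
      simp
    have h5 : 1 ≤ 2 ^ n := Nat.one_le_two_pow
    nlinarith
  · rintro x ⟨C, hC, hs⟩
    rw [h3]
    exact ⟨C, by simpa using hs, hC⟩
  · intro x hx
    rw [h3] at hx
    obtain ⟨C, hC, hC2⟩ := hx
    exact ⟨C, hC2, by simpa using hC⟩

/-- exact solution by `k` parties -/
theorem parties_exact (n k : ℕ) (hk : 1 ≤ k) (part : Slot n → Fin k) (s : ℝ) :
    ∃ R : Finset (Fin n) → Gr n → Prop, (∀ C, Rectangle part (R C)) ∧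
      Tells (fun x => ∃ C, R C x) s s := by
  refine ⟨fun C x => IsCover x C ∧ (C.card : ℝ) ≤ s, ?_, fun x hx => hx, fun x hx => hx⟩
  intro C X hX
  exact ⟨fun e he => (hX (part e)).1 e he, (hX ⟨0, by omega⟩).2⟩

end Pool.Agent.K9h63.DV
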